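import Mathlib
import Pool.Agent.Helper78.SM.SliceA

/-! Block SE-COUNT (MP_9ee088_an, full ergodicity of the driven map): at most two values of the digit `s`
bring the point into a given short arc.

* `sin_ge`: `|sin (π d / K)| >= 2 / K` for integers `d` not divisible by `K` (`sin t >= 2 t / π` on
  `[0, π/2]`; reduce `d` mod `K`).
* `count_arc`: the integer `i` is the same for all `s` in the set, as `|i - i'| <= 2 ε + l < 1`. For three
  different elements `s1, s2, s3` (`Finset.two_lt_card`): for `s ≠ s'` in the set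
  `2 ε |sin (π (s - s') / K)| |cos (π (2 u + (s + s') / K))| <= l`, so `|cos (π β)| <= K l / (4 ε) =: η` for
  `β = 2 u + (s + s') / K`. For `β = 2 u + (s1 + s2) / K`, `β' = 2 u + (s1 + s3) / K`:
  `2 / K <= |sin (π (β - β'))| <= |cos (π β)| + |cos (π β')| <= 2 η = K l / (2 ε)`, against `K^2 l < 4 ε`.
* `count_bad`: if the set has an element `s0` with point `z`, then for every other element with point `z'`,
  `|φ z - φ z'| < 2`, so `|sin (π (z + z'))| |sin (π (z - z'))| < 1 / (2 π |a|)`, so one factor is smaller than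
  `b⁻⁵ / 2`; as `|sin (π t)| >= 2 dist (t, ℤ)`, `z'` is mod 1 in an arc of length `b⁻⁵` around `z` or `- z`.
  Two arcs, `count_arc`.
* `count_small`: `|φ z| < 2 b ^ 9` gives `|cos (2 π z)| <= (2 b ^ 9 + 2) / (2 π b ^ 10) <= 2 / (5 b)`, and
  `|cos (2 π z)| = |sin (2 π (z - 1/4))| >= 4 dist (z - 1/4, ℤ / 2)`, so `z` is mod 1 in an arc of length
  `1 / (5 b)` around `1/4` or `3/4`. -/

set_option autoImplicit false
open Real

namespace Pool.Agent.Helper18.SE

open Pool.Agent.Helper78.SM (psi phi dphi)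

private lemma sin_ge_nat26 {K : ℕ} (hK : 2 ≤ K) {r : ℝ} (h1 : 1 ≤ r) (h2 : r ≤ K - 1) :
    2 / (K:ℝ) ≤ Real.sin (π * (r / K)) := by
  have hK0 : (0:ℝ) < K := by
    have : 0 < K := by omega
    exact_mod_cast this
  have hpi := Real.pi_pos
  rcases le_total (r / K) (1 / 2) with h | h
  · have h3 := Real.mul_le_sin (x := π * (r / K)) (by positivity) (by nlinarith)
    have h4 : 2 / π * (π * (r / K)) = 2 * r / K := by
      field_simp
    rw [h4] at h3
    refine le_trans ?_ h3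
    rw [div_le_div_iff_of_pos_right hK0]
    linarith
  · have h5 : Real.sin (π * (r / K)) = Real.sin (π * (1 - r / K)) := by
      rw [show π * (1 - r / K) = π - π * (r / K) by ring, Real.sin_pi_sub]
    have h6 : r / K ≤ 1 - 1 / K := by
      rw [div_le_iff₀ hK0, sub_mul, one_div, inv_mul_cancel₀ hK0.ne']
      linarith
    have h7 : 0 < 1 / (K:ℝ) := by positivity
    have h3 := Real.mul_le_sin (x := π * (1 - r / K)) (by
      apply mul_nonneg hpi.le
      linarith) (by nlinarith)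
    have h4 : 2 / π * (π * (1 - r / K)) = 2 * (1 - r / K) := by
      field_simp
    rw [h4] at h3
    rw [h5]
    refine le_trans ?_ h3
    have h8 : 2 / (K:ℝ) = 2 * (1 / K) := by ring
    rw [h8]
    linarith

lemma sin_ge {K : ℕ} (hK : 2 ≤ K) {d : ℤ} (hd : ¬ (K : ℤ) ∣ d) :
    2 / (K:ℝ) ≤ |Real.sin (π * (d / K))| := by
  have hK0 : (0:ℝ) < K := by
    have : 0 < K := by omega
    exact_mod_cast this
  have hK0' : (0:ℤ) < K := by omega
  have e : (d:ℝ) = K * ((d / (K:ℤ) : ℤ) : ℝ) + ((d % (K:ℤ) : ℤ) : ℝ) := by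
    have := Int.mul_ediv_add_emod d K
    exact_mod_cast this.symm
  have hr0 : 0 ≤ d % (K:ℤ) := Int.emod_nonneg _ hK0'.ne'
  have hr1 : d % (K:ℤ) < K := Int.emod_lt_of_pos _ hK0'
  have hrne : d % (K:ℤ) ≠ 0 := fun h => hd (Int.dvd_of_emod_eq_zero h)
  have h1 : (1:ℝ) ≤ ((d % (K:ℤ) : ℤ) : ℝ) := by
    have : (1:ℤ) ≤ d % (K:ℤ) := by omega
    exact_mod_cast this
  have h2 : ((d % (K:ℤ) : ℤ) : ℝ) ≤ K - 1 := by
    have : d % (K:ℤ) ≤ K - 1 := by omega
    exact_mod_cast this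
  have h3 := sin_ge_nat26 hK h1 h2
  have h4 : π * (d / K) = π * (((d % (K:ℤ) : ℤ) : ℝ) / K) + ((d / (K:ℤ) : ℤ) : ℝ) * π := by
    rw [e]
    field_simp
    ring
  rw [h4, Real.sin_add_int_mul_pi, abs_mul, abs_zpow, abs_neg, abs_one, one_zpow, one_mul]
  exact h3.trans (le_abs_self _)

open Classical in
theorem count_arc {K : ℕ} (hK : 2 ≤ K) {ε l : ℝ} (hε : 0 < ε) (hε4 : ε ≤ 1 / 4) (hl : 0 ≤ l)
    (hl4 : l ≤ 1 / 4) (h : (K:ℝ) ^ 2 * l < 4 * ε) (u z0 t : ℝ) :
    ((Finset.range K).filter (fun s : ℕ => ∃ i : ℤ,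
      |z0 + ε * Real.sin (2 * π * (u + s / K)) - t - i| ≤ l / 2)).card ≤ 2 := by
  have hK0 : (0:ℝ) < K := by
    have : 0 < K := by omega
    exact_mod_cast this
  by_contra hcon
  rw [not_le, Finset.two_lt_card] at hcon
  obtain ⟨s1, hs1, s2, hs2, s3, hs3, h12, h13, h23⟩ := hcon
  rw [Finset.mem_filter, Finset.mem_range] at hs1 hs2 hs3
  have hdvd : ∀ s s' : ℕ, s < K → s' < K → s ≠ s' → ¬ (K:ℤ) ∣ ((s:ℤ) - s') := by
    intro s s' hs hs' hne hd
    have := Int.eq_zero_of_abs_lt_dvd hd (by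
      rw [abs_lt]
      constructor <;> omega)
    omega
  have hsin : ∀ s s' : ℕ, s < K → s' < K → s ≠ s' →
      2 / (K:ℝ) ≤ |Real.sin (π * (((s:ℝ) - s') / K))| := by
    intro s s' hs hs' hne
    have := sin_ge hK (hdvd s s' hs hs' hne)
    push_cast at this
    exact this
  have key : ∀ s s' : ℕ, s < K → s' < K → s ≠ s' →
      (∃ i : ℤ, |z0 + ε * Real.sin (2 * π * (u + s / K)) - t - i| ≤ l / 2) →
      (∃ i : ℤ, |z0 + ε * Real.sin (2 * π * (u + s' / K)) - t - i| ≤ l / 2) →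
      |Real.cos (π * (2 * u + (s + s') / K))| ≤ K * l / (4 * ε) := by
    rintro s s' hs hs' hne ⟨i, hi⟩ ⟨i', hi'⟩
    have hS := Real.abs_sin_le_one (2 * π * (u + s / K))
    have hS' := Real.abs_sin_le_one (2 * π * (u + s' / K))
    rw [abs_le] at hi hi' hS hS'
    have hii : i = i' := by
      have h1 : (i:ℝ) - i' < 1 := by nlinarith [hi.1, hi.2, hi'.1, hi'.2, hS.1, hS.2, hS'.1, hS'.2]
      have h2 : (i':ℝ) - i < 1 := by nlinarith [hi.1, hi.2, hi'.1, hi'.2, hS.1, hS.2, hS'.1, hS'.2]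
      have h3 : i - i' < 1 := by exact_mod_cast h1
      have h4 : i' - i < 1 := by exact_mod_cast h2
      omega
    subst hii
    have h5 : |ε * (Real.sin (2 * π * (u + s / K)) - Real.sin (2 * π * (u + s' / K)))| ≤ l := by
      rw [abs_le]
      constructor <;> linarith [hi.1, hi.2, hi'.1, hi'.2]
    have e1 : (2 * π * (u + s / K) - 2 * π * (u + s' / K)) / 2 = π * (((s:ℝ) - s') / K) := by ring
    have e2 : (2 * π * (u + s / K) + 2 * π * (u + s' / K)) / 2 = π * (2 * u + (s + s') / K) := by ring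
    rw [Real.sin_sub_sin, e1, e2, abs_mul, abs_of_pos hε, abs_mul, abs_mul, abs_two] at h5
    have h6 := hsin s s' hs hs' hne
    have hc := abs_nonneg (Real.cos (π * (2 * u + (s + s') / K)))
    have h7 : ε * (2 * (2 / K) * |Real.cos (π * (2 * u + (s + s') / K))|) ≤ l := by
      refine le_trans ?_ h5
      gcongr
    rw [le_div_iff₀ (by positivity)]
    have h8 : ε * (2 * (2 / K) * |Real.cos (π * (2 * u + (s + s') / K))|) * K =
        |Real.cos (π * (2 * u + (s + s') / K))| * (4 * ε) := by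
      field_simp
      ring
    rw [← h8, mul_comm (K:ℝ) l]
    exact mul_le_mul_of_nonneg_right h7 hK0.le
  have c12 := key s1 s2 hs1.1 hs2.1 h12 hs1.2 hs2.2
  have c13 := key s1 s3 hs1.1 hs3.1 h13 hs1.2 hs3.2
  have s23 := hsin s2 s3 hs2.1 hs3.1 h23
  have e3 : π * (((s2:ℝ) - s3) / K) =
      π * (2 * u + (s1 + s2) / K) - π * (2 * u + (s1 + s3) / K) := by ring
  rw [e3, Real.sin_sub] at s23
  have h9 : |Real.sin (π * (2 * u + (s1 + s2) / K)) * Real.cos (π * (2 * u + (s1 + s3) / K)) -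
      Real.cos (π * (2 * u + (s1 + s2) / K)) * Real.sin (π * (2 * u + (s1 + s3) / K))| ≤
      |Real.cos (π * (2 * u + (s1 + s3) / K))| + |Real.cos (π * (2 * u + (s1 + s2) / K))| := by
    refine (abs_sub _ _).trans ?_
    rw [abs_mul, abs_mul]
    apply add_le_add
    · exact mul_le_of_le_one_left (abs_nonneg _) (Real.abs_sin_le_one _)
    · exact mul_le_of_le_one_right (abs_nonneg _) (Real.abs_sin_le_one _)
  have h10 : 2 / (K:ℝ) ≤ 2 * (K * l / (4 * ε)) := by linarith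
  have h11 : 2 * (K * l / (4 * ε)) = K * l / (2 * ε) := by
    field_simp
    ring
  rw [h11, div_le_div_iff₀ hK0 (by positivity)] at h10
  nlinarith

private lemma h36_near_int (t : ℝ) : ∃ i : ℤ, 2 * |t - i| ≤ |Real.sin (π * t)| := by
  refine ⟨round t, ?_⟩
  have h1 : |t - round t| ≤ 1 / 2 := abs_sub_round t
  have h2 : |Real.sin (π * t)| = |Real.sin (π * (t - round t))| := by
    have e : π * t = π * (t - round t) + ((round t : ℤ) : ℝ) * π := by ring
    rw [e, Real.sin_add_int_mul_pi, abs_mul, abs_zpow, abs_neg, abs_one, one_zpow, one_mul]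
  rw [h2]
  set y := t - round t with hy
  have hpi := Real.pi_pos
  have h3 : |Real.sin (π * y)| = |Real.sin (π * |y|)| := by
    rcases abs_cases y with ⟨h, _⟩ | ⟨h, _⟩
    · rw [h]
    · rw [h, mul_neg, Real.sin_neg, abs_neg]
  rw [h3]
  have h4 := Real.mul_le_sin (x := π * |y|) (by positivity) (by nlinarith)
  have h5 : 2 / π * (π * |y|) = 2 * |y| := by field_simp
  rw [h5] at h4
  exact h4.trans (le_abs_self _)

private lemma h36_two_arcs {K : ℕ} (hK : 2 ≤ K) {ε l : ℝ} (hε : 0 < ε) (hε4 : ε ≤ 1 / 4)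
    (hl : 0 ≤ l) (hl4 : l ≤ 1 / 4) (h : (K:ℝ) ^ 2 * l < 4 * ε) (u z0 t t' : ℝ)
    (S : Finset ℕ) (hS : ∀ s ∈ S, s < K ∧
      ((∃ i : ℤ, |z0 + ε * Real.sin (2 * π * (u + s / K)) - t - i| ≤ l / 2) ∨
       (∃ i : ℤ, |z0 + ε * Real.sin (2 * π * (u + s / K)) - t' - i| ≤ l / 2))) :
    S.card ≤ 4 := by
  classical
  have h1 := count_arc hK hε hε4 hl hl4 h u z0 t
  have h2 := count_arc hK hε hε4 hl hl4 h u z0 t'
  have hsub : S ⊆ ((Finset.range K).filter (fun s : ℕ => ∃ i : ℤ,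
      |z0 + ε * Real.sin (2 * π * (u + s / K)) - t - i| ≤ l / 2)) ∪
      ((Finset.range K).filter (fun s : ℕ => ∃ i : ℤ,
      |z0 + ε * Real.sin (2 * π * (u + s / K)) - t' - i| ≤ l / 2)) := by
    intro s hs
    obtain ⟨hsK, hor⟩ := hS s hs
    rw [Finset.mem_union, Finset.mem_filter, Finset.mem_filter, Finset.mem_range]
    rcases hor with h | h
    · exact Or.inl ⟨hsK, h⟩
    · exact Or.inr ⟨hsK, h⟩
  calc S.card ≤ _ := Finset.card_le_card hsub
    _ ≤ _ := Finset.card_union_le _ _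
    _ ≤ 2 + 2 := Nat.add_le_add h1 h2

open Classical in
theorem count_bad {a b : ℝ} (hb : 1000 ≤ b) (hab : |a| = b ^ 10) {K : ℕ} (hK : 2 ≤ K) {ε : ℝ}
    (hε : 0 < ε) (hε4 : ε ≤ 1 / 4) (h : (K:ℝ) ^ 2 ≤ ε * b) (u z0 r : ℝ) :
    ((Finset.range K).filter (fun s : ℕ =>
      |phi a (z0 + ε * Real.sin (2 * π * (u + s / K))) - r| < 1)).card ≤ 4 := by
  have hb0 : 0 < b := by linarith
  have hpi := Real.pi_gt_three
  set S := (Finset.range K).filter (fun s : ℕ =>
      |phi a (z0 + ε * Real.sin (2 * π * (u + s / K))) - r| < 1) with hSdef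
  rcases S.eq_empty_or_nonempty with hS0 | ⟨s0, hs0⟩
  · rw [hS0]; simp
  rw [hSdef, Finset.mem_filter] at hs0
  set z := z0 + ε * Real.sin (2 * π * (u + s0 / K)) with hz
  have hb5 : 0 < b ^ 5 := by positivity
  have hb51 : (1000:ℝ) ≤ b ^ 5 := by
    calc (1000:ℝ) ≤ b := hb
      _ = b ^ 1 := (pow_one b).symm
      _ ≤ b ^ 5 := pow_le_pow_right₀ (by linarith) (by norm_num)
  have hl4 : 1 / b ^ 5 ≤ 1 / 4 := by
    apply one_div_le_one_div_of_le (by norm_num); linarith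
  have hKl : (K:ℝ) ^ 2 * (1 / b ^ 5) < 4 * ε := by
    have h1 : (K:ℝ) ^ 2 * (1 / b ^ 5) ≤ ε * b * (1 / b ^ 5) := by gcongr
    have h2 : ε * b * (1 / b ^ 5) ≤ ε := by
      rw [mul_assoc, mul_one_div]
      have : b / b ^ 5 ≤ 1 := by
        rw [div_le_one hb5]
        calc b = b ^ 1 := (pow_one b).symm
          _ ≤ b ^ 5 := pow_le_pow_right₀ (by linarith) (by norm_num)
      nlinarith
    linarith
  refine h36_two_arcs hK hε hε4 (l := 1 / b ^ 5) (by positivity) hl4 hKl u z0 z (-z) S ?_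
  intro s hs
  rw [hSdef, Finset.mem_filter, Finset.mem_range] at hs
  refine ⟨hs.1, ?_⟩
  set z' := z0 + ε * Real.sin (2 * π * (u + s / K)) with hz'
  have hd : |phi a z - phi a z'| < 2 := by
    have h1 := abs_lt.mp hs0.2
    have h2 := abs_lt.mp hs.2
    rw [abs_lt]
    constructor <;> linarith [h1.1, h1.2, h2.1, h2.2]
  have he : phi a z - phi a z' =
      -(4 * π * a * (Real.sin (π * (z' + z)) * Real.sin (π * (z' - z)))) * (-1) := by
    unfold phi
    have := Real.cos_sub_cos (2 * π * z) (2 * π * z')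
    have e1 : (2 * π * z + 2 * π * z') / 2 = π * (z' + z) := by ring
    have e2 : (2 * π * z - 2 * π * z') / 2 = -(π * (z' - z)) := by ring
    rw [e1, e2, Real.sin_neg] at this
    have e3 : 2 + 2 * π * a * Real.cos (2 * π * z) - (2 + 2 * π * a * Real.cos (2 * π * z')) =
      2 * π * a * (Real.cos (2 * π * z) - Real.cos (2 * π * z')) := by ring
    rw [e3, this]
    ring
  have hprod : |Real.sin (π * (z' + z))| * |Real.sin (π * (z' - z))| * (2 * π * b ^ 10) < 1 := by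
    rw [he] at hd
    rw [mul_neg_one, neg_neg, abs_mul, abs_mul, abs_mul, hab, abs_mul, abs_of_pos Real.pi_pos] at hd
    have : |(4:ℝ)| = 4 := by norm_num
    rw [this] at hd
    nlinarith [hd]
  set A := |Real.sin (π * (z' + z))| with hA
  set B := |Real.sin (π * (z' - z))| with hB
  have hA0 : 0 ≤ A := abs_nonneg _
  have hB0 : 0 ≤ B := abs_nonneg _
  have hor : A < 1 / (2 * b ^ 5) ∨ B < 1 / (2 * b ^ 5) := by
    by_contra hcon
    push Not at hcon
    have h1 : 1 / (2 * b ^ 5) * (1 / (2 * b ^ 5)) ≤ A * B :=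
      mul_le_mul hcon.1 hcon.2 (by positivity) hA0
    have h2 : 1 / (2 * b ^ 5) * (1 / (2 * b ^ 5)) * (2 * π * b ^ 10) = π / 2 := by
      field_simp
    have h3 : 1 / (2 * b ^ 5) * (1 / (2 * b ^ 5)) * (2 * π * b ^ 10) ≤ A * B * (2 * π * b ^ 10) := by
      gcongr
    rw [h2] at h3
    linarith
  have hhalf : 1 / b ^ 5 / 2 = 1 / (2 * b ^ 5) := by
    rw [div_div, mul_comm]
  rcases hor with h1 | h1
  · right
    obtain ⟨i, hi⟩ := h36_near_int (z' + z)
    refine ⟨i, ?_⟩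
    rw [sub_neg_eq_add, hhalf]
    have := abs_nonneg (z' + z - i)
    linarith
  · left
    obtain ⟨i, hi⟩ := h36_near_int (z' - z)
    refine ⟨i, ?_⟩
    rw [hhalf]
    have := abs_nonneg (z' - z - i)
    linarith

open Classical in
theorem count_small {a b : ℝ} (hb : 1000 ≤ b) (hab : |a| = b ^ 10) {K : ℕ} (hK : 2 ≤ K) {ε : ℝ}
    (hε : 0 < ε) (hε4 : ε ≤ 1 / 4) (h : (K:ℝ) ^ 2 ≤ ε * b) (u z0 : ℝ) :
    ((Finset.range K).filter (fun s : ℕ =>
      |phi a (z0 + ε * Real.sin (2 * π * (u + s / K)))| < 2 * b ^ 9)).card ≤ 4 := by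
  have hb0 : 0 < b := by linarith
  have hpi := Real.pi_gt_three
  have hpi2 := Real.pi_lt_four
  have hl4 : 1 / (5 * b) ≤ 1 / 4 := by
    apply one_div_le_one_div_of_le (by norm_num); linarith
  have hKl : (K:ℝ) ^ 2 * (1 / (5 * b)) < 4 * ε := by
    have h1 : (K:ℝ) ^ 2 * (1 / (5 * b)) ≤ ε * b * (1 / (5 * b)) := by gcongr
    have h2 : ε * b * (1 / (5 * b)) = ε / 5 := by field_simp
    rw [h2] at h1
    linarith
  refine h36_two_arcs hK hε hε4 (l := 1 / (5 * b)) (by positivity) hl4 hKl u z0 (1 / 4) (3 / 4) _ ?_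
  intro s hs
  rw [Finset.mem_filter, Finset.mem_range] at hs
  refine ⟨hs.1, ?_⟩
  set z := z0 + ε * Real.sin (2 * π * (u + s / K)) with hz
  have hs2 := hs.2
  have hcos : |Real.cos (2 * π * z)| ≤ 2 / (5 * b) := by
    have h1 : |2 * π * a * Real.cos (2 * π * z)| ≤ 2 * b ^ 9 + 2 := by
      have h2 : 2 * π * a * Real.cos (2 * π * z) = phi a z - 2 := by unfold phi; ring
      rw [h2]
      refine (abs_sub _ _).trans ?_
      have : |(2:ℝ)| = 2 := by norm_num
      rw [this]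
      linarith
    rw [abs_mul, abs_mul, abs_mul, hab, abs_of_pos Real.pi_pos] at h1
    have h2 : |(2:ℝ)| = 2 := by norm_num
    rw [h2] at h1
    have hb9 : (1000:ℝ) ≤ b ^ 9 := by
      calc (1000:ℝ) ≤ b := hb
        _ = b ^ 1 := (pow_one b).symm
        _ ≤ b ^ 9 := pow_le_pow_right₀ (by linarith) (by norm_num)
    rw [le_div_iff₀ (by positivity)]
    set c := |Real.cos (2 * π * z)| with hc
    have hc0 : 0 ≤ c := abs_nonneg _
    -- `2 π b^10 c ≤ 2 b^9 + 2 ≤ 2.002 b^9`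
    have h3 : 2 * π * b ^ 10 * c ≤ (2.002) * b ^ 9 := by linarith
    have h4 : b ^ 10 = b ^ 9 * b := by ring
    rw [h4] at h3
    have h5 : 2 * π * (b * c) ≤ 2.002 := by
      have hb90 : 0 < b ^ 9 := by positivity
      by_contra hcon
      push Not at hcon
      have := mul_lt_mul_of_pos_left hcon hb90
      nlinarith
    have h6 := Real.pi_gt_d2
    have h7 : 0 ≤ b * c := by positivity
    nlinarith
  have hsin : |Real.sin (π * (2 * z - 1 / 2))| ≤ 2 / (5 * b) := by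
    have e : π * (2 * z - 1 / 2) = 2 * π * z - π / 2 := by ring
    rw [e, Real.sin_sub_pi_div_two, abs_neg]
    exact hcos
  obtain ⟨j, hj⟩ := h36_near_int (2 * z - 1 / 2)
  have hj2 : |2 * z - 1 / 2 - j| ≤ 1 / (5 * b) := by
    have : 2 / (5 * b) = 2 * (1 / (5 * b)) := by ring
    rw [this] at hsin
    linarith
  rcases Int.even_or_odd' j with ⟨i, hi | hi⟩
  · left
    refine ⟨i, ?_⟩
    have e : 2 * z - 1 / 2 - (j:ℝ) = 2 * (z - 1 / 4 - i) := by
      rw [hi]; push_cast; ring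
    rw [e, abs_mul, abs_two] at hj2
    linarith
  · right
    refine ⟨i, ?_⟩
    have e : 2 * z - 1 / 2 - (j:ℝ) = 2 * (z - 3 / 4 - i) := by
      rw [hi]; push_cast; ring
    rw [e, abs_mul, abs_two] at hj2
    linarith

end Pool.Agent.Helper18.SE
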