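import Mathlib
import Pool.Agent.Helper18.SG.Mix

/-! Block SE-PROD: the line inequality `SG.g_ineq` integrated over the line, in product form.

Proof. As the first part of `SG.mix_pos` (Fubini; `Ico` against `Ioc` differ by null sets; the regions
`{p | HypS b (W a c p.2 p.1) n}` are measurable, `SG.measurableSet_hyp` and the swap). With
`α y = ∫_x g1 (x, y)` over the good `x`: `∫ max 0 (α y - l) dy >= max 0 (∫ α - l)`. -/

set_option autoImplicit false
open Real Set MeasureTheory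

namespace Pool.Agent.Helper18.SE

open Pool.Agent.Helper78.SM (sq)
open Pool.Agent.Helper18.SG (Z v W rev pbad HypS st)

private noncomputable def T60 (a c : ℝ) (p : ℝ × ℝ) : ℝ × ℝ :=
  (Pool.Agent.Helper78.SM.psi a p.1 - p.2 + c, p.1)

private lemma st_succ60 (a : ℝ) (c : ℕ → ℝ) (N : ℕ) (p : ℝ × ℝ) :
    st a c (N+1) p = T60 a (c N) (st a c N p) := by
  unfold st T60
  rw [Pool.Agent.Helper18.SG.Z_rec]

private lemma cont_st60 (a : ℝ) (c : ℕ → ℝ) (N : ℕ) : Continuous (st a c N) := by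
  induction N with
  | zero =>
    have e : st a c 0 = id := funext (fun p => by
      unfold st
      rw [Pool.Agent.Helper18.SG.Z_zero, Pool.Agent.Helper18.SG.Z_one]
      rfl)
    rw [e]
    exact continuous_id
  | succ N ih =>
    have e : st a c (N+1) = T60 a (c N) ∘ st a c N := funext (st_succ60 a c N)
    have hT : Continuous (T60 a (c N)) := by
      unfold T60 Pool.Agent.Helper78.SM.psi
      fun_prop
    rw [e]
    exact hT.comp ih

private lemma cont_lip60 {L : ℝ} (hL : 0 ≤ L) {f : ℝ × ℝ → ℝ}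
    (h : ∀ p p', |f p - f p'| ≤ L * dist p p') : Continuous f := by
  have h1 : LipschitzWith ⟨L, hL⟩ f :=
    LipschitzWith.of_dist_le_mul (fun p p' => by rw [Real.dist_eq]; exact h p p')
  exact h1.continuous

private lemma vres60 : (volume : Measure (ℝ × ℝ)).restrict sq =
    ((volume : Measure ℝ).restrict (Ioc 0 1)).prod ((volume : Measure ℝ).restrict (Ioc 0 1)) := by
  rw [Measure.prod_restrict, ← Measure.volume_eq_prod]
  rfl

private lemma int60 {F : ℝ × ℝ → ℝ} (hF : Measurable F) {C : ℝ} (hC : ∀ p, |F p| ≤ C) :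
    Integrable F ((volume : Measure (ℝ × ℝ)).restrict sq) := by
  haveI := Pool.Agent.Helper78.SM.prob_sq
  refine Integrable.of_bound hF.aestronglyMeasurable C (ae_of_all _ (fun p => ?_))
  rw [Real.norm_eq_abs]
  exact hC p

private lemma fub60 {F : ℝ × ℝ → ℝ}
    (hF : Integrable F ((volume : Measure (ℝ × ℝ)).restrict sq)) :
    ∫ p in sq, F p = ∫ y in Ioc (0:ℝ) 1, ∫ x in Ioc (0:ℝ) 1, F (x, y) := by
  rw [vres60] at hF ⊢
  exact integral_prod_symm F hF

theorem prod_ineq {a b : ℝ} (hb : 10000 ≤ b) (hab : |a| = b ^ 10) (c : ℕ → ℝ) {n m : ℕ}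
    (hn : 1 ≤ n) (hm : 1 ≤ m) {L : ℝ} (hL : 0 ≤ L) {g1 g2 : ℝ × ℝ → ℝ}
    (h10 : ∀ p, 0 ≤ g1 p) (h11 : ∀ p, g1 p ≤ 1) (h1L : ∀ p p', |g1 p - g1 p'| ≤ L * dist p p')
    (h20 : ∀ p, 0 ≤ g2 p) (h21 : ∀ p, g2 p ≤ 1) (h2L : ∀ p p', |g2 p - g2 p'| ≤ L * dist p p')
    (h2p : ∀ (p : ℝ × ℝ) (i j : ℤ), g2 (p.1 + i, p.2 + j) = g2 p) :
    (1 - 1 / b) * (max 0 ((∫ p in sq ∩ {p : ℝ × ℝ | HypS b (W a c p.2 p.1) n}, g1 p) -
        L * (b ^ 2 / b ^ (7 * n))) *
      max 0 ((∫ p in sq ∩ {p : ℝ × ℝ | HypS b (W a (rev c (n+m)) p.1 p.2) m}, g2 p) -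
        L * (b ^ 2 / b ^ (7 * m)))) ≤
      ∫ p in sq, g1 p * g2 (st a c (n+m) p) := by
  haveI := Pool.Agent.Helper78.SM.prob_sq
  haveI hprob : IsProbabilityMeasure ((volume : Measure ℝ).restrict (Ioc (0:ℝ) 1)) :=
    ⟨by rw [Measure.restrict_apply MeasurableSet.univ, univ_inter, Real.volume_Ioc]; simp⟩
  have hc1 := cont_lip60 hL h1L
  have hc2 := cont_lip60 hL h2L
  have hg1b : ∀ p, |g1 p| ≤ 1 := fun p => by rw [abs_of_nonneg (h10 p)]; exact h11 p
  have hg2b : ∀ p, |g2 p| ≤ 1 := fun p => by rw [abs_of_nonneg (h20 p)]; exact h21 p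
  set ℓ1 : ℝ := L * (b ^ 2 / b ^ (7 * n)) with hℓ1
  set ℓ2 : ℝ := L * (b ^ 2 / b ^ (7 * m)) with hℓ2
  set H1 : Set (ℝ × ℝ) := {p : ℝ × ℝ | HypS b (W a c p.2 p.1) n} with hH1
  have hH1m : MeasurableSet H1 := measurable_swap (Pool.Agent.Helper18.SG.measurableSet_hyp a b c n)
  set H2 : Set (ℝ × ℝ) := {p : ℝ × ℝ | HypS b (W a (rev c (n+m)) p.1 p.2) m} with hH2
  set B : ℝ := ∫ p in sq ∩ H2, g2 p with hB
  have hBe : ∫ p in (Ico (0:ℝ) 1 ×ˢ Ico (0:ℝ) 1) ∩ H2, g2 p = B := by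
    rw [hB]
    apply setIntegral_congr_set
    have e1 : (Ico (0:ℝ) 1 ×ˢ Ico (0:ℝ) 1 : Set (ℝ × ℝ)) =ᵐ[volume] sq := by
      rw [Measure.volume_eq_prod]
      exact Measure.set_prod_ae_eq Ico_ae_eq_Ioc Ico_ae_eq_Ioc
    exact e1.inter (ae_eq_refl _)
  set A : ℝ → ℝ := fun y => ∫ x in Ioc (0:ℝ) 1, H1.indicator g1 (x, y) with hA
  have hi1 : Integrable (H1.indicator g1) ((volume : Measure (ℝ × ℝ)).restrict sq) :=
    (int60 hc1.measurable hg1b).indicator hH1m
  have hAi : Integrable A ((volume : Measure ℝ).restrict (Ioc 0 1)) := by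
    have h := hi1
    rw [vres60] at h
    exact h.integral_prod_right
  have hIA : ∫ y in Ioc (0:ℝ) 1, A y = ∫ p in sq ∩ H1, g1 p := by
    rw [← setIntegral_indicator hH1m]
    exact (fub60 hi1).symm
  have hcF : Continuous (fun p : ℝ × ℝ => g1 p * g2 (st a c (n+m) p)) :=
    hc1.mul (hc2.comp (cont_st60 a c (n+m)))
  have hiF : Integrable (fun p : ℝ × ℝ => g1 p * g2 (st a c (n+m) p))
      ((volume : Measure (ℝ × ℝ)).restrict sq) := by
    apply int60 hcF.measurable (C := 1)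
    intro p
    rw [abs_mul]
    exact mul_le_one₀ (hg1b p) (abs_nonneg _) (hg2b _)
  have hRi : Integrable (fun y : ℝ => ∫ x in Ioc (0:ℝ) 1, g1 (x, y) * g2 (st a c (n+m) (x, y)))
      ((volume : Measure ℝ).restrict (Ioc 0 1)) := by
    have h := hiF
    rw [vres60] at h
    exact h.integral_prod_right
  have hline : ∀ y : ℝ, (1 - 1 / b) * (max 0 (A y - ℓ1) * max 0 (B - ℓ2)) ≤
      ∫ x in Ioc (0:ℝ) 1, g1 (x, y) * g2 (st a c (n+m) (x, y)) := by
    intro y
    have h := Pool.Agent.Helper18.SG.g_ineq hb hab c y hn hm hL (g1 := fun x => g1 (x, y)) (g2 := g2)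
      (fun x => h10 _) (fun x => h11 _) (fun x x' => by
        refine (h1L (x, y) (x', y)).trans (le_of_eq ?_)
        rw [Prod.dist_eq, dist_self, Real.dist_eq, max_eq_left (abs_nonneg _)])
      h20 h21 h2L h2p
    have e1 : ∫ x in Ico (0:ℝ) 1 ∩ {x | HypS b (W a c y x) n}, g1 (x, y) = A y := by
      have hm1 : MeasurableSet {x : ℝ | HypS b (W a c y x) n} :=
        (measurable_prodMk_right (y := y)) hH1m
      have e2 : ∀ x : ℝ, H1.indicator g1 (x, y) =
          ({x : ℝ | HypS b (W a c y x) n}).indicator (fun x => g1 (x, y)) x := fun x => rfl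
      simp only [hA, e2]
      rw [setIntegral_indicator hm1]
      apply setIntegral_congr_set
      exact (Ico_ae_eq_Ioc).inter (ae_eq_refl _)
    have e3 : ∫ x in Ico (0:ℝ) 1, g1 (x, y) * g2 (Z a c y x (n+m+1), Z a c y x (n+m)) =
        ∫ x in Ioc (0:ℝ) 1, g1 (x, y) * g2 (st a c (n+m) (x, y)) :=
      setIntegral_congr_set Ico_ae_eq_Ioc
    rw [e1, e3] at h
    rw [← hBe]
    exact h
  have hmaxi : Integrable (fun y => max 0 (A y - ℓ1)) ((volume : Measure ℝ).restrict (Ioc 0 1)) := by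
    have h := (hAi.sub (integrable_const ℓ1)).pos_part
    refine h.congr (ae_of_all _ (fun y => ?_))
    exact max_comm _ _
  have hmax1 : max 0 ((∫ p in sq ∩ H1, g1 p) - ℓ1) ≤
      ∫ y in Ioc (0:ℝ) 1, max 0 (A y - ℓ1) := by
    apply max_le
    · exact integral_nonneg (fun y => le_max_left _ _)
    · have h := integral_mono (hAi.sub (integrable_const ℓ1)) hmaxi (fun y => le_max_right 0 (A y - ℓ1))
      rw [integral_sub' hAi (integrable_const ℓ1), hIA] at h
      simpa using h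
  have hint := integral_mono ((hmaxi.mul_const (max 0 (B - ℓ2))).const_mul (1 - 1 / b)) hRi hline
  rw [← fub60 hiF] at hint
  have hint' : (1 - 1 / b) * ((∫ y in Ioc (0:ℝ) 1, max 0 (A y - ℓ1)) * max 0 (B - ℓ2)) ≤
      ∫ p in sq, g1 p * g2 (st a c (n+m) p) := by
    refine le_trans (le_of_eq ?_) hint
    rw [integral_const_mul, integral_mul_const]
  refine le_trans ?_ hint'
  have hb0 : 0 ≤ 1 - 1 / b := by
    have : 1 / b ≤ 1 := by rw [div_le_one (by linarith)]; linarith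
    linarith
  exact mul_le_mul_of_nonneg_left (mul_le_mul_of_nonneg_right hmax1 (le_max_left _ _)) hb0

end Pool.Agent.Helper18.SE
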