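import Mathlib
import Pool.Agent.Helper18.SE.Count
import Pool.Agent.Helper18.SD.T3

/-! Block SE-RESAMP: conditional probabilities, given the point at the end, by averaging over digits.

`mu` is the product of the circle and the square. For a measurable `A ⊆ T3` and `M` let
`A' = {(θ, p) | (K ^ M • θ, mk2 p) ∈ A}`; `mu A' = volume A` (`mp_pow`, `mp_mk2`).
* `resamp`: for `s < K` the translation `τ_s : (θ, p) ↦ (θ + s / K ^ (M - j), p)` preserves `mu` and `A'`
  (`K ^ M * s / K ^ (M-j)` is an integer). So `K mu (A' ∩ Q) = ∑_s mu (τ_s⁻¹ (A' ∩ Q))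
  = ∫ 1_{A'} #{s | (θ + s / K^(M-j), p) ∈ Q} <= 4 mu A'`.
* `prob_bad`: `k = j + 2`, `Q` = bad at time `j + 2` for the noise `rev (nz ε K θ) M`. Under `τ_s` the noise
  terms `i < j` do not change (`M - 1 - i >= M - j`), and the term `j` is `ε sin (2 π (u + s / K))`, `u` a real
  representative of `K ^ (M-1-j) • θ`. So (`Z_congr`, `v_congr`) `Z (j+1)`, `Z j`, `v (j+2)`, `v (j+1)` are fixed
  and `Z (j+2) = z0 + ε sin (2 π (u + s / K))`, `z0 = psi a (Z (j+1)) - Z j`. If `v (j+2) = 0` bad at `j+2` is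
  impossible; otherwise `|v (j+3)| < |v (j+2)|` means `|phi a (Z (j+2)) - v (j+1) / v (j+2)| < 1`; `count_bad`.
* `prob_small`: the same with `count_small`, `k = j + 1`.
(Measurability of the sets: `measurableSet_Bad`, `continuous_Zc` with `measurable_nz`.) -/

set_option autoImplicit false
open Real Set MeasureTheory
open scoped ENNReal

namespace Pool.Agent.Helper18.SE

open Pool.Agent.Helper53.SM (T2)
open Pool.Agent.Helper78.SM (psi phi dphi sq csn snn mk2)
open Pool.Agent.Helper18.SG (Z v W rev pbad HypS st)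
open Pool.Agent.Helper18.SD (T3 dr nz Bad)

attribute [local instance] Pool.Agent.Helper53.SM.instProbU Pool.Agent.Helper53.SM.instProbT2

/-- circle times square -/
noncomputable def mu : Measure (UnitAddCircle × (ℝ × ℝ)) :=
  (volume : Measure UnitAddCircle).prod ((volume : Measure (ℝ × ℝ)).restrict sq)

theorem prob_mu : IsProbabilityMeasure mu := by
  have h1 : IsProbabilityMeasure ((volume : Measure (ℝ × ℝ)).restrict sq) := by
    constructor
    have h := Pool.Agent.Helper78.SM.mp_mk2.measure_preimage MeasurableSet.univ.nullMeasurableSet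
    exact h.trans (measure_univ (μ := (volume : Measure T2)))
  unfold mu
  infer_instance

/-- the set of `(θ, p)` whose end point `(K ^ M θ, p)` is in `A` -/
def endA (K M : ℕ) (A : Set T3) : Set (UnitAddCircle × (ℝ × ℝ)) :=
  {q | ((K ^ M) • q.1, mk2 q.2) ∈ A}

theorem measurableSet_endA {K M : ℕ} {A : Set T3} (hA : MeasurableSet A) :
    MeasurableSet (endA K M A) := by
  have h1 : Measurable fun q : UnitAddCircle × (ℝ × ℝ) => ((K ^ M) • q.1, mk2 q.2) :=
    ((continuous_nsmul (M := UnitAddCircle) (K ^ M)).measurable.comp measurable_fst).prodMk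
      (Pool.Agent.Helper78.SM.mp_mk2.measurable.comp measurable_snd)
  exact h1 hA

theorem mu_endA {K : ℕ} (hK : 2 ≤ K) (M : ℕ) {A : Set T3} (hA : MeasurableSet A) :
    mu (endA K M A) = volume A := by
  haveI := prob_mu
  have h1 : MeasurePreserving
      (fun q : UnitAddCircle × (ℝ × ℝ) => (((K ^ M) • q.1, mk2 q.2) : T3)) mu
      (volume : Measure T3) :=
    (Pool.Agent.Helper18.SD.mp_pow hK M).prod Pool.Agent.Helper78.SM.mp_mk2
  exact h1.measure_preimage hA.nullMeasurableSet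

open Classical in
theorem resamp {K : ℕ} (hK : 2 ≤ K) {M j : ℕ} (hj : j < M) {A : Set T3} (hA : MeasurableSet A)
    {Q : Set (UnitAddCircle × (ℝ × ℝ))} (hQ : MeasurableSet Q)
    (h : ∀ θ p, ((Finset.range K).filter (fun s : ℕ =>
      (θ + (((s:ℝ) / (K:ℝ) ^ (M - j) : ℝ) : UnitAddCircle), p) ∈ Q)).card ≤ 4) :
    (mu (endA K M A ∩ Q)).toReal ≤ 4 / K * (volume A).toReal := by
  haveI := prob_mu
  have hK0 : (0 : ℝ) < K := by
    have : (2 : ℝ) ≤ K := by exact_mod_cast hK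
    linarith
  have hEm : MeasurableSet (endA K M A) := measurableSet_endA hA
  set τ : ℕ → UnitAddCircle × (ℝ × ℝ) → UnitAddCircle × (ℝ × ℝ) := fun s q =>
    (q.1 + (((s:ℝ) / (K:ℝ) ^ (M - j) : ℝ) : UnitAddCircle), q.2) with hτdef
  have hτ : ∀ s, MeasurePreserving (τ s) mu mu := by
    intro s
    exact (measurePreserving_add_right (volume : Measure UnitAddCircle)
      (((s:ℝ) / (K:ℝ) ^ (M - j) : ℝ) : UnitAddCircle)).prod
      (MeasurePreserving.id ((volume : Measure (ℝ × ℝ)).restrict sq))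
  have hint : ∀ s : ℕ, (K ^ M) • (((s:ℝ) / (K:ℝ) ^ (M - j) : ℝ) : UnitAddCircle) = 0 := by
    intro s
    rw [← AddCircle.coe_nsmul]
    have h3 : ((K ^ M) • ((s:ℝ) / (K:ℝ) ^ (M - j)) : ℝ) = ((K ^ j * s : ℕ) • (1 : ℝ)) := by
      rw [nsmul_eq_mul, nsmul_eq_mul]
      push_cast
      have h4 : (K:ℝ) ^ M = (K:ℝ) ^ (M - j) * (K:ℝ) ^ j := by
        rw [← pow_add]; congr 1; omega
      rw [h4]
      field_simp
    rw [h3, AddCircle.coe_nsmul, AddCircle.coe_period, smul_zero]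
  have hEτ : ∀ s, (τ s) ⁻¹' (endA K M A) = endA K M A := by
    intro s
    ext q
    simp only [Set.mem_preimage, hτdef, endA, Set.mem_ofPred_eq, smul_add, hint, add_zero]
  have h1 : ∀ s, mu (endA K M A ∩ (τ s) ⁻¹' Q) = mu (endA K M A ∩ Q) := by
    intro s
    rw [← (hτ s).measure_preimage (hEm.inter hQ).nullMeasurableSet, Set.preimage_inter, hEτ]
  have hm : ∀ s, MeasurableSet (endA K M A ∩ (τ s) ⁻¹' Q) := fun s =>
    hEm.inter ((hτ s).measurable hQ)
  have h2 : (K : ℝ≥0∞) * mu (endA K M A ∩ Q) =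
      ∑ s ∈ Finset.range K, mu (endA K M A ∩ (τ s) ⁻¹' Q) := by
    rw [Finset.sum_congr rfl (fun s _ => h1 s), Finset.sum_const, Finset.card_range, nsmul_eq_mul]
  have h3 : ∑ s ∈ Finset.range K, mu (endA K M A ∩ (τ s) ⁻¹' Q) ≤ 4 * mu (endA K M A) := by
    calc ∑ s ∈ Finset.range K, mu (endA K M A ∩ (τ s) ⁻¹' Q)
        = ∑ s ∈ Finset.range K,
            ∫⁻ q, (endA K M A ∩ (τ s) ⁻¹' Q).indicator (1 : UnitAddCircle × (ℝ × ℝ) → ℝ≥0∞) q ∂mu := by
          apply Finset.sum_congr rfl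
          intro s _
          rw [lintegral_indicator_one (hm s)]
      _ = ∫⁻ q, ∑ s ∈ Finset.range K,
            (endA K M A ∩ (τ s) ⁻¹' Q).indicator (1 : UnitAddCircle × (ℝ × ℝ) → ℝ≥0∞) q ∂mu := by
          rw [lintegral_finsetSum]
          intro s _
          exact measurable_one.indicator (hm s)
      _ ≤ ∫⁻ q, 4 * (endA K M A).indicator (1 : UnitAddCircle × (ℝ × ℝ) → ℝ≥0∞) q ∂mu := by
          apply lintegral_mono
          intro q
          beta_reduce
          by_cases hq : q ∈ endA K M A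
          · rw [Set.indicator_of_mem hq, Pi.one_apply, mul_one]
            have e1 : ∀ s ∈ Finset.range K,
                (endA K M A ∩ (τ s) ⁻¹' Q).indicator (1 : UnitAddCircle × (ℝ × ℝ) → ℝ≥0∞) q =
                  if (q.1 + (((s:ℝ) / (K:ℝ) ^ (M - j) : ℝ) : UnitAddCircle), q.2) ∈ Q
                    then 1 else 0 := by
              intro s _
              by_cases hs : (q.1 + (((s:ℝ) / (K:ℝ) ^ (M - j) : ℝ) : UnitAddCircle), q.2) ∈ Q
              · have hmem : q ∈ endA K M A ∩ (τ s) ⁻¹' Q := ⟨hq, hs⟩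
                rw [if_pos hs, Set.indicator_of_mem hmem, Pi.one_apply]
              · have hmem : q ∉ endA K M A ∩ (τ s) ⁻¹' Q := fun h => hs h.2
                rw [if_neg hs, Set.indicator_of_notMem hmem]
            show ∑ s ∈ Finset.range K,
              (endA K M A ∩ (τ s) ⁻¹' Q).indicator (1 : UnitAddCircle × (ℝ × ℝ) → ℝ≥0∞) q ≤ 4
            rw [Finset.sum_congr rfl e1, ← Finset.sum_filter, Finset.sum_const, nsmul_eq_mul,
              mul_one]
            exact_mod_cast h q.1 q.2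
          · show ∑ s ∈ Finset.range K,
              (endA K M A ∩ (τ s) ⁻¹' Q).indicator (1 : UnitAddCircle × (ℝ × ℝ) → ℝ≥0∞) q ≤ _
            rw [Finset.sum_eq_zero]
            · exact zero_le
            · intro s _
              exact Set.indicator_of_notMem (fun h => hq h.1) _
      _ = 4 * mu (endA K M A) := by
          rw [lintegral_const_mul _ (measurable_one.indicator hEm), lintegral_indicator_one hEm]
  have h4 : (K : ℝ≥0∞) * mu (endA K M A ∩ Q) ≤ 4 * volume A := by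
    rw [h2, ← mu_endA hK M hA]; exact h3
  have hfin : (4 : ℝ≥0∞) * volume A ≠ ⊤ := by
    rw [← mu_endA hK M hA]
    exact ENNReal.mul_ne_top (by norm_num) (measure_ne_top mu _)
  have h5 := ENNReal.toReal_mono hfin h4
  rw [ENNReal.toReal_mul, ENNReal.toReal_mul, ENNReal.toReal_natCast] at h5
  have h6 : (4 : ℝ≥0∞).toReal = 4 := by norm_num
  rw [h6] at h5
  rw [div_mul_eq_mul_div, le_div_iff₀ hK0, mul_comm]
  exact h5

private lemma nz_shift12 (ε : ℝ) {K : ℕ} (hK : 2 ≤ K) {M j : ℕ} (hj : j < M) (θ : UnitAddCircle)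
    (s : ℕ) {i : ℕ} (hi : i < j) :
    rev (nz ε K (θ + (((s:ℝ) / (K:ℝ) ^ (M - j) : ℝ) : UnitAddCircle))) M i = rev (nz ε K θ) M i := by
  have hK0 : (0:ℝ) < K := by exact_mod_cast (by omega : 0 < K)
  unfold rev nz
  rw [smul_add, ← AddCircle.coe_nsmul, nsmul_eq_mul]
  have e : ((K ^ (M - 1 - i) : ℕ) : ℝ) * ((s : ℝ) / (K:ℝ) ^ (M - j)) =
      ((s * K ^ (j - 1 - i) : ℕ) : ℝ) := by
    have h1 : M - 1 - i = (M - j) + (j - 1 - i) := by omega
    rw [h1]
    push_cast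
    rw [pow_add]
    field_simp
  have h0 : ∀ n : ℕ, ((n : ℝ) : UnitAddCircle) = 0 := by
    intro n
    rw [AddCircle.coe_eq_zero_iff]
    exact ⟨n, by simp⟩
  rw [e, h0, add_zero]

private lemma nz_digit12 (ε : ℝ) {K : ℕ} (hK : 2 ≤ K) {M j : ℕ} (hj : j < M) (θ : UnitAddCircle)
    {u : ℝ} (hu : (u : UnitAddCircle) = (K ^ (M - 1 - j)) • θ) (s : ℕ) :
    rev (nz ε K (θ + (((s:ℝ) / (K:ℝ) ^ (M - j) : ℝ) : UnitAddCircle))) M j =
      ε * Real.sin (2 * π * (u + s / K)) := by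
  have hK0 : (0:ℝ) < K := by exact_mod_cast (by omega : 0 < K)
  unfold rev nz
  rw [smul_add, ← AddCircle.coe_nsmul, nsmul_eq_mul, ← hu]
  have e : ((K ^ (M - 1 - j) : ℕ) : ℝ) * ((s : ℝ) / (K:ℝ) ^ (M - j)) = (s : ℝ) / K := by
    have h1 : M - j = (M - 1 - j) + 1 := by omega
    rw [h1]
    push_cast
    rw [pow_succ]
    field_simp
  rw [e, ← AddCircle.coe_add, Pool.Agent.Helper78.SM.snn_coe]

private lemma Z_digit12 {a ε : ℝ} {K : ℕ} (hK : 2 ≤ K) {M j : ℕ} (hj : j < M) (θ : UnitAddCircle)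
    {u : ℝ} (hu : (u : UnitAddCircle) = (K ^ (M - 1 - j)) • θ) (s : ℕ) (y x : ℝ) :
    Z a (rev (nz ε K (θ + (((s:ℝ) / (K:ℝ) ^ (M - j) : ℝ) : UnitAddCircle))) M) y x (j + 2) =
      (psi a (Z a (rev (nz ε K θ) M) y x (j + 1)) - Z a (rev (nz ε K θ) M) y x j) +
        ε * Real.sin (2 * π * (u + s / K)) := by
  have hcc : ∀ i, i + 1 < j + 1 →
      rev (nz ε K (θ + (((s:ℝ) / (K:ℝ) ^ (M - j) : ℝ) : UnitAddCircle))) M i =
        rev (nz ε K θ) M i := fun i hi => nz_shift12 ε hK hj θ s (by omega)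
  have hZ := Pool.Agent.Helper18.SG.Z_congr (a := a) hcc y x
  rw [Pool.Agent.Helper18.SG.Z_rec, hZ (j + 1) le_rfl, hZ j (Nat.le_succ j),
    nz_digit12 ε hK hj θ hu s]

theorem prob_bad {a b : ℝ} (hb : 1000 ≤ b) (hab : |a| = b ^ 10) {K : ℕ} (hK : 2 ≤ K) {ε : ℝ}
    (hε : 0 < ε) (hε4 : ε ≤ 1 / 4) (h : (K:ℝ) ^ 2 ≤ ε * b) {M k : ℕ} (hk : 2 ≤ k) (hkM : k ≤ M + 1)
    {A : Set T3} (hA : MeasurableSet A) :
    (mu (endA K M A ∩ Bad a (fun θ => rev (nz ε K θ) M) k)).toReal ≤ 4 / K * (volume A).toReal := by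
  classical
  obtain ⟨j, rfl⟩ : ∃ j, k = j + 2 := ⟨k - 2, by omega⟩
  have hj : j < M := by omega
  have hm : MeasurableSet (Bad a (fun θ => rev (nz ε K θ) M) (j + 2)) :=
    Pool.Agent.Helper18.SD.measurableSet_Bad (fun i => by
      simpa only [rev] using Pool.Agent.Helper18.SD.measurable_nz ε K (M - 1 - i)) (j + 2)
  refine resamp hK hj hA hm ?_
  intro θ p
  obtain ⟨u, hu⟩ : ∃ x : ℝ, (x : UnitAddCircle) = (K ^ (M - 1 - j)) • θ :=
    QuotientAddGroup.mk_surjective _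
  set c0 : ℕ → ℝ := rev (nz ε K θ) M with hc0
  set V := v a c0 p.2 p.1 (j + 2) with hV
  set V' := v a c0 p.2 p.1 (j + 1) with hV'
  refine le_trans (Finset.card_le_card ?_) (count_bad hb hab hK hε hε4 h u
    (psi a (Z a c0 p.2 p.1 (j + 1)) - Z a c0 p.2 p.1 j) (V' / V))
  intro s hs
  rw [Finset.mem_filter] at hs ⊢
  refine ⟨hs.1, ?_⟩
  have hbad := hs.2
  unfold Pool.Agent.Helper18.SD.Bad at hbad
  rw [mem_ofPred_eq] at hbad
  simp only at hbad
  have hcc : ∀ i, i + 1 < j + 1 →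
      rev (nz ε K (θ + (((s:ℝ) / (K:ℝ) ^ (M - j) : ℝ) : UnitAddCircle))) M i = c0 i :=
    fun i hi => nz_shift12 ε hK hj θ s (by omega)
  have hvc := Pool.Agent.Helper18.SG.v_congr (a := a) hcc p.2 p.1
  have hv3 := Pool.Agent.Helper18.SG.v_rec a
    (rev (nz ε K (θ + (((s:ℝ) / (K:ℝ) ^ (M - j) : ℝ) : UnitAddCircle))) M) p.2 p.1 (j + 1)
  rw [show j + 1 + 2 = j + 2 + 1 by ring, show j + 1 + 1 = j + 2 by ring] at hv3
  rw [hv3, hvc (j + 2) le_rfl, hvc (j + 1) (Nat.le_succ _), Z_digit12 hK hj θ hu s] at hbad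
  rw [← hc0, ← hV, ← hV'] at hbad
  set Φ := phi a (psi a (Z a c0 p.2 p.1 (j + 1)) - Z a c0 p.2 p.1 j +
    ε * Real.sin (2 * π * (u + s / K))) with hΦ
  have hV0 : V ≠ 0 := by
    intro h0
    rw [h0, abs_zero] at hbad
    exact absurd hbad (not_lt.2 (abs_nonneg _))
  have hVp : 0 < |V| := abs_pos.2 hV0
  have e : Φ - V' / V = (Φ * V - V') / V := by
    field_simp
  rw [e, abs_div, div_lt_one hVp]
  exact hbad

theorem prob_small {a b : ℝ} (hb : 1000 ≤ b) (hab : |a| = b ^ 10) {K : ℕ} (hK : 2 ≤ K) {ε : ℝ}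
    (hε : 0 < ε) (hε4 : ε ≤ 1 / 4) (h : (K:ℝ) ^ 2 ≤ ε * b) {M k : ℕ} (hk : 1 ≤ k) (hkM : k ≤ M)
    {A : Set T3} (hA : MeasurableSet A) :
    (mu (endA K M A ∩ {q | |phi a (Z a (rev (nz ε K q.1) M) q.2.2 q.2.1 (k+1))| < 2 * b ^ 9})).toReal ≤
      4 / K * (volume A).toReal := by
  classical
  obtain ⟨j, rfl⟩ : ∃ j, k = j + 1 := ⟨k - 1, by omega⟩
  have hj : j < M := by omega
  have hm : MeasurableSet {q : UnitAddCircle × (ℝ × ℝ) |
      |phi a (Z a (rev (nz ε K q.1) M) q.2.2 q.2.1 (j+1+1))| < 2 * b ^ 9} := by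
    have hcm : Measurable (fun θ : UnitAddCircle => rev (nz ε K θ) M) := measurable_pi_iff.2
      (fun i => by simpa only [rev] using Pool.Agent.Helper18.SD.measurable_nz ε K (M - 1 - i))
    have hmm : Measurable (fun q : UnitAddCircle × (ℝ × ℝ) =>
        (rev (nz ε K q.1) M, (q.2.2, q.2.1))) :=
      (hcm.comp measurable_fst).prodMk (measurable_snd.snd.prodMk measurable_snd.fst)
    have hZ : Measurable (fun q : UnitAddCircle × (ℝ × ℝ) =>
        Z a (rev (nz ε K q.1) M) q.2.2 q.2.1 (j+1+1)) :=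
      (Pool.Agent.Helper18.SG.continuous_Zc a (j+1+1)).measurable.comp hmm
    have hφ : Continuous (phi a) := by
      unfold Pool.Agent.Helper78.SM.phi
      fun_prop
    exact measurableSet_lt (continuous_abs.measurable.comp (hφ.measurable.comp hZ)) measurable_const
  refine resamp hK hj hA hm ?_
  intro θ p
  obtain ⟨u, hu⟩ : ∃ x : ℝ, (x : UnitAddCircle) = (K ^ (M - 1 - j)) • θ :=
    QuotientAddGroup.mk_surjective _
  refine le_trans (Finset.card_le_card ?_) (count_small hb hab hK hε hε4 h u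
    (psi a (Z a (rev (nz ε K θ) M) p.2 p.1 (j + 1)) - Z a (rev (nz ε K θ) M) p.2 p.1 j))
  intro s hs
  rw [Finset.mem_filter] at hs ⊢
  refine ⟨hs.1, ?_⟩
  have hsm := hs.2
  rw [mem_ofPred_eq] at hsm
  simp only at hsm
  rw [show j + 1 + 1 = j + 2 by ring, Z_digit12 hK hj θ hu s] at hsm
  exact hsm

end Pool.Agent.Helper18.SE
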