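import Mathlib
import Pool.Agent.Helper18.SE.Resamp
import Pool.Agent.Helper18.SD.Fwd
import Pool.Agent.Helper78.SM.Rand

/-! Block SE-SUMS: frequency of the non hyperbolic times inside a set.

`sw` swaps the two fibre coordinates (measure preserving on `T3`, also on the square).
* `gq_le`: for `2 b ^ 9 <= |t|`: `log (|t|+1) >= 9 log b`, `gq = log ((|t|+1) / (|t|-1)) <= 2 / (|t|-1) <= 1 / b ^ 8`;
  for `|t| < 2 b ^ 9`: if `log (|t|+1) <= 9 log b` then `gq <= 9 log b` (`gg_nonneg`), otherwise as before.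
* `path_fwd`: `SD.loss_energy` (`u + max (9 log b - u) 0 = max (9 log b) u`), `SD.logW_rev`, `SD.logW_ge` for
  the reversed orbit, `2 log (10 |a|) <= 22 log b`; the values `Z' (k+1) = Z (T-k)` (`SG.Z_rev`) of the
  reversed orbit are the values `Z (k+1)` in reverse order (`Finset.sum_range_reflect`).
* `sum_rev`: the `n`-th term is `mu (endA K T A ∩ {¬ Hyp n for rev (nz θ) T})` (replace `θ` by
  `K ^ (T-n) • θ`, `mp_pow`; `rev (nz ((K ^ (T-n)) • θ)) n i = rev (nz θ) T i` for `i < n`, congruence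
  lemmas); swap the coordinates (`sw⁻¹ A`); `SG.not_hyp_count` and `SG.loss_le` for every `(θ, p)`; then
  `prob_small` for `k >= 1`, `prob_bad` for `k >= 2`, and the trivial bound `volume A` for `k = 0`
  (`Bad 0` is empty) and `Bad 1`: `1/2 (9 (1 + 4 T / K) + 20 (1 + 4 T / K)) <= 15 + 58 T / K`.
* `sum_fwd`: `SG.not_hyp_count` and `path_fwd`. By invariance `(θ, mk2 p) ∈ A` iff
  `(K ^ T • θ, mk2 (st p)) ∈ A`, `st p` is the swap of `p' = (Z T, Z (T+1))`; `SD.int_state` for every `θ`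
  turns the integral into one over `p'` and `endA K T (sw⁻¹ A)`. Then `gq_le`, `prob_small`, `prob_bad`:
  `T / (2 b ^ 8 log b) + 1/2 (9 (1 + 4 T / K) + 22 (1 + 4 T / K + 4 T / K)) <= 16 + 107 T / K`
  (`K <= b`; for `T = 1` the last bad term has the trivial bound). -/

set_option autoImplicit false
open Real Set MeasureTheory
open scoped ENNReal

namespace Pool.Agent.Helper18.SE

open Pool.Agent.Helper53.SM (T2)
open Pool.Agent.Helper78.SM (psi phi dphi sq csn snn mk2 gg)
open Pool.Agent.Helper18.SG (Z v W rev pbad HypS st loss)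
open Pool.Agent.Helper18.SD (T3 dr nz Bad)

attribute [local instance] Pool.Agent.Helper53.SM.instProbU Pool.Agent.Helper53.SM.instProbT2

/-- swap of the fibre coordinates -/
def sw (q : T3) : T3 := (q.1, q.2.swap)

theorem mp_sw : MeasurePreserving sw (volume : Measure T3) volume := by
  have h1 : MeasurePreserving (Prod.swap : T2 → T2) (volume : Measure T2) volume :=
    MeasureTheory.Measure.measurePreserving_swap (μ := (volume : Measure UnitAddCircle))
      (ν := (volume : Measure UnitAddCircle))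
  exact (MeasurePreserving.id (volume : Measure UnitAddCircle)).prod h1

/-- cost of a step -/
noncomputable def gq (b t : ℝ) : ℝ := max (9 * Real.log b) (Real.log (|t| + 1)) - gg t

private lemma gg_close49 {b t : ℝ} (hb : 1000 ≤ b) (h : 2 * b ^ 8 ≤ |t| - 1) :
    Real.log (|t| + 1) - gg t ≤ 1 / b ^ 8 := by
  have hb8 : 0 < b ^ 8 := by positivity
  have h2 : 0 < |t| - 1 := by linarith
  have h1 : Real.log (|t| - 1) ≤ gg t := by
    unfold Pool.Agent.Helper78.SM.gg
    exact Real.log_le_log h2 (le_max_left _ _)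
  have h3 : Real.log (|t| + 1) - Real.log (|t| - 1) = Real.log ((|t| + 1) / (|t| - 1)) := by
    rw [Real.log_div (by linarith) h2.ne']
  have h4 := Real.log_le_sub_one_of_pos (x := (|t| + 1) / (|t| - 1)) (by positivity)
  have h6 : (|t| + 1) / (|t| - 1) - 1 = 2 / (|t| - 1) := by
    field_simp
    ring
  have h7 : 2 / (|t| - 1) ≤ 1 / b ^ 8 := by
    rw [div_le_div_iff₀ h2 hb8]
    linarith
  linarith

private lemma pow9_49 {b : ℝ} (hb : 1000 ≤ b) : 1000 * b ^ 8 ≤ b ^ 9 ∧ 1 ≤ b ^ 8 := by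
  have h1 : (1:ℝ) ≤ b ^ 8 := one_le_pow₀ (by linarith)
  refine ⟨?_, h1⟩
  have : b ^ 9 = b * b ^ 8 := by ring
  rw [this]
  exact mul_le_mul_of_nonneg_right hb (by linarith)

open Classical in
theorem gq_le {b : ℝ} (hb : 1000 ≤ b) (t : ℝ) :
    gq b t ≤ (if |t| < 2 * b ^ 9 then 9 * Real.log b else 0) + 1 / b ^ 8 := by
  have hb0 : 0 < b := by linarith
  obtain ⟨h9, h8⟩ := pow9_49 hb
  have hlb : 0 < Real.log b := Real.log_pos (by linarith)
  have hgg := Pool.Agent.Helper78.SM.gg_nonneg t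
  have hinv : 0 ≤ 1 / b ^ 8 := by positivity
  have hl9 : Real.log (b ^ 9) = 9 * Real.log b := by
    rw [Real.log_pow]; norm_num
  unfold gq
  by_cases ht : |t| < 2 * b ^ 9
  · rw [if_pos ht]
    rcases le_total (Real.log (|t| + 1)) (9 * Real.log b) with hc | hc
    · rw [max_eq_left hc]; linarith
    · rw [max_eq_right hc]
      have h1 : b ^ 9 ≤ |t| + 1 := by
        rw [← hl9] at hc
        exact (Real.log_le_log_iff (by positivity) (by positivity)).mp hc
      have := gg_close49 hb (t := t) (by linarith)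
      linarith
  · rw [if_neg ht, zero_add]
    rw [not_lt] at ht
    have hc : 9 * Real.log b ≤ Real.log (|t| + 1) := by
      rw [← hl9]
      exact Real.log_le_log (by positivity) (by linarith)
    rw [max_eq_right hc]
    exact gg_close49 hb (by linarith)

open Classical in
theorem path_fwd {a b : ℝ} (hb : 1000 ≤ b) (hab : |a| = b ^ 10) (c : ℕ → ℝ) (y x : ℝ) (T : ℕ) :
    ∑ k ∈ Finset.range T, loss b (W a c y x) k ≤
      (∑ k ∈ Finset.range T, gq b (phi a (Z a (rev c T) (Z a c y x (T+1)) (Z a c y x T) (k+1)))) +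
      22 * Real.log b * ((∑ k ∈ Finset.range T,
        (if |v a (rev c T) (Z a c y x (T+1)) (Z a c y x T) (k+1)| <
          |v a (rev c T) (Z a c y x (T+1)) (Z a c y x T) k| then (1:ℝ) else 0)) +
        T * (if |v a (rev c T) (Z a c y x (T+1)) (Z a c y x T) (T+1)| <
          |v a (rev c T) (Z a c y x (T+1)) (Z a c y x T) T| then (1:ℝ) else 0)) := by
  have hb0 : 0 < b := by linarith
  have ha : 1 ≤ |a| := by rw [hab]; exact one_le_pow₀ (by linarith)
  have hlog : 2 * Real.log (10 * |a|) ≤ 22 * Real.log b := by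
    have h : 10 * |a| ≤ b ^ 11 := by
      rw [hab, pow_succ b 10, mul_comm]
      exact mul_le_mul_of_nonneg_left (by linarith) (by positivity)
    have h2 := Real.log_le_log (by rw [hab]; positivity) h
    rw [Real.log_pow] at h2
    push_cast at h2
    linarith
  have h1 := Pool.Agent.Helper18.SD.loss_energy (b := b) ha c y x T
  have h2 := Pool.Agent.Helper18.SD.logW_rev ha c y x T
  have h3 := Pool.Agent.Helper18.SD.logW_ge ha (rev c T) (Z a c y x (T+1)) (Z a c y x T) T
  set y' := Z a c y x (T+1) with hy'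
  set x' := Z a c y x T with hx'
  have h4 : ∑ k ∈ Finset.range T, (Real.log (|phi a (Z a c y x (k+1))| + 1) +
        max (9 * Real.log b - Real.log (|phi a (Z a c y x (k+1))| + 1)) 0) =
      ∑ k ∈ Finset.range T, max (9 * Real.log b)
        (Real.log (|phi a (Z a (rev c T) y' x' (k+1))| + 1)) := by
    rw [← Finset.sum_range_reflect]
    apply Finset.sum_congr rfl
    intro k hk
    have hk' := Finset.mem_range.mp hk
    have e : Z a (rev c T) y' x' (k+1) = Z a c y x (T - 1 - k + 1) := by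
      rw [hy', hx', Pool.Agent.Helper18.SG.Z_rev a c y x T (k := k + 1) (by omega)]
      congr 1
      omega
    rw [e]
    set u := Real.log (|phi a (Z a c y x (T - 1 - k + 1))| + 1)
    rcases le_total (9 * Real.log b) u with h | h
    · rw [max_eq_right h, max_eq_right (by linarith)]; ring
    · rw [max_eq_left h, max_eq_left (by linarith)]; ring
  rw [h4] at h1
  rw [Finset.sum_sub_distrib] at h3
  have h5 : ∑ k ∈ Finset.range T, gq b (phi a (Z a (rev c T) y' x' (k+1))) =
      ∑ k ∈ Finset.range T, max (9 * Real.log b)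
        (Real.log (|phi a (Z a (rev c T) y' x' (k+1))| + 1)) -
      ∑ k ∈ Finset.range T, gg (phi a (Z a (rev c T) y' x' (k+1))) := by
    rw [← Finset.sum_sub_distrib]
    rfl
  rw [h5]
  have h6 : ∑ k ∈ Finset.range T, (if |v a (rev c T) y' x' (k+1)| < |v a (rev c T) y' x' k| then
        2 * Real.log (10 * |a|) else 0) ≤ 22 * Real.log b * ∑ k ∈ Finset.range T,
        (if |v a (rev c T) y' x' (k+1)| < |v a (rev c T) y' x' k| then (1:ℝ) else 0) := by
    rw [Finset.mul_sum]
    apply Finset.sum_le_sum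
    intro k _
    split_ifs
    · linarith
    · simp
  have h7 : (if |v a (rev c T) y' x' (T+1)| < |v a (rev c T) y' x' T| then
        2 * T * Real.log (10 * |a|) else 0) ≤ 22 * Real.log b * (T *
        (if |v a (rev c T) y' x' (T+1)| < |v a (rev c T) y' x' T| then (1:ℝ) else 0)) := by
    split_ifs
    · have : (0:ℝ) ≤ T := Nat.cast_nonneg T
      nlinarith
    · simp
  rw [mul_add]
  linarith

private lemma meas_sq22 : MeasurableSet sq := measurableSet_Ioc.prod measurableSet_Ioc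

private lemma meas_v22 {Ω : Type*} [MeasurableSpace Ω] {a : ℝ} {c : Ω → ℕ → ℝ}
    (hc : ∀ k, Measurable (fun ξ => c ξ k)) (k : ℕ) :
    Measurable (fun q : Ω × (ℝ × ℝ) => v a (c q.1) q.2.2 q.2.1 k) := by
  have h1 : Measurable (fun q : Ω × (ℝ × ℝ) => ((c q.1, (q.2.2, q.2.1)) : (ℕ → ℝ) × (ℝ × ℝ))) := by
    refine Measurable.prodMk ?_ (measurable_snd.snd.prodMk measurable_snd.fst)
    exact measurable_pi_iff.mpr fun i => (hc i).comp measurable_fst
  exact (Pool.Agent.Helper18.SG.continuous_vc a k).measurable.comp h1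

private lemma meas_Z22 {Ω : Type*} [MeasurableSpace Ω] {a : ℝ} {c : Ω → ℕ → ℝ}
    (hc : ∀ k, Measurable (fun ξ => c ξ k)) (k : ℕ) :
    Measurable (fun q : Ω × (ℝ × ℝ) => Z a (c q.1) q.2.2 q.2.1 k) := by
  have h1 : Measurable (fun q : Ω × (ℝ × ℝ) => ((c q.1, (q.2.2, q.2.1)) : (ℕ → ℝ) × (ℝ × ℝ))) := by
    refine Measurable.prodMk ?_ (measurable_snd.snd.prodMk measurable_snd.fst)
    exact measurable_pi_iff.mpr fun i => (hc i).comp measurable_fst
  exact (Pool.Agent.Helper18.SG.continuous_Zc a k).measurable.comp h1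

private lemma meas_hyp22 {Ω : Type*} [MeasurableSpace Ω] {a b : ℝ} {c : Ω → ℕ → ℝ}
    (hc : ∀ k, Measurable (fun ξ => c ξ k)) (n : ℕ) :
    MeasurableSet {q : Ω × (ℝ × ℝ) | HypS b (W a (c q.1) q.2.2 q.2.1) n} := by
  have hW : ∀ k, Measurable (fun q : Ω × (ℝ × ℝ) => W a (c q.1) q.2.2 q.2.1 k) := by
    intro k
    exact (meas_v22 hc (k+1)).abs.max (meas_v22 hc k).abs
  have he : {q : Ω × (ℝ × ℝ) | HypS b (W a (c q.1) q.2.2 q.2.1) n} = ⋂ (j : ℕ) (i : ℕ),
      {q : Ω × (ℝ × ℝ) | j ≤ i → i ≤ n →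
        W a (c q.1) q.2.2 q.2.1 j * b ^ (9 * (i - j)) ≤
          b ^ (2 * (n - j)) * W a (c q.1) q.2.2 q.2.1 i} := by
    ext p
    simp only [HypS, Set.mem_ofPred_eq, Set.mem_iInter]
  rw [he]
  refine MeasurableSet.iInter fun j => MeasurableSet.iInter fun i => ?_
  by_cases h1 : j ≤ i
  · by_cases h2 : i ≤ n
    · simp only [h1, h2, true_implies]
      exact measurableSet_le ((hW j).mul measurable_const) (measurable_const.mul (hW i))
    · simp only [h2, false_implies, implies_true, Set.ofPred_true, MeasurableSet.univ]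
  · simp only [h1, false_implies, Set.ofPred_true, MeasurableSet.univ]

private lemma mp_sq22 : MeasurePreserving (fun q : UnitAddCircle × (ℝ × ℝ) => (q.1, q.2.swap)) mu mu := by
  have h1 : MeasurePreserving (Prod.swap : ℝ × ℝ → ℝ × ℝ) volume volume :=
    Measure.measurePreserving_swap
  have h2 := h1.restrict_preimage meas_sq22
  have h3 : (Prod.swap : ℝ × ℝ → ℝ × ℝ) ⁻¹' sq = sq := by
    ext p
    unfold Pool.Agent.Helper78.SM.sq
    rw [mem_preimage, Set.mem_prod, Set.mem_prod]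
    exact and_comm
  rw [h3] at h2
  exact (MeasurePreserving.id (volume : Measure UnitAddCircle)).prod h2

private lemma mp_rot22 {K : ℕ} (hK : 2 ≤ K) (m : ℕ) :
    MeasurePreserving (fun q : UnitAddCircle × (ℝ × ℝ) => ((K ^ m) • q.1, q.2)) mu mu :=
  (Pool.Agent.Helper18.SD.mp_pow hK m).prod
    (MeasurePreserving.id ((volume : Measure (ℝ × ℝ)).restrict sq))

private lemma hyp_congr22 {a b : ℝ} {c c' : ℕ → ℝ} {n : ℕ} (h : ∀ i, i + 1 < n → c i = c' i)
    (y x : ℝ) : HypS b (W a c y x) n ↔ HypS b (W a c' y x) n := by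
  have hW : ∀ j, j ≤ n → W a c y x j = W a c' y x j := by
    intro j hj
    unfold Pool.Agent.Helper18.SG.W Pool.Agent.Helper18.SG.mx
    rw [Pool.Agent.Helper18.SG.v_congr (a := a) h y x (j+1) (by omega),
      Pool.Agent.Helper18.SG.v_congr (a := a) h y x j (by omega)]
  unfold Pool.Agent.Helper18.SG.HypS
  constructor
  · intro h1 j i hji hin
    rw [← hW j (hji.trans hin), ← hW i hin]
    exact h1 j i hji hin
  · intro h1 j i hji hin
    rw [hW j (hji.trans hin), hW i hin]
    exact h1 j i hji hin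

private lemma meas_rev22 (ε : ℝ) (K T k : ℕ) :
    Measurable (fun θ : UnitAddCircle => (fun θ => rev (nz ε K θ) T) θ k) := by
  show Measurable (fun θ : UnitAddCircle => rev (nz ε K θ) T k)
  unfold Pool.Agent.Helper18.SG.rev
  exact Pool.Agent.Helper18.SD.measurable_nz ε K _

/-- change of variables: all the terms of the sum live over the same end point -/
private lemma term22 {a b : ℝ} {K : ℕ} (hK : 2 ≤ K) {ε : ℝ} {A : Set T3} (hA : MeasurableSet A)
    {n T : ℕ} (hn : n ≤ T) :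
    mu {q | ((K ^ n) • q.1, mk2 q.2) ∈ A ∧
      ¬ HypS b (W a (rev (nz ε K q.1) n) q.2.1 q.2.2) n} =
    mu (endA K T (sw ⁻¹' A) ∩ {q | ¬ HypS b (W a (rev (nz ε K q.1) T) q.2.2 q.2.1) n}) := by
  set S1 : Set (UnitAddCircle × (ℝ × ℝ)) := {q | ((K ^ n) • q.1, mk2 q.2) ∈ A ∧
      ¬ HypS b (W a (rev (nz ε K q.1) n) q.2.1 q.2.2) n} with hS1
  have hm1 : MeasurableSet S1 := by
    have h1 : MeasurableSet {q : UnitAddCircle × (ℝ × ℝ) | ((K ^ n) • q.1, mk2 q.2) ∈ A} :=
      measurableSet_endA (K := K) (M := n) hA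
    have h2 := (meas_hyp22 (a := a) (b := b) (c := fun θ : UnitAddCircle => rev (nz ε K θ) n)
      (meas_rev22 ε K n) n).compl
    have h3 := mp_sq22.measurable h2
    exact h1.inter h3
  rw [← (mp_rot22 hK (T - n)).measure_preimage hm1.nullMeasurableSet]
  set S2 : Set (UnitAddCircle × (ℝ × ℝ)) :=
    (fun q : UnitAddCircle × (ℝ × ℝ) => ((K ^ (T - n)) • q.1, q.2)) ⁻¹' S1 with hS2
  have hm2 : MeasurableSet S2 := (mp_rot22 hK (T - n)).measurable hm1
  rw [← mp_sq22.measure_preimage hm2.nullMeasurableSet]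
  congr 1
  ext q
  have e1 : (K ^ n) • ((K ^ (T - n)) • q.1) = (K ^ T) • q.1 := by
    rw [smul_smul, ← pow_add]
    congr 2
    omega
  have e2 : HypS b (W a (rev (nz ε K ((K ^ (T - n)) • q.1)) n) q.2.2 q.2.1) n ↔
      HypS b (W a (rev (nz ε K q.1) T) q.2.2 q.2.1) n := by
    apply hyp_congr22
    intro i hi
    unfold Pool.Agent.Helper18.SG.rev
    rw [Pool.Agent.Helper18.SD.nz_smul]
    congr 1
    omega
  constructor
  · rintro ⟨h1, h2⟩
    refine ⟨?_, ?_⟩
    · show ((K ^ T) • q.1, (mk2 q.2).swap) ∈ A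
      rw [← e1]
      exact h1
    · exact fun h => h2 (e2.2 h)
  · rintro ⟨h1, h2⟩
    refine ⟨?_, ?_⟩
    · show ((K ^ n) • ((K ^ (T - n)) • q.1), (mk2 q.2).swap) ∈ A
      rw [e1]
      exact h1
    · exact fun h => h2 (e2.1 h)

open Classical in
private lemma point22 {a b : ℝ} (hb : 1000 ≤ b) (hab : |a| = b ^ 10) (c : ℕ → ℝ) (T : ℕ) (y x : ℝ) :
    2 * ∑ n ∈ Finset.Icc 1 T, (if ¬ HypS b (W a c y x) n then (1:ℝ) else 0) ≤
      ∑ k ∈ Finset.range T, (9 * (if |phi a (Z a c y x (k+1))| < 2 * b ^ 9 then (1:ℝ) else 0) +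
        20 * (if |v a c y x (k+1)| < |v a c y x k| then (1:ℝ) else 0)) := by
  have hb1 : 1 < b := by linarith
  have hlog : 0 < Real.log b := Real.log_pos hb1
  have h1 := Pool.Agent.Helper18.SG.not_hyp_count hb1 (V := W a c y x)
    (fun k => Pool.Agent.Helper18.SG.W_pos a c y x k) T
  have h2 : ∑ k ∈ Finset.range T, loss b (W a c y x) k ≤ ∑ k ∈ Finset.range T,
      Real.log b * (9 * (if |phi a (Z a c y x (k+1))| < 2 * b ^ 9 then (1:ℝ) else 0) +
        20 * (if |v a c y x (k+1)| < |v a c y x k| then (1:ℝ) else 0)) := by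
    apply Finset.sum_le_sum
    intro k _
    refine (Pool.Agent.Helper18.SG.loss_le hb hab c y x k).trans (le_of_eq ?_)
    rw [mul_add]
    congr 1
    · split_ifs <;> ring
    · split_ifs <;> ring
  have h3 : (((Finset.Icc 1 T).filter (fun n => ¬ HypS b (W a c y x) n)).card : ℝ) =
      ∑ n ∈ Finset.Icc 1 T, (if ¬ HypS b (W a c y x) n then (1:ℝ) else 0) := by
    rw [Finset.card_filter]
    push_cast
    rfl
  rw [h3] at h1
  rw [← Finset.mul_sum] at h2
  have h4 := h1.trans h2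
  refine le_of_mul_le_mul_left ?_ hlog
  linarith

private lemma real22 {E S : Set (UnitAddCircle × (ℝ × ℝ))} (hS : MeasurableSet S) :
    Integrable (S.indicator (1 : UnitAddCircle × (ℝ × ℝ) → ℝ)) (mu.restrict E) ∧
      ∫ q, S.indicator (1 : UnitAddCircle × (ℝ × ℝ) → ℝ) q ∂(mu.restrict E) =
        (mu (E ∩ S)).toReal := by
  have hP := prob_mu
  constructor
  · exact (integrable_const (1:ℝ)).indicator hS
  · rw [integral_indicator_one hS, measureReal_def, Measure.restrict_apply hS, inter_comm]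

open Classical in
private lemma ind22 {α : Type*} (P : α → Prop) (q : α) :
    Set.indicator {q | P q} (1 : α → ℝ) q = if P q then (1:ℝ) else 0 := by
  by_cases h : P q
  · rw [if_pos h, Set.indicator_of_mem (show q ∈ {q | P q} from h)]; rfl
  · rw [if_neg h, Set.indicator_of_notMem (show q ∉ {q | P q} from h)]

theorem sum_rev {a b : ℝ} (hb : 1000 ≤ b) (hab : |a| = b ^ 10) {K : ℕ} (hK : 2 ≤ K) {ε : ℝ}
    (hε : 0 < ε) (hε4 : ε ≤ 1 / 4) (h : (K:ℝ) ^ 2 ≤ ε * b) {A : Set T3} (hA : MeasurableSet A)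
    (T : ℕ) :
    ∑ n ∈ Finset.Icc 1 T, (mu {q | ((K ^ n) • q.1, mk2 q.2) ∈ A ∧
      ¬ HypS b (W a (rev (nz ε K q.1) n) q.2.1 q.2.2) n}).toReal ≤
      (15 + 58 * T / K) * (volume A).toReal := by
  classical
  have hP := prob_mu
  have hK0 : (0:ℝ) < K := by exact_mod_cast (by omega : 0 < K)
  set A' : Set T3 := sw ⁻¹' A with hA'
  have hAm : MeasurableSet A' := mp_sw.measurable hA
  have hvol : (volume A' : ℝ≥0∞) = volume A := mp_sw.measure_preimage hA.nullMeasurableSet
  set E := endA K T A' with hE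
  have hEm : MeasurableSet E := measurableSet_endA hAm
  set c : UnitAddCircle → ℕ → ℝ := fun θ => rev (nz ε K θ) T with hc
  have hcm : ∀ k, Measurable (fun ξ => c ξ k) := meas_rev22 ε K T
  set N : ℕ → Set (UnitAddCircle × (ℝ × ℝ)) := fun n =>
    {q | ¬ HypS b (W a (c q.1) q.2.2 q.2.1) n} with hN
  set Sm : ℕ → Set (UnitAddCircle × (ℝ × ℝ)) := fun k =>
    {q | |phi a (Z a (c q.1) q.2.2 q.2.1 (k+1))| < 2 * b ^ 9} with hSm
  have hNm : ∀ n, MeasurableSet (N n) := fun n => (meas_hyp22 hcm n).compl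
  have hSmm : ∀ k, MeasurableSet (Sm k) := fun k =>
    measurableSet_lt ((Pool.Agent.Helper78.SM.continuous_phi a).measurable.comp
      (meas_Z22 hcm (k+1))).abs measurable_const
  have hBm : ∀ k, MeasurableSet (Bad a c k) := fun k =>
    Pool.Agent.Helper18.SD.measurableSet_Bad hcm k
  have hsum : ∑ n ∈ Finset.Icc 1 T, (mu {q | ((K ^ n) • q.1, mk2 q.2) ∈ A ∧
      ¬ HypS b (W a (rev (nz ε K q.1) n) q.2.1 q.2.2) n}).toReal =
      ∑ n ∈ Finset.Icc 1 T, (mu (E ∩ N n)).toReal := by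
    apply Finset.sum_congr rfl
    intro n hn
    rw [term22 hK hA (Finset.mem_Icc.1 hn).2]
  rw [hsum]
  set V := (volume A).toReal with hV
  have hV0 : 0 ≤ V := ENNReal.toReal_nonneg
  have hmE : (mu E).toReal = V := by rw [mu_endA hK T hAm, hvol]
  have htriv : ∀ S, (mu (E ∩ S)).toReal ≤ V := by
    intro S
    rw [← hmE]
    exact ENNReal.toReal_mono (measure_ne_top _ _) (measure_mono inter_subset_left)
  have hmono := integral_mono (μ := mu.restrict E)
    (f := fun q => 2 * ∑ n ∈ Finset.Icc 1 T, (N n).indicator (1 : UnitAddCircle × (ℝ × ℝ) → ℝ) q)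
    (g := fun q => ∑ k ∈ Finset.range T, (9 * (Sm k).indicator (1 : UnitAddCircle × (ℝ × ℝ) → ℝ) q +
      20 * (Bad a c k).indicator (1 : UnitAddCircle × (ℝ × ℝ) → ℝ) q))
    ((integrable_finsetSum _ fun n _ => (real22 (E := E) (hNm n)).1).const_mul 2)
    (integrable_finsetSum _ fun k _ => ((real22 (E := E) (hSmm k)).1.const_mul 9).add
      ((real22 (E := E) (hBm k)).1.const_mul 20))
    (fun q => by
      have h0 := point22 hb hab (c q.1) T q.2.2 q.2.1
      show 2 * ∑ n ∈ Finset.Icc 1 T, (N n).indicator (1 : UnitAddCircle × (ℝ × ℝ) → ℝ) q ≤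
        ∑ k ∈ Finset.range T, (9 * (Sm k).indicator (1 : UnitAddCircle × (ℝ × ℝ) → ℝ) q +
          20 * (Bad a c k).indicator (1 : UnitAddCircle × (ℝ × ℝ) → ℝ) q)
      have e1 : ∀ n, (N n).indicator (1 : UnitAddCircle × (ℝ × ℝ) → ℝ) q =
          if ¬ HypS b (W a (c q.1) q.2.2 q.2.1) n then (1:ℝ) else 0 := by
        intro n
        have h1 := ind22 (fun q : UnitAddCircle × (ℝ × ℝ) =>
          ¬ HypS b (W a (c q.1) q.2.2 q.2.1) n) q
        refine h1.trans ?_
        by_cases h2 : ¬ HypS b (W a (c q.1) q.2.2 q.2.1) n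
        · rw [if_pos h2, if_pos h2]
        · rw [if_neg h2, if_neg h2]
      have e2 : ∀ k, (Sm k).indicator (1 : UnitAddCircle × (ℝ × ℝ) → ℝ) q =
          if |phi a (Z a (c q.1) q.2.2 q.2.1 (k+1))| < 2 * b ^ 9 then (1:ℝ) else 0 := fun k =>
        ind22 (fun q : UnitAddCircle × (ℝ × ℝ) =>
          |phi a (Z a (c q.1) q.2.2 q.2.1 (k+1))| < 2 * b ^ 9) q
      have e3 : ∀ k, (Bad a c k).indicator (1 : UnitAddCircle × (ℝ × ℝ) → ℝ) q =
          if |v a (c q.1) q.2.2 q.2.1 (k+1)| < |v a (c q.1) q.2.2 q.2.1 k| then (1:ℝ) else 0 :=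
        fun k => ind22 (fun q : UnitAddCircle × (ℝ × ℝ) =>
          |v a (c q.1) q.2.2 q.2.1 (k+1)| < |v a (c q.1) q.2.2 q.2.1 k|) q
      simp only [e1, e2, e3]
      exact h0)
  have hR : ∫ q, ∑ k ∈ Finset.range T, (9 * (Sm k).indicator (1 : UnitAddCircle × (ℝ × ℝ) → ℝ) q +
      20 * (Bad a c k).indicator (1 : UnitAddCircle × (ℝ × ℝ) → ℝ) q) ∂(mu.restrict E) =
      ∑ k ∈ Finset.range T, (9 * (mu (E ∩ Sm k)).toReal + 20 * (mu (E ∩ Bad a c k)).toReal) := by
    have hi : ∀ k ∈ Finset.range T, Integrable (fun q =>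
        9 * (Sm k).indicator (1 : UnitAddCircle × (ℝ × ℝ) → ℝ) q +
        20 * (Bad a c k).indicator (1 : UnitAddCircle × (ℝ × ℝ) → ℝ) q) (mu.restrict E) :=
      fun k _ => ((real22 (E := E) (hSmm k)).1.const_mul 9).add
        ((real22 (E := E) (hBm k)).1.const_mul 20)
    refine (integral_finsetSum _ hi).trans ?_
    apply Finset.sum_congr rfl
    intro k _
    rw [integral_add ((real22 (E := E) (hSmm k)).1.const_mul 9) ((real22 (E := E) (hBm k)).1.const_mul 20),
      integral_const_mul, integral_const_mul, (real22 (E := E) (hSmm k)).2, (real22 (E := E) (hBm k)).2]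
  have hL : ∫ q, 2 * ∑ n ∈ Finset.Icc 1 T, (N n).indicator (1 : UnitAddCircle × (ℝ × ℝ) → ℝ) q ∂(mu.restrict E) =
      2 * ∑ n ∈ Finset.Icc 1 T, (mu (E ∩ N n)).toReal := by
    rw [integral_const_mul, integral_finsetSum _ (fun n _ => (real22 (E := E) (hNm n)).1)]
    congr 1
    apply Finset.sum_congr rfl
    intro n _
    exact (real22 (E := E) (hNm n)).2
  rw [hR, hL] at hmono
  have hx : 0 ≤ 4 / (K:ℝ) * V := by positivity
  have b1 : ∀ k ∈ Finset.range T, (mu (E ∩ Sm k)).toReal ≤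
      (if k = 0 then V else 0) + 4 / K * V := by
    intro k hk
    rcases Nat.eq_zero_or_pos k with h0 | h0
    · rw [if_pos h0]
      have := htriv (Sm k)
      linarith
    · rw [if_neg h0.ne', zero_add]
      have := prob_small hb hab hK hε hε4 h (M := T) (k := k) h0
        (Finset.mem_range.1 hk).le hAm
      rwa [hvol] at this
  have b2 : ∀ k ∈ Finset.range T, (mu (E ∩ Bad a c k)).toReal ≤
      (if k = 1 then V else 0) + 4 / K * V := by
    intro k hk
    rcases Nat.lt_or_ge k 2 with h0 | h0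
    · have h01 : k = 0 ∨ k = 1 := by omega
      rcases h01 with rfl | rfl
      · have : Bad a c 0 = ∅ := by
          ext q
          constructor
          · intro hq
            have hq' : |v a (c q.1) q.2.2 q.2.1 1| < |v a (c q.1) q.2.2 q.2.1 0| := hq
            rw [Pool.Agent.Helper18.SG.v_one, Pool.Agent.Helper18.SG.v_zero] at hq'
            norm_num at hq'
          · intro hq
            exact hq.elim
        rw [this, inter_empty, measure_empty, if_neg (by norm_num), zero_add]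
        simpa using hx
      · rw [if_pos rfl]
        have := htriv (Bad a c 1)
        linarith
    · rw [if_neg (by omega), zero_add]
      have := prob_bad hb hab hK hε hε4 h (M := T) (k := k) h0
        ((Finset.mem_range.1 hk).le.trans (Nat.le_succ T)) hAm
      rwa [hvol] at this
  have b3 : ∑ k ∈ Finset.range T, (9 * (mu (E ∩ Sm k)).toReal +
      20 * (mu (E ∩ Bad a c k)).toReal) ≤ ∑ k ∈ Finset.range T,
      (9 * (if k = 0 then V else 0) + 20 * (if k = 1 then V else 0) + 29 * (4 / K * V)) := by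
    apply Finset.sum_le_sum
    intro k hk
    have h1 := b1 k hk
    have h2 := b2 k hk
    linarith
  have b4 : ∑ k ∈ Finset.range T, (9 * (if k = 0 then V else 0) + 20 * (if k = 1 then V else 0) +
      29 * (4 / K * V)) ≤ 9 * V + 20 * V + T * (29 * (4 / K * V)) := by
    rw [Finset.sum_add_distrib, Finset.sum_add_distrib, Finset.sum_const, Finset.card_range,
      nsmul_eq_mul, ← Finset.mul_sum, ← Finset.mul_sum]
    have h1 : ∀ j : ℕ, ∑ k ∈ Finset.range T, (if k = j then V else 0) ≤ V := by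
      intro j
      rw [Finset.sum_ite_eq']
      split_ifs
      · exact le_rfl
      · exact hV0
    have h2 := h1 0
    have h3 := h1 1
    linarith
  have e5 : (15 + 58 * (T:ℝ) / K) * V = 15 * V + T * (58 / K * V) := by ring
  have e6 : (T:ℝ) * (29 * (4 / K * V)) = 2 * (T * (58 / K * V)) := by ring
  rw [e5]
  rw [e6] at b4
  linarith [hmono.trans (b3.trans b4)]

private lemma log_one26 {b : ℝ} (hb : 1000 ≤ b) : 1 ≤ Real.log b := by
  rw [Real.le_log_iff_exp_le (by linarith)]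
  have := Real.exp_one_lt_d9
  linarith

private lemma meas_v26 {c : UnitAddCircle → ℕ → ℝ} {a : ℝ}
    (hc : ∀ k, Measurable (fun ξ => c ξ k)) (k : ℕ) :
    Measurable (fun q : UnitAddCircle × (ℝ × ℝ) => v a (c q.1) q.2.2 q.2.1 k) := by
  have h1 : Measurable (fun q : UnitAddCircle × (ℝ × ℝ) =>
      ((c q.1, (q.2.2, q.2.1)) : (ℕ → ℝ) × (ℝ × ℝ))) := by
    refine Measurable.prodMk ?_ (by fun_prop)
    exact measurable_pi_iff.mpr fun i => (hc i).comp measurable_fst
  exact (Pool.Agent.Helper18.SG.continuous_vc a k).measurable.comp h1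

private lemma meas_Z26 {c : UnitAddCircle → ℕ → ℝ} {a : ℝ}
    (hc : ∀ k, Measurable (fun ξ => c ξ k)) (k : ℕ) :
    Measurable (fun q : UnitAddCircle × (ℝ × ℝ) => Z a (c q.1) q.2.2 q.2.1 k) := by
  have h1 : Measurable (fun q : UnitAddCircle × (ℝ × ℝ) =>
      ((c q.1, (q.2.2, q.2.1)) : (ℕ → ℝ) × (ℝ × ℝ))) := by
    refine Measurable.prodMk ?_ (by fun_prop)
    exact measurable_pi_iff.mpr fun i => (hc i).comp measurable_fst
  exact (Pool.Agent.Helper18.SG.continuous_Zc a k).measurable.comp h1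

private lemma meas_hyp26 {c : UnitAddCircle → ℕ → ℝ} {a b : ℝ}
    (hc : ∀ k, Measurable (fun ξ => c ξ k)) (n : ℕ) :
    MeasurableSet {q : UnitAddCircle × (ℝ × ℝ) | HypS b (W a (c q.1) q.2.2 q.2.1) n} := by
  have hW : ∀ k, Measurable (fun q : UnitAddCircle × (ℝ × ℝ) => W a (c q.1) q.2.2 q.2.1 k) := by
    intro k
    exact (meas_v26 hc (k+1)).abs.max (meas_v26 hc k).abs
  have he : {q : UnitAddCircle × (ℝ × ℝ) | HypS b (W a (c q.1) q.2.2 q.2.1) n} = ⋂ (j : ℕ) (i : ℕ),
      {q : UnitAddCircle × (ℝ × ℝ) | j ≤ i → i ≤ n →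
        W a (c q.1) q.2.2 q.2.1 j * b ^ (9 * (i - j)) ≤
          b ^ (2 * (n - j)) * W a (c q.1) q.2.2 q.2.1 i} := by
    ext p
    simp only [HypS, Set.mem_ofPred_eq, Set.mem_iInter]
  rw [he]
  refine MeasurableSet.iInter fun j => MeasurableSet.iInter fun i => ?_
  by_cases h1 : j ≤ i
  · by_cases h2 : i ≤ n
    · simp only [h1, h2, true_implies]
      exact measurableSet_le ((hW j).mul measurable_const) (measurable_const.mul (hW i))
    · simp only [h2, false_implies, implies_true, Set.ofPred_true, MeasurableSet.univ]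
  · simp only [h1, false_implies, Set.ofPred_true, MeasurableSet.univ]

private lemma int_bdd26 {α : Type*} [MeasurableSpace α] {μ : Measure α} [IsFiniteMeasure μ]
    {h : α → ℝ} (hm : Measurable h) {C : ℝ} (hC : ∀ x, |h x| ≤ C) : Integrable h μ := by
  apply Integrable.of_bound (C := C)
  · exact hm.aestronglyMeasurable
  · exact Filter.Eventually.of_forall fun p => by rw [Real.norm_eq_abs]; exact hC p

private lemma mk2_shift26 (p : ℝ × ℝ) (i j : ℤ) : mk2 (p.1 + i, p.2 + j) = mk2 p := by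
  have h : ∀ (x : ℝ) (k : ℤ), ((x + k : ℝ) : UnitAddCircle) = (x : UnitAddCircle) := by
    intro x k
    rw [AddCircle.coe_add]
    have : ((k : ℝ) : UnitAddCircle) = 0 := by
      rw [AddCircle.coe_eq_zero_iff]
      exact ⟨k, by simp⟩
    rw [this, add_zero]
  unfold mk2
  simp only [h]

private lemma meas_gq26 (b : ℝ) : Measurable (gq b) := by
  unfold gq
  exact (measurable_const.max (Real.measurable_log.comp
    (continuous_abs.measurable.add_const 1))).sub Pool.Agent.Helper78.SM.measurable_gg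

private lemma abs_gq26 {a b : ℝ} (hb : 1000 ≤ b) (ha : 1 ≤ |a|) (x : ℝ) :
    |gq b (phi a x)| ≤ 9 * Real.log b + Real.log (10 * |a|) := by
  have h1 := abs_le.1 (Pool.Agent.Helper78.SM.phi_gg_le ha x)
  have h2 := abs_le.1 (Pool.Agent.Helper78.SM.phi_log_le ha x)
  have h3 := Pool.Agent.Helper78.SM.gg_nonneg (phi a x)
  have h4 := log_one26 hb
  have h5 : 0 ≤ Real.log (10 * |a|) := Real.log_nonneg (by linarith)
  unfold gq
  rw [abs_le]
  constructor
  · have := le_max_left (9 * Real.log b) (Real.log (|phi a x| + 1))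
    linarith [h1.2]
  · have : max (9 * Real.log b) (Real.log (|phi a x| + 1)) ≤ 9 * Real.log b + Real.log (10 * |a|) := by
      apply max_le <;> linarith [h2.2]
    linarith

private lemma inv_iter26 {X : Type*} {f : X → X} {A : Set X} (h : f ⁻¹' A = A) (n : ℕ) (q : X) :
    f^[n] q ∈ A ↔ q ∈ A := by
  induction n generalizing q with
  | zero => exact Iff.rfl
  | succ n ih =>
    rw [Function.iterate_succ_apply, ih]
    have : f q ∈ A ↔ q ∈ f ⁻¹' A := Iff.rfl
    rw [this, h]

open Classical in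
/-- the cost function -/
private noncomputable def GG26 (a b ε : ℝ) (K T : ℕ) (q : UnitAddCircle × (ℝ × ℝ)) : ℝ :=
  (∑ k ∈ Finset.range T, gq b (phi a (Z a (rev (nz ε K q.1) T) q.2.2 q.2.1 (k+1)))) +
      22 * Real.log b * ((∑ k ∈ Finset.range T,
        (if |v a (rev (nz ε K q.1) T) q.2.2 q.2.1 (k+1)| <
          |v a (rev (nz ε K q.1) T) q.2.2 q.2.1 k| then (1:ℝ) else 0)) +
        T * (if |v a (rev (nz ε K q.1) T) q.2.2 q.2.1 (T+1)| <
          |v a (rev (nz ε K q.1) T) q.2.2 q.2.1 T| then (1:ℝ) else 0))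

private lemma meas_rev26 (ε : ℝ) (K T : ℕ) (k : ℕ) :
    Measurable (fun θ : UnitAddCircle => rev (nz ε K θ) T k) := by
  simpa only [rev] using Pool.Agent.Helper18.SD.measurable_nz ε K (T - 1 - k)

private lemma meas_GG26 (a b ε : ℝ) (K T : ℕ) : Measurable (GG26 a b ε K T) := by
  have hc := meas_rev26 ε K T
  have hind : ∀ k, Measurable (fun q : UnitAddCircle × (ℝ × ℝ) =>
      (if |v a (rev (nz ε K q.1) T) q.2.2 q.2.1 (k+1)| <
          |v a (rev (nz ε K q.1) T) q.2.2 q.2.1 k| then (1:ℝ) else 0)) := fun k =>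
    Measurable.ite (measurableSet_lt (meas_v26 hc (k+1)).abs (meas_v26 hc k).abs)
      measurable_const measurable_const
  have hphi : Measurable (phi a) := (Pool.Agent.Helper78.SM.continuous_phi a).measurable
  unfold GG26
  refine Measurable.add ?_ (Measurable.const_mul (Measurable.add ?_ ((hind T).const_mul _)) _)
  · exact Finset.measurable_sum _ fun k _ => (meas_gq26 b).comp (hphi.comp (meas_Z26 hc (k+1)))
  · exact Finset.measurable_sum _ fun k _ => hind k

private lemma abs_GG26 {a b : ℝ} (hb : 1000 ≤ b) (ha : 1 ≤ |a|) (ε : ℝ) (K T : ℕ)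
    (q : UnitAddCircle × (ℝ × ℝ)) :
    |GG26 a b ε K T q| ≤ T * (9 * Real.log b + Real.log (10 * |a|)) +
      22 * Real.log b * (T + T) := by
  have hlog := log_one26 hb
  have h1 : |∑ k ∈ Finset.range T, gq b (phi a (Z a (rev (nz ε K q.1) T) q.2.2 q.2.1 (k+1)))| ≤
      T * (9 * Real.log b + Real.log (10 * |a|)) := by
    refine (Finset.abs_sum_le_sum_abs _ _).trans ?_
    refine (Finset.sum_le_sum fun k _ => abs_gq26 hb ha _).trans ?_
    rw [Finset.sum_const, Finset.card_range, nsmul_eq_mul]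
  have hind : ∀ P : Prop, [Decidable P] → |(if P then (1:ℝ) else 0)| ≤ 1 := by
    intro P _
    split_ifs <;> simp
  unfold GG26
  refine (abs_add_le _ _).trans (add_le_add h1 ?_)
  rw [abs_mul, abs_of_nonneg (by positivity : (0:ℝ) ≤ 22 * Real.log b)]
  apply mul_le_mul_of_nonneg_left _ (by positivity)
  refine (abs_add_le _ _).trans (add_le_add ?_ ?_)
  · refine (Finset.abs_sum_le_sum_abs _ _).trans ?_
    refine (Finset.sum_le_sum (g := fun _ => (1:ℝ)) fun k _ => hind _).trans ?_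
    rw [Finset.sum_const, Finset.card_range, nsmul_eq_mul, mul_one]
  · rw [abs_mul, Nat.abs_cast]
    exact mul_le_of_le_one_right (Nat.cast_nonneg _) (hind _)

private lemma per_GG26 (a b ε : ℝ) (K T : ℕ) (θ : UnitAddCircle) (p : ℝ × ℝ) (i j : ℤ) :
    GG26 a b ε K T (θ, (p.1 + i, p.2 + j)) = GG26 a b ε K T (θ, p) := by
  have hZ : ∀ k, phi a (Z a (rev (nz ε K θ) T) (p.2 + j) (p.1 + i) k) =
      phi a (Z a (rev (nz ε K θ) T) p.2 p.1 k) := by
    intro k
    rw [Pool.Agent.Helper18.SG.Z_shift]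
    have h : (Z a (rev (nz ε K θ) T) p.2 p.1 k + ((j : ℝ) + (k:ℝ) * ((i : ℝ) - (j : ℝ)))) =
        Z a (rev (nz ε K θ) T) p.2 p.1 k + ((j + (k : ℤ) * (i - j) : ℤ) : ℝ) := by
      push_cast; ring
    rw [h, Pool.Agent.Helper18.SG.phi_add_int]
  unfold GG26
  simp only [hZ, Pool.Agent.Helper18.SG.v_shift]

private lemma ind_mul26 {α : Type*} [MeasurableSpace α] {μ : Measure α} {S : Set α}
    (hS : MeasurableSet S) : ∫ q, S.indicator (1 : α → ℝ) q ∂μ = (μ S).toReal := by
  rw [integral_indicator_one hS, measureReal_def]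

open Classical in
private lemma point26 {a b ε : ℝ} (hb : 1000 ≤ b) (hab : |a| = b ^ 10) {K : ℕ} {A : Set T3}
    (hinv : (dr a ε K) ⁻¹' A = A) (T : ℕ) (θ : UnitAddCircle) (p : ℝ × ℝ) :
    2 * Real.log b * ∑ n ∈ Finset.Icc 1 T,
      ({q : UnitAddCircle × (ℝ × ℝ) | (q.1, mk2 q.2) ∈ A ∧
      ¬ HypS b (W a (nz ε K q.1) q.2.2 q.2.1) n}).indicator (1 : UnitAddCircle × (ℝ × ℝ) → ℝ) (θ, p) ≤
      (endA K T (sw ⁻¹' A)).indicator (GG26 a b ε K T)
        (θ, (Z a (nz ε K θ) p.2 p.1 T, Z a (nz ε K θ) p.2 p.1 (T+1))) := by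
  have hb1 : 1 < b := by linarith
  have hmem : (θ, (Z a (nz ε K θ) p.2 p.1 T, Z a (nz ε K θ) p.2 p.1 (T+1))) ∈ endA K T (sw ⁻¹' A) ↔
      (θ, mk2 p) ∈ A := by
    rw [← inv_iter26 hinv T (θ, mk2 p), Pool.Agent.Helper18.SD.dr_iter]
    exact Iff.rfl
  by_cases hA : (θ, mk2 p) ∈ A
  · rw [Set.indicator_of_mem (hmem.2 hA)]
    have h1 := Pool.Agent.Helper18.SG.not_hyp_count hb1 (V := W a (nz ε K θ) p.2 p.1)
      (fun k => Pool.Agent.Helper18.SG.W_pos a (nz ε K θ) p.2 p.1 k) T
    have h3 : (((Finset.Icc 1 T).filter (fun n => ¬ HypS b (W a (nz ε K θ) p.2 p.1) n)).card : ℝ) =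
        ∑ n ∈ Finset.Icc 1 T, ({q : UnitAddCircle × (ℝ × ℝ) | (q.1, mk2 q.2) ∈ A ∧
          ¬ HypS b (W a (nz ε K q.1) q.2.2 q.2.1) n}).indicator (1 : UnitAddCircle × (ℝ × ℝ) → ℝ) (θ, p) := by
      rw [Finset.card_filter]
      push_cast
      apply Finset.sum_congr rfl
      intro n _
      by_cases hs : HypS b (W a (nz ε K θ) p.2 p.1) n
      · rw [if_neg (not_not.2 hs), Set.indicator_of_notMem]
        intro h
        exact h.2 hs
      · rw [if_pos hs, Set.indicator_of_mem]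
        · rfl
        · exact ⟨hA, hs⟩
    rw [h3] at h1
    exact h1.trans (path_fwd hb hab (nz ε K θ) p.2 p.1 T)
  · rw [Set.indicator_of_notMem (fun h => hA (hmem.1 h))]
    have : ∑ n ∈ Finset.Icc 1 T, ({q : UnitAddCircle × (ℝ × ℝ) | (q.1, mk2 q.2) ∈ A ∧
          ¬ HypS b (W a (nz ε K q.1) q.2.2 q.2.1) n}).indicator (1 : UnitAddCircle × (ℝ × ℝ) → ℝ) (θ, p) = 0 := by
      apply Finset.sum_eq_zero
      intro n _
      rw [Set.indicator_of_notMem]
      intro h
      exact hA h.1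
    rw [this, mul_zero]

private lemma sum_ite26 (T j : ℕ) {V : ℝ} (hV : 0 ≤ V) :
    ∑ k ∈ Finset.range T, (if k = j then V else 0) = if j < T then V else 0 := by
  rw [Finset.sum_ite_eq']
  simp only [Finset.mem_range]

theorem sum_fwd {a b : ℝ} (hb : 1000 ≤ b) (hab : |a| = b ^ 10) {K : ℕ} (hK : 2 ≤ K) {ε : ℝ}
    (hε : 0 < ε) (hε4 : ε ≤ 1 / 4) (h : (K:ℝ) ^ 2 ≤ ε * b) {A : Set T3} (hA : MeasurableSet A)
    (hinv : (dr a ε K) ⁻¹' A = A) (T : ℕ) :
    ∑ n ∈ Finset.Icc 1 T, (mu {q | (q.1, mk2 q.2) ∈ A ∧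
      ¬ HypS b (W a (nz ε K q.1) q.2.2 q.2.1) n}).toReal ≤
      (16 + 107 * T / K) * (volume A).toReal := by
  have hb0 : 0 < b := by linarith
  have hb1 : 1 < b := by linarith
  have ha1 : 1 ≤ |a| := by rw [hab]; exact one_le_pow₀ hb1.le
  have hlog := log_one26 hb
  have hprob := prob_mu
  have hsq := Pool.Agent.Helper78.SM.prob_sq
  set B : Set T3 := sw ⁻¹' A with hBdef
  have hB : MeasurableSet B := mp_sw.measurable hA
  have hvB : volume B = volume A := mp_sw.measure_preimage hA.nullMeasurableSet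
  set E := endA K T B with hEdef
  have hE : MeasurableSet E := measurableSet_endA hB
  have hmE : mu E = volume A := by rw [hEdef, mu_endA hK T hB, hvB]
  set V : ℝ := (volume A).toReal with hVdef
  have hV0 : 0 ≤ V := ENNReal.toReal_nonneg
  set c := nz ε K with hc
  have hA0 : MeasurableSet {q : UnitAddCircle × (ℝ × ℝ) | (q.1, mk2 q.2) ∈ A} :=
    (measurable_fst.prodMk (Pool.Agent.Helper78.SM.mp_mk2.measurable.comp measurable_snd)) hA
  have hNn : ∀ n, MeasurableSet {q : UnitAddCircle × (ℝ × ℝ) | (q.1, mk2 q.2) ∈ A ∧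
      ¬ HypS b (W a (nz ε K q.1) q.2.2 q.2.1) n} := fun n =>
    hA0.inter (meas_hyp26 (Pool.Agent.Helper18.SD.measurable_nz ε K) n).compl
  have iind : ∀ {S : Set (UnitAddCircle × (ℝ × ℝ))}, MeasurableSet S →
      Integrable (S.indicator (1 : UnitAddCircle × (ℝ × ℝ) → ℝ)) mu := fun hS => (integrable_const (1:ℝ)).indicator hS
  -- the left hand side as an integral
  set F1 : UnitAddCircle × (ℝ × ℝ) → ℝ := fun q => 2 * Real.log b * ∑ n ∈ Finset.Icc 1 T,
      ({q : UnitAddCircle × (ℝ × ℝ) | (q.1, mk2 q.2) ∈ A ∧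
      ¬ HypS b (W a (nz ε K q.1) q.2.2 q.2.1) n}).indicator (1 : UnitAddCircle × (ℝ × ℝ) → ℝ) q with hF1
  set F2 : UnitAddCircle × (ℝ × ℝ) → ℝ := E.indicator (GG26 a b ε K T) with hF2
  have mF2 : Measurable F2 := (meas_GG26 a b ε K T).indicator hE
  obtain ⟨C2, hC2⟩ : ∃ C2, ∀ q, |F2 q| ≤ C2 := by
    refine ⟨T * (9 * Real.log b + Real.log (10 * |a|)) + 22 * Real.log b * (T + T), ?_⟩
    intro q
    rw [hF2]
    have h1 := abs_GG26 hb ha1 ε K T q
    by_cases hq : q ∈ E
    · rw [Set.indicator_of_mem hq]; exact h1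
    · rw [Set.indicator_of_notMem hq, abs_zero]
      exact (abs_nonneg _).trans h1
  have mF1 : Measurable F1 := by
    refine Measurable.const_mul (Finset.measurable_sum _ fun n _ => ?_) _
    exact measurable_one.indicator (hNn n)
  obtain ⟨C1, hC1⟩ : ∃ C1, ∀ q, |F1 q| ≤ C1 := by
    refine ⟨2 * Real.log b * ∑ n ∈ Finset.Icc 1 T, 1, ?_⟩
    intro q
    rw [hF1]
    simp only
    rw [abs_mul, abs_of_nonneg (by positivity : (0:ℝ) ≤ 2 * Real.log b)]
    apply mul_le_mul_of_nonneg_left _ (by positivity)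
    refine (Finset.abs_sum_le_sum_abs _ _).trans (Finset.sum_le_sum fun n _ => ?_)
    by_cases hq : q ∈ {q : UnitAddCircle × (ℝ × ℝ) | (q.1, mk2 q.2) ∈ A ∧
      ¬ HypS b (W a (nz ε K q.1) q.2.2 q.2.1) n}
    · rw [Set.indicator_of_mem hq]; simp
    · rw [Set.indicator_of_notMem hq]; simp
  have hle : ∫ q, F1 q ∂mu ≤ ∫ q, F2 q ∂mu := by
    have i1 : Integrable F1 mu := int_bdd26 mF1 hC1
    have i2 : Integrable F2 mu := int_bdd26 mF2 hC2
    have e1 : ∫ q, F1 q ∂mu = ∫ θ : UnitAddCircle, ∫ p in sq, F1 (θ, p) := by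
      unfold mu at i1 ⊢
      exact integral_prod _ i1
    have e2 : ∫ q, F2 q ∂mu = ∫ θ : UnitAddCircle, ∫ p in sq, F2 (θ, p) := by
      unfold mu at i2 ⊢
      exact integral_prod _ i2
    rw [e1, e2]
    unfold mu at i1 i2
    apply integral_mono i1.integral_prod_left i2.integral_prod_left
    intro θ
    show ∫ p in sq, F1 (θ, p) ≤ ∫ p in sq, F2 (θ, p)
    have mF2θ : Measurable (fun p : ℝ × ℝ => F2 (θ, p)) := mF2.comp measurable_prodMk_left
    have hst := Pool.Agent.Helper18.SD.int_state (a := a) (nz ε K θ) T (h := fun p => F2 (θ, p))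
      mF2θ (by
        intro p i j
        show E.indicator (GG26 a b ε K T) (θ, (p.1 + i, p.2 + j)) =
          E.indicator (GG26 a b ε K T) (θ, p)
        have hmem : (θ, ((p.1 + i, p.2 + j) : ℝ × ℝ)) ∈ E ↔ (θ, p) ∈ E := by
          show ((K ^ T) • θ, mk2 (p.1 + i, p.2 + j)) ∈ B ↔ ((K ^ T) • θ, mk2 p) ∈ B
          rw [mk2_shift26]
        by_cases hq : (θ, p) ∈ E
        · rw [Set.indicator_of_mem hq, Set.indicator_of_mem (hmem.2 hq), per_GG26]
        · rw [Set.indicator_of_notMem hq, Set.indicator_of_notMem (fun h => hq (hmem.1 h))])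
    rw [← hst]
    have hcont : Continuous (fun p : ℝ × ℝ =>
        ((Z a (nz ε K θ) p.2 p.1 T, Z a (nz ε K θ) p.2 p.1 (T+1)) : ℝ × ℝ)) :=
      ((Pool.Agent.Helper18.SG.continuous_Z a (nz ε K θ) T).comp continuous_swap).prodMk
        ((Pool.Agent.Helper18.SG.continuous_Z a (nz ε K θ) (T+1)).comp continuous_swap)
    apply integral_mono
    · exact int_bdd26 (mF1.comp measurable_prodMk_left) (fun p => hC1 _)
    · exact int_bdd26 (mF2θ.comp hcont.measurable) (fun p => hC2 _)
    · intro p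
      exact point26 hb hab hinv T θ p
  have hL : ∫ q, F1 q ∂mu = 2 * Real.log b * ∑ n ∈ Finset.Icc 1 T, (mu {q | (q.1, mk2 q.2) ∈ A ∧
      ¬ HypS b (W a (nz ε K q.1) q.2.2 q.2.1) n}).toReal := by
    rw [hF1, integral_const_mul, integral_finsetSum _ (fun n _ => iind (hNn n))]
    congr 1
    exact Finset.sum_congr rfl fun n _ => ind_mul26 (hNn n)
  -- the upper bound for the right hand side
  set Sk : ℕ → Set (UnitAddCircle × (ℝ × ℝ)) := fun k =>
    {q | |phi a (Z a (rev (nz ε K q.1) T) q.2.2 q.2.1 (k+1))| < 2 * b ^ 9} with hSk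
  have mS : ∀ k, MeasurableSet (Sk k) := fun k => measurableSet_lt
    ((Pool.Agent.Helper78.SM.continuous_phi a).measurable.comp
      (meas_Z26 (meas_rev26 ε K T) (k+1))).abs measurable_const
  set Bk : ℕ → Set (UnitAddCircle × (ℝ × ℝ)) := fun k =>
    Bad a (fun θ => rev (nz ε K θ) T) k with hBk
  have mBk : ∀ k, MeasurableSet (Bk k) := fun k =>
    Pool.Agent.Helper18.SD.measurableSet_Bad (meas_rev26 ε K T) k
  set U : UnitAddCircle × (ℝ × ℝ) → ℝ := fun q =>
    (∑ k ∈ Finset.range T, (9 * Real.log b * (E ∩ Sk k).indicator (1 : UnitAddCircle × (ℝ × ℝ) → ℝ) q +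
      1 / b ^ 8 * E.indicator (1 : UnitAddCircle × (ℝ × ℝ) → ℝ) q)) + 22 * Real.log b *
      ((∑ k ∈ Finset.range T, (E ∩ Bk k).indicator (1 : UnitAddCircle × (ℝ × ℝ) → ℝ) q) +
        T * (E ∩ Bk T).indicator (1 : UnitAddCircle × (ℝ × ℝ) → ℝ) q) with hU
  have iS : ∀ k, Integrable (fun q => 9 * Real.log b * (E ∩ Sk k).indicator (1 : UnitAddCircle × (ℝ × ℝ) → ℝ) q +
      1 / b ^ 8 * E.indicator (1 : UnitAddCircle × (ℝ × ℝ) → ℝ) q) mu := fun k =>
    ((iind (hE.inter (mS k))).const_mul _).add ((iind hE).const_mul _)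
  have iSum1 : Integrable (fun q => ∑ k ∈ Finset.range T,
      (9 * Real.log b * (E ∩ Sk k).indicator (1 : UnitAddCircle × (ℝ × ℝ) → ℝ) q +
      1 / b ^ 8 * E.indicator (1 : UnitAddCircle × (ℝ × ℝ) → ℝ) q)) mu := integrable_finsetSum _ fun k _ => iS k
  have iSum2 : Integrable (fun q => ∑ k ∈ Finset.range T, (E ∩ Bk k).indicator (1 : UnitAddCircle × (ℝ × ℝ) → ℝ) q) mu :=
    integrable_finsetSum _ fun k _ => iind (hE.inter (mBk k))
  have iSum3 : Integrable (fun q => (T:ℝ) * (E ∩ Bk T).indicator (1 : UnitAddCircle × (ℝ × ℝ) → ℝ) q) mu :=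
    (iind (hE.inter (mBk T))).const_mul _
  have iSum4 : Integrable (fun q => (∑ k ∈ Finset.range T, (E ∩ Bk k).indicator (1 : UnitAddCircle × (ℝ × ℝ) → ℝ) q) +
        T * (E ∩ Bk T).indicator (1 : UnitAddCircle × (ℝ × ℝ) → ℝ) q) mu := iSum2.add iSum3
  have hR : ∫ q, F2 q ∂mu ≤ ∫ q, U q ∂mu := by
    apply integral_mono (int_bdd26 mF2 hC2) (iSum1.add (iSum4.const_mul _))
    intro q
    show E.indicator (GG26 a b ε K T) q ≤ U q
    by_cases hq : q ∈ E
    · rw [Set.indicator_of_mem hq]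
      unfold GG26
      rw [hU]
      simp only
      have hindS : ∀ k, (E ∩ Sk k).indicator (1 : UnitAddCircle × (ℝ × ℝ) → ℝ) q =
          if |phi a (Z a (rev (nz ε K q.1) T) q.2.2 q.2.1 (k+1))| < 2 * b ^ 9 then 1 else 0 := by
        intro k
        by_cases hs : |phi a (Z a (rev (nz ε K q.1) T) q.2.2 q.2.1 (k+1))| < 2 * b ^ 9
        · rw [if_pos hs, Set.indicator_of_mem (show q ∈ E ∩ Sk k from ⟨hq, hs⟩)]
          rfl
        · rw [if_neg hs, Set.indicator_of_notMem (show q ∉ E ∩ Sk k from fun h => hs h.2)]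
      have hindB : ∀ k, (E ∩ Bk k).indicator (1 : UnitAddCircle × (ℝ × ℝ) → ℝ) q =
          if |v a (rev (nz ε K q.1) T) q.2.2 q.2.1 (k+1)| <
            |v a (rev (nz ε K q.1) T) q.2.2 q.2.1 k| then 1 else 0 := by
        intro k
        by_cases hs : |v a (rev (nz ε K q.1) T) q.2.2 q.2.1 (k+1)| <
            |v a (rev (nz ε K q.1) T) q.2.2 q.2.1 k|
        · rw [if_pos hs, Set.indicator_of_mem (show q ∈ E ∩ Bk k from ⟨hq, hs⟩)]
          rfl
        · rw [if_neg hs, Set.indicator_of_notMem (show q ∉ E ∩ Bk k from fun h => hs h.2)]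
      have hindE : E.indicator (1 : UnitAddCircle × (ℝ × ℝ) → ℝ) q = 1 := by
        rw [Set.indicator_of_mem hq]; rfl
      simp only [hindS, hindB, hindE]
      apply add_le_add _ le_rfl
      apply Finset.sum_le_sum
      intro k _
      refine (gq_le hb _).trans (le_of_eq ?_)
      rw [mul_ite, mul_one, mul_zero, mul_one]
    · rw [Set.indicator_of_notMem hq, hU]
      have h0 : ∀ S : Set (UnitAddCircle × (ℝ × ℝ)), (E ∩ S).indicator (1 : UnitAddCircle × (ℝ × ℝ) → ℝ) q = 0 :=
        fun S => Set.indicator_of_notMem (fun h => hq h.1) _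
      have h0' : E.indicator (1 : UnitAddCircle × (ℝ × ℝ) → ℝ) q = 0 := Set.indicator_of_notMem hq _
      simp only [h0, h0']
      simp
  have hUint : ∫ q, U q ∂mu = (∑ k ∈ Finset.range T, (9 * Real.log b * (mu (E ∩ Sk k)).toReal +
      1 / b ^ 8 * (mu E).toReal)) + 22 * Real.log b *
      ((∑ k ∈ Finset.range T, (mu (E ∩ Bk k)).toReal) + T * (mu (E ∩ Bk T)).toReal) := by
    rw [hU, integral_add iSum1 (iSum4.const_mul _), integral_const_mul, integral_add iSum2 iSum3,
      integral_const_mul, integral_finsetSum _ (fun k _ => iS k),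
      integral_finsetSum _ (fun k _ => iind (hE.inter (mBk k)))]
    congr 1
    · apply Finset.sum_congr rfl
      intro k _
      rw [integral_add ((iind (hE.inter (mS k))).const_mul _) ((iind hE).const_mul _),
        integral_const_mul, integral_const_mul, ind_mul26 (hE.inter (mS k)), ind_mul26 hE]
    · congr 2
      · exact Finset.sum_congr rfl fun k _ => ind_mul26 (hE.inter (mBk k))
      · rw [ind_mul26 (hE.inter (mBk T))]
  have hmono : ∀ S : Set (UnitAddCircle × (ℝ × ℝ)), (mu (E ∩ S)).toReal ≤ V := by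
    intro S
    rw [hVdef, ← hmE]
    exact ENNReal.toReal_mono (measure_ne_top _ _) (measure_mono Set.inter_subset_left)
  have hs : ∀ k ∈ Finset.range T, (mu (E ∩ Sk k)).toReal ≤ (if k = 0 then V else 0) + 4 / K * V := by
    intro k hk
    have hk' := Finset.mem_range.1 hk
    rcases Nat.eq_zero_or_pos k with rfl | hk0
    · rw [if_pos rfl]
      have := hmono (Sk 0)
      have h2 : 0 ≤ 4 / (K:ℝ) * V := by positivity
      linarith
    · rw [if_neg hk0.ne', zero_add]
      have := prob_small hb hab hK hε hε4 h (M := T) (k := k) hk0 hk'.le hB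
      rw [hvB] at this
      exact this
  have hbk : ∀ k, k ≤ T + 1 → (mu (E ∩ Bk k)).toReal ≤ (if k = 1 then V else 0) + 4 / K * V := by
    intro k hk
    have h2 : 0 ≤ 4 / (K:ℝ) * V := by positivity
    rcases Nat.lt_or_ge k 2 with hk2 | hk2
    · interval_cases k
      · have : E ∩ Bk 0 = ∅ := by
          ext q
          simp only [Set.mem_inter_iff, Set.mem_empty_iff_false, iff_false, not_and]
          intro _ hq
          have hq' : |v a (rev (nz ε K q.1) T) q.2.2 q.2.1 (0+1)| <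
            |v a (rev (nz ε K q.1) T) q.2.2 q.2.1 0| := hq
          rw [zero_add, Pool.Agent.Helper18.SG.v_one, Pool.Agent.Helper18.SG.v_zero] at hq'
          norm_num at hq'
        rw [this]
        simp only [measure_empty, ENNReal.toReal_zero]
        rw [if_neg (by norm_num), zero_add]
        exact h2
      · rw [if_pos rfl]
        have := hmono (Bk 1)
        linarith
    · rw [if_neg (by omega), zero_add]
      have := prob_bad hb hab hK hε hε4 h (M := T) (k := k) hk2 hk hB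
      rw [hvB] at this
      exact this
  -- numbers
  have hKr : (0:ℝ) < K := by
    have : 0 < K := by omega
    exact_mod_cast this
  have hK1 : (1:ℝ) ≤ K := by
    have : 1 ≤ K := by omega
    exact_mod_cast this
  have hKb : (K:ℝ) ≤ b := by nlinarith
  set x : ℝ := T / K with hx
  have hT0 : (0:ℝ) ≤ T := Nat.cast_nonneg T
  have hx0 : 0 ≤ x := by positivity
  have n1 : ∑ k ∈ Finset.range T, (9 * Real.log b * (mu (E ∩ Sk k)).toReal +
      1 / b ^ 8 * (mu E).toReal) ≤ 9 * Real.log b * (V + 4 * x * V) + Real.log b * x * V := by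
    rw [Finset.sum_add_distrib, ← Finset.mul_sum, Finset.sum_const, Finset.card_range, nsmul_eq_mul]
    have m1 : ∑ k ∈ Finset.range T, (mu (E ∩ Sk k)).toReal ≤ V + 4 * x * V := by
      refine (Finset.sum_le_sum hs).trans ?_
      rw [Finset.sum_add_distrib, sum_ite26 T 0 hV0, Finset.sum_const, Finset.card_range, nsmul_eq_mul]
      have e : (T:ℝ) * (4 / K * V) = 4 * x * V := by rw [hx]; ring
      rw [e]
      split_ifs <;> linarith
    have m2 : (T:ℝ) * (1 / b ^ 8 * (mu E).toReal) ≤ Real.log b * x * V := by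
      rw [hmE, ← hVdef]
      have e : Real.log b * x * V = (T:ℝ) * (Real.log b / K * V) := by rw [hx]; ring
      rw [e]
      apply mul_le_mul_of_nonneg_left _ hT0
      apply mul_le_mul_of_nonneg_right _ hV0
      rw [div_le_div_iff₀ (by positivity) hKr, one_mul]
      have hb8 : b ≤ b ^ 8 := le_self_pow₀ hb1.le (by norm_num)
      have : (K:ℝ) ≤ b ^ 8 := hKb.trans hb8
      nlinarith
    have m3 := mul_le_mul_of_nonneg_left m1 (by positivity : (0:ℝ) ≤ 9 * Real.log b)
    linarith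
  have n2 : (∑ k ∈ Finset.range T, (mu (E ∩ Bk k)).toReal) + T * (mu (E ∩ Bk T)).toReal ≤
      V + 8 * x * V := by
    have m1 : ∑ k ∈ Finset.range T, (mu (E ∩ Bk k)).toReal ≤
        (if 1 < T then V else 0) + 4 * x * V := by
      refine (Finset.sum_le_sum fun k hk => hbk k (by
        have := Finset.mem_range.1 hk
        omega)).trans ?_
      rw [Finset.sum_add_distrib, sum_ite26 T 1 hV0, Finset.sum_const, Finset.card_range, nsmul_eq_mul]
      have e : (T:ℝ) * (4 / K * V) = 4 * x * V := by rw [hx]; ring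
      rw [e]
    have m2 : (T:ℝ) * (mu (E ∩ Bk T)).toReal ≤ (if T = 1 then V else 0) + 4 * x * V := by
      have e : (T:ℝ) * (4 / K * V) = 4 * x * V := by rw [hx]; ring
      have := mul_le_mul_of_nonneg_left (hbk T (by omega)) hT0
      rw [mul_add, e] at this
      refine this.trans (add_le_add ?_ le_rfl)
      by_cases hT1 : T = 1
      · rw [if_pos hT1, hT1]; simp
      · rw [if_neg hT1, mul_zero]
    have m3 : (if 1 < T then V else 0) + (if T = 1 then V else 0) ≤ V := by
      by_cases hT1 : T = 1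
      · subst hT1; simp
      · rw [if_neg hT1]
        split_ifs <;> linarith
    linarith
  have hfin : 2 * Real.log b * ∑ n ∈ Finset.Icc 1 T, (mu {q | (q.1, mk2 q.2) ∈ A ∧
      ¬ HypS b (W a (nz ε K q.1) q.2.2 q.2.1) n}).toReal ≤
      2 * Real.log b * ((16 + 107 * x) * V) := by
    rw [← hL]
    refine hle.trans (hR.trans ?_)
    rw [hUint]
    have m3 := mul_le_mul_of_nonneg_left n2 (by positivity : (0:ℝ) ≤ 22 * Real.log b)
    have hVx : 0 ≤ x * V := mul_nonneg hx0 hV0
    have hlV : 0 ≤ Real.log b * V := by positivity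
    have hlVx : 0 ≤ Real.log b * (x * V) := by positivity
    nlinarith
  have h8 := le_of_mul_le_mul_left hfin (by linarith)
  have e : 107 * (T:ℝ) / K = 107 * x := by rw [hx]; ring
  rw [e]
  exact h8

end Pool.Agent.Helper18.SE
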