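import Mathlib
import Pool.Agent.Helper18.SE.Sums
import Pool.Agent.Helper18.SE.Prod
import Pool.Agent.Helper18.SD.Near

/-! Block SE-ERG: full ergodicity of the driven map for strong coupling.

`an θ` = area of `A ∩ Hyp n` in the fibre over `θ`, `bm θ` = area of `B ∩ Hyp' m` in the fibre over
`K ^ (n+m) θ`.
* `fiber_const`: `h θ = area {p ∈ sq | (θ, mk2 p) ∈ A}`; for invariant `A`, `h θ = h (K • θ)` for every `θ`,
  because `(θ, mk2 p) ∈ A` iff `(K • θ, mk2 (st a (nz θ) 1 p)) ∈ A` and the fibre map preserves the measure of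
  `T2` (`Helper78.SM.mp_shift`, `std_isStd`, `mp_mk2`; or `SD.int_state`). The circle map `K •` is ergodic
  (`AddCircle.ergodic_nsmul`), so `h` is a.e. constant (`Ergodic.ae_eq_const_of_ae_eq_comp` or similar), and
  its integral is `volume A`.
* `cross_ineq`: `SE.prod_ineq` for every `θ` with `c = nz θ`, `g1 p = f1 (θ, mk2 p)`,
  `g2 p = f2 (K^(n+m) • θ, mk2 p)`; `∫_{Hyp} g1 >= an θ - e1 θ`, `e1 θ = ∫_{sq} |f1 - 1_A| (θ, mk2 p)`, and
  the same for `g2`; for `x, y ∈ [0,1]`, `s, t >= 0`: `max 0 (x-s) * max 0 (y-t) >= x y - s - t`. Integrate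
  over `θ` (`SD.int_T3`, `SD.dr_iter`, `mp_pow`).
* `exists_times`: divide `sum_fwd` by `volume A` and `sum_rev` (for `Aᶜ`) by `volume Aᶜ`. For large `N` look
  at the `N - 2 n₁ + 1` pairs `(n, N-n)`, `n₁ <= n <= N - n₁`: the sum is at most `31 + 165 N / K <=
  31 + 33/40 N`, so one of them is at most `9/10`.
* `ergodic_dr`: let `α = volume A`, `β = 1 - α` both positive. `an <= α`, `bm <= β` a.e. (`fiber_const`),
  `∫ an = α - S n`, `∫ bm = β - R m`, and `(α - an) (β - bm) >= 0` gives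
  `∫ an bm >= α β (1 - S n / α - R m / β) >= α β / 10`. `f1`, `f2` Lipschitz approximations of the
  indicators with error `η` (from `SD.lip_dense`, `f = 2 * indicator - 1`, then `(f' + 1) / 2`); the right side
  of `cross_ineq` is at most `∫ 1_A (1_{Aᶜ} ∘ dr^N) + 2 η = 2 η`. For `η` small and `n, m` large this is a
  contradiction. (`R m` in `exists_times` is for `K ^ m • θ`; replace `θ` by `K ^ n • θ`, `mp_pow`.) -/

set_option autoImplicit false
open Real Set MeasureTheory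
open scoped ENNReal

namespace Pool.Agent.Helper18.SE

open Pool.Agent.Helper53.SM (T2)
open Pool.Agent.Helper78.SM (psi phi dphi sq csn snn mk2 gg)
open Pool.Agent.Helper18.SG (Z v W rev pbad HypS st loss)
open Pool.Agent.Helper18.SD (T3 dr nz Bad)

attribute [local instance] Pool.Agent.Helper53.SM.instProbU Pool.Agent.Helper53.SM.instProbT2

/-- area of `A` at the hyperbolic points for time `n` in the fibre over `θ` -/
noncomputable def an (a b ε : ℝ) (K : ℕ) (A : Set T3) (n : ℕ) (θ : UnitAddCircle) : ℝ :=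
  (volume {p : ℝ × ℝ | p ∈ sq ∧ (θ, mk2 p) ∈ A ∧ HypS b (W a (nz ε K θ) p.2 p.1) n}).toReal

/-- area of `B` at the points which are hyperbolic backwards for `m` steps in the end fibre -/
noncomputable def bm (a b ε : ℝ) (K : ℕ) (B : Set T3) (n m : ℕ) (θ : UnitAddCircle) : ℝ :=
  (volume {p : ℝ × ℝ | p ∈ sq ∧ ((K ^ (n+m)) • θ, mk2 p) ∈ B ∧
    HypS b (W a (rev (nz ε K θ) (n+m)) p.1 p.2) m}).toReal

theorem fiber_const {a ε : ℝ} {K : ℕ} (hK : 2 ≤ K) {A : Set T3} (hA : MeasurableSet A)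
    (hinv : (dr a ε K) ⁻¹' A = A) :
    ∀ᵐ θ : UnitAddCircle, (volume {p : ℝ × ℝ | p ∈ sq ∧ (θ, mk2 p) ∈ A}).toReal =
      (volume A).toReal := by
  -- area of the fibre as a measure on `T2`
  have hfib : ∀ θ : UnitAddCircle, MeasurableSet {q : T2 | (θ, q) ∈ A} := fun θ =>
    measurable_prodMk_left hA
  have e1 : ∀ θ : UnitAddCircle, volume {p : ℝ × ℝ | p ∈ sq ∧ (θ, mk2 p) ∈ A} =
      (volume : Measure T2) {q : T2 | (θ, q) ∈ A} := by
    intro θ
    have h2 := Pool.Agent.Helper78.SM.mp_mk2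
    have h3 := h2.measure_preimage (hfib θ).nullMeasurableSet
    rw [← h3, Measure.restrict_apply (h2.measurable (hfib θ))]
    congr 1
    ext p
    simp only [Set.mem_ofPred_eq, Set.mem_inter_iff, Set.mem_preimage]
    exact and_comm
  have hmeas : Measurable (fun θ : UnitAddCircle => (volume : Measure T2) {q : T2 | (θ, q) ∈ A}) :=
    measurable_measure_prodMk_left hA
  -- the fibre maps preserve the measure
  have e2 : ∀ θ : UnitAddCircle, (volume : Measure T2) {q : T2 | (K • θ, q) ∈ A} =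
      (volume : Measure T2) {q : T2 | (θ, q) ∈ A} := by
    intro θ
    have h3 : MeasurePreserving (Pool.Agent.Helper78.SM.shift (ε * snn θ) ∘
        Pool.Agent.Helper78.SM.std a) (volume : Measure T2) volume :=
      (Pool.Agent.Helper78.SM.mp_shift _).comp
        ((Pool.Agent.Helper78.SM.std_isStd a).measurePreserving)
    have h4 : (Pool.Agent.Helper78.SM.shift (ε * snn θ) ∘ Pool.Agent.Helper78.SM.std a) =
        fun q : T2 => ((q.1 + q.1 - q.2 + ((a * snn q.1 + ε * snn θ : ℝ) : UnitAddCircle),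
          q.1) : T2) := by
      funext q
      unfold Pool.Agent.Helper78.SM.shift Pool.Agent.Helper78.SM.std
      simp only [Function.comp]
      rw [AddCircle.coe_add, add_assoc]
    rw [h4] at h3
    rw [← h3.measure_preimage (hfib (K • θ)).nullMeasurableSet]
    congr 1
    ext q
    simp only [Set.mem_ofPred_eq, Set.mem_preimage]
    have h5 : ((θ, q) : T3) ∈ (dr a ε K) ⁻¹' A ↔ ((θ, q) : T3) ∈ A := by rw [hinv]
    exact h5
  have hK1 : 1 < K := by omega
  have herg := (AddCircle.ergodic_nsmul (T := (1:ℝ)) hK1)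
  obtain ⟨c, hc⟩ := herg.quasiErgodic.ae_eq_const_of_ae_eq_comp_ae
    (g := fun θ : UnitAddCircle => ((volume : Measure T2) {q : T2 | (θ, q) ∈ A}).toReal)
    hmeas.ennreal_toReal.aestronglyMeasurable
    (Filter.Eventually.of_forall fun θ => by
      show ((volume : Measure T2) {q : T2 | (K • θ, q) ∈ A}).toReal = _
      rw [e2 θ])
  have hint : ∫ θ : UnitAddCircle, ((volume : Measure T2) {q : T2 | (θ, q) ∈ A}).toReal =
      (volume A).toReal := by
    rw [integral_toReal hmeas.aemeasurable (Filter.Eventually.of_forall fun θ => measure_lt_top _ _)]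
    congr 1
    exact (Measure.prod_apply hA).symm
  have hc2 : c = (volume A).toReal := by
    rw [← hint, integral_congr_ae hc]
    simp
  filter_upwards [hc] with θ hθ
  rw [e1 θ, ← hc2]
  exact hθ

private lemma msq76 : MeasurableSet sq := measurableSet_Ioc.prod measurableSet_Ioc

private lemma mv76 {Ω : Type*} [MeasurableSpace Ω] {a : ℝ} {c : Ω → ℕ → ℝ}
    (hc : ∀ k, Measurable (fun ξ => c ξ k)) (k : ℕ) :
    Measurable (fun q : Ω × (ℝ × ℝ) => v a (c q.1) q.2.1 q.2.2 k) := by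
  have h1 : Measurable (fun q : Ω × (ℝ × ℝ) => ((c q.1, q.2) : (ℕ → ℝ) × (ℝ × ℝ))) := by
    refine Measurable.prodMk ?_ measurable_snd
    exact measurable_pi_iff.mpr fun i => (hc i).comp measurable_fst
  exact (Pool.Agent.Helper18.SG.continuous_vc a k).measurable.comp h1

private lemma mH76 {Ω : Type*} [MeasurableSpace Ω] {a b : ℝ} {c : Ω → ℕ → ℝ}
    (hc : ∀ k, Measurable (fun ξ => c ξ k)) (n : ℕ) :
    MeasurableSet {q : Ω × (ℝ × ℝ) | HypS b (W a (c q.1) q.2.1 q.2.2) n} := by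
  have hW : ∀ k, Measurable (fun q : Ω × (ℝ × ℝ) => W a (c q.1) q.2.1 q.2.2 k) := by
    intro k
    exact (mv76 hc (k+1)).abs.max (mv76 hc k).abs
  have he : {q : Ω × (ℝ × ℝ) | HypS b (W a (c q.1) q.2.1 q.2.2) n} = ⋂ (j : ℕ) (i : ℕ),
      {q : Ω × (ℝ × ℝ) | j ≤ i → i ≤ n →
        W a (c q.1) q.2.1 q.2.2 j * b ^ (9 * (i - j)) ≤
          b ^ (2 * (n - j)) * W a (c q.1) q.2.1 q.2.2 i} := by
    ext p
    simp only [HypS, Set.mem_ofPred_eq, Set.mem_iInter]
  rw [he]
  refine MeasurableSet.iInter fun j => MeasurableSet.iInter fun i => ?_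
  by_cases h1 : j ≤ i
  · by_cases h2 : i ≤ n
    · simp only [h1, h2, true_implies]
      exact measurableSet_le ((hW j).mul measurable_const) (measurable_const.mul (hW i))
    · simp only [h2, false_implies, implies_true, Set.ofPred_true, MeasurableSet.univ]
  · simp only [h1, false_implies, Set.ofPred_true, MeasurableSet.univ]

private lemma mH76' {Ω : Type*} [MeasurableSpace Ω] {a b : ℝ} {c : Ω → ℕ → ℝ}
    (hc : ∀ k, Measurable (fun ξ => c ξ k)) (n : ℕ) :
    MeasurableSet {q : Ω × (ℝ × ℝ) | HypS b (W a (c q.1) q.2.2 q.2.1) n} := by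
  have h1 : Measurable (fun q : Ω × (ℝ × ℝ) => ((q.1, (q.2.2, q.2.1)) : Ω × (ℝ × ℝ))) := by
    fun_prop
  exact h1 (mH76 hc n)

private lemma mmk76 : Measurable mk2 := Pool.Agent.Helper78.SM.mp_mk2.measurable

private lemma dmk76 (p q : ℝ × ℝ) : dist (mk2 p) (mk2 q) ≤ dist p q := by
  have h : ∀ x y : ℝ, dist (x : UnitAddCircle) (y : UnitAddCircle) ≤ dist x y := by
    intro x y
    rw [dist_eq_norm, dist_eq_norm, ← AddCircle.coe_sub]
    exact QuotientAddGroup.norm_mk_le_norm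
  unfold mk2
  rw [Prod.dist_eq, Prod.dist_eq]
  exact max_le_max (h _ _) (h _ _)

private lemma mk2s76 (p : ℝ × ℝ) (i j : ℤ) : mk2 (p.1 + i, p.2 + j) = mk2 p := by
  have h : ∀ (x : ℝ) (k : ℤ), ((x + k : ℝ) : UnitAddCircle) = (x : UnitAddCircle) := by
    intro x k
    rw [AddCircle.coe_add]
    have : ((k : ℝ) : UnitAddCircle) = 0 := by
      rw [AddCircle.coe_eq_zero_iff]
      exact ⟨k, by simp⟩
    rw [this, add_zero]
  unfold mk2
  simp only [h]

private lemma bdd76 {α : Type*} [MeasurableSpace α] {μ : Measure α} [IsFiniteMeasure μ] {h : α → ℝ}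
    (hm : Measurable h) {C : ℝ} (hC : ∀ x, |h x| ≤ C) : Integrable h μ := by
  apply Integrable.of_bound (C := C)
  · exact hm.aestronglyMeasurable
  · exact Filter.Eventually.of_forall fun p => by rw [Real.norm_eq_abs]; exact hC p

private lemma contL76 {α : Type*} [PseudoMetricSpace α] {f : α → ℝ} {L : ℝ} (hL : 0 ≤ L)
    (hf : ∀ p p', |f p - f p'| ≤ L * dist p p') : Continuous f := by
  have : LipschitzWith L.toNNReal f := by
    apply LipschitzWith.of_dist_le_mul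
    intro x y
    rw [Real.coe_toNNReal L hL, Real.dist_eq]
    exact hf x y
  exact this.continuous

private lemma fin76 : IsFiniteMeasure ((volume : Measure (ℝ × ℝ)).restrict sq) := by
  constructor
  rw [Measure.restrict_apply_univ, Pool.Agent.Helper78.SM.volume_sq]
  exact ENNReal.one_lt_top

private lemma meas_slice76 {h : T3 → ℝ} (hm : Measurable h) :
    Measurable (fun θ : UnitAddCircle => ∫ p in sq, h (θ, mk2 p)) := by
  have : SFinite ((volume : Measure (ℝ × ℝ)).restrict sq) := inferInstance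
  have h1 : Measurable (fun q : UnitAddCircle × (ℝ × ℝ) => h (q.1, mk2 q.2)) :=
    hm.comp (measurable_fst.prodMk (mmk76.comp measurable_snd))
  exact (h1.stronglyMeasurable.integral_prod_right' (ν := (volume : Measure (ℝ × ℝ)).restrict sq)).measurable

private lemma slice_bd76 {h : ℝ × ℝ → ℝ} {C : ℝ} (hh : ∀ p, |h p| ≤ C) :
    |∫ p in sq, h p| ≤ C := by
  have hv : (volume : Measure (ℝ × ℝ)) sq < ⊤ := by
    rw [Pool.Agent.Helper78.SM.volume_sq]; exact ENNReal.one_lt_top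
  have := norm_setIntegral_le_of_norm_le_const (μ := (volume : Measure (ℝ × ℝ))) (s := sq) (f := h)
    (C := C) hv (fun x _ => by rw [Real.norm_eq_abs]; exact hh x)
  rw [Measure.real, Pool.Agent.Helper78.SM.volume_sq, Real.norm_eq_abs] at this
  simpa using this

/-- lower bound for the integral over the good points -/
private lemma low76 {A : Set T3} (hA : MeasurableSet A) {H : Set (ℝ × ℝ)}
    {f : T3 → ℝ} (hf : Measurable f) (h0 : ∀ q, 0 ≤ f q) (h1 : ∀ q, f q ≤ 1) (θ : UnitAddCircle) :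
    (volume {p : ℝ × ℝ | p ∈ sq ∧ (θ, mk2 p) ∈ A ∧ p ∈ H}).toReal -
      (∫ p in sq, |f (θ, mk2 p) - A.indicator 1 (θ, mk2 p)|) ≤ ∫ p in sq ∩ H, f (θ, mk2 p) := by
  have hfin := fin76
  have hmm : Measurable (fun p : ℝ × ℝ => ((θ, mk2 p) : T3)) := measurable_const.prodMk mmk76
  have hA' : MeasurableSet {p : ℝ × ℝ | ((θ, mk2 p) : T3) ∈ A} := hmm hA
  have hI : Measurable (A.indicator (1 : T3 → ℝ)) := measurable_one.indicator hA
  have hIb : ∀ q, |A.indicator (1 : T3 → ℝ) q| ≤ 1 := by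
    intro q
    by_cases hq : q ∈ A
    · rw [Set.indicator_of_mem hq]; simp
    · rw [Set.indicator_of_notMem hq]; simp
  have hfb : ∀ q, |f q| ≤ 1 := fun q => by rw [abs_of_nonneg (h0 q)]; exact h1 q
  have hdi : ∀ q, |(|f q - A.indicator (1 : T3 → ℝ) q|)| ≤ 2 := by
    intro q
    rw [abs_abs]
    calc |f q - A.indicator (1 : T3 → ℝ) q| ≤ |f q| + |A.indicator (1 : T3 → ℝ) q| := abs_sub _ _
      _ ≤ 2 := by linarith [hfb q, hIb q]
  have hle : (volume : Measure (ℝ × ℝ)).restrict (sq ∩ H) ≤ (volume : Measure (ℝ × ℝ)).restrict sq :=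
    Measure.restrict_mono_set _ Set.inter_subset_left
  have i1 : IntegrableOn (fun p : ℝ × ℝ => |f (θ, mk2 p) - A.indicator (1 : T3 → ℝ) (θ, mk2 p)|) sq
      volume := bdd76 (((hf.comp hmm).sub (hI.comp hmm)).abs) (fun p => hdi (θ, mk2 p))
  have i2 : IntegrableOn (fun p : ℝ × ℝ => f (θ, mk2 p)) sq volume :=
    bdd76 (hf.comp hmm) (fun p => hfb (θ, mk2 p))
  have i3 : IntegrableOn (fun p : ℝ × ℝ => A.indicator (1 : T3 → ℝ) (θ, mk2 p)) sq volume :=
    bdd76 (hI.comp hmm) (fun p => hIb (θ, mk2 p))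
  have k1 : Integrable (fun p : ℝ × ℝ => |f (θ, mk2 p) - A.indicator (1 : T3 → ℝ) (θ, mk2 p)|)
      ((volume : Measure (ℝ × ℝ)).restrict (sq ∩ H)) := Integrable.mono_measure i1 hle
  have k2 : Integrable (fun p : ℝ × ℝ => f (θ, mk2 p))
      ((volume : Measure (ℝ × ℝ)).restrict (sq ∩ H)) := Integrable.mono_measure i2 hle
  have k3 : Integrable (fun p : ℝ × ℝ => A.indicator (1 : T3 → ℝ) (θ, mk2 p))
      ((volume : Measure (ℝ × ℝ)).restrict (sq ∩ H)) := Integrable.mono_measure i3 hle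
  have e1 : (volume {p : ℝ × ℝ | p ∈ sq ∧ (θ, mk2 p) ∈ A ∧ p ∈ H}).toReal =
      ∫ p in sq ∩ H, A.indicator (1 : T3 → ℝ) (θ, mk2 p) := by
    have e2 : (fun p : ℝ × ℝ => A.indicator (1 : T3 → ℝ) (θ, mk2 p)) =
        {p : ℝ × ℝ | ((θ, mk2 p) : T3) ∈ A}.indicator (fun _ => (1:ℝ)) := by
      funext p
      by_cases hq : ((θ, mk2 p) : T3) ∈ A
      · rw [Set.indicator_of_mem hq, Set.indicator_of_mem (show p ∈ {p : ℝ × ℝ | ((θ, mk2 p) : T3) ∈ A} from hq)]
        rfl
      · rw [Set.indicator_of_notMem hq, Set.indicator_of_notMem (show p ∉ {p : ℝ × ℝ | ((θ, mk2 p) : T3) ∈ A} from hq)]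
    rw [e2, setIntegral_indicator hA', setIntegral_const, smul_eq_mul, mul_one, Measure.real]
    congr 2
    ext p
    simp only [Set.mem_inter_iff, Set.mem_ofPred_eq]
    tauto
  have hs : ∫ p in sq ∩ H, |f (θ, mk2 p) - A.indicator (1 : T3 → ℝ) (θ, mk2 p)| ≤
      ∫ p in sq, |f (θ, mk2 p) - A.indicator (1 : T3 → ℝ) (θ, mk2 p)| :=
    setIntegral_mono_set i1 (Filter.Eventually.of_forall fun p => abs_nonneg _)
      (Set.inter_subset_left.eventuallyLE)
  have hm : ∫ p in sq ∩ H, (A.indicator (1 : T3 → ℝ) (θ, mk2 p) - f (θ, mk2 p)) ≤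
      ∫ p in sq ∩ H, |f (θ, mk2 p) - A.indicator (1 : T3 → ℝ) (θ, mk2 p)| := by
    refine integral_mono (k3.sub k2) k1 ?_
    intro p
    show A.indicator (1 : T3 → ℝ) (θ, mk2 p) - f (θ, mk2 p) ≤ |f (θ, mk2 p) - A.indicator (1 : T3 → ℝ) (θ, mk2 p)|
    rw [abs_sub_comm]
    exact le_abs_self _
  rw [integral_sub k3 k2] at hm
  rw [e1]
  linarith

private lemma el76 {x y s t X Y : ℝ} (hx0 : 0 ≤ x) (hx1 : x ≤ 1) (hy0 : 0 ≤ y) (hy1 : y ≤ 1)
    (hs : 0 ≤ s) (ht : 0 ≤ t) (hX : x - s ≤ X) (hY : y - t ≤ Y) :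
    x * y - s - t ≤ max 0 X * max 0 Y := by
  have h1 : 0 ≤ max 0 X := le_max_left _ _
  have h2 : 0 ≤ max 0 Y := le_max_left _ _
  have h3 : X ≤ max 0 X := le_max_right _ _
  have h4 : Y ≤ max 0 Y := le_max_right _ _
  by_cases c1 : x ≤ s
  · have : x * y ≤ x := by nlinarith
    have h5 := mul_nonneg h1 h2
    linarith
  · by_cases c2 : y ≤ t
    · have : x * y ≤ y := by nlinarith
      have h5 := mul_nonneg h1 h2
      linarith
    · push Not at c1 c2
      have h5 : (x - s) * (y - t) ≤ max 0 X * max 0 Y :=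
        mul_le_mul (hX.trans h3) (hY.trans h4) (by linarith) h1
      nlinarith

private lemma tr76 {S : Set (ℝ × ℝ)} (hS : ∀ p ∈ S, p ∈ sq) : (volume S).toReal ≤ 1 := by
  have h : volume S ≤ volume sq := measure_mono hS
  rw [Pool.Agent.Helper78.SM.volume_sq] at h
  have := ENNReal.toReal_mono ENNReal.one_ne_top h
  simpa using this

private lemma mnz76 (ε : ℝ) (K k : ℕ) : Measurable (fun θ : UnitAddCircle => nz ε K θ k) :=
  Pool.Agent.Helper18.SD.measurable_nz ε K k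

private lemma man76 (a b ε : ℝ) (K : ℕ) {A : Set T3} (hA : MeasurableSet A) (n : ℕ) :
    Measurable (an a b ε K A n) := by
  have hs : MeasurableSet {q : UnitAddCircle × (ℝ × ℝ) | q.2 ∈ sq ∧ (q.1, mk2 q.2) ∈ A ∧
      HypS b (W a (nz ε K q.1) q.2.2 q.2.1) n} := by
    have h1 : Measurable (fun q : UnitAddCircle × (ℝ × ℝ) => ((q.1, mk2 q.2) : T3)) :=
      measurable_fst.prodMk (mmk76.comp measurable_snd)
    exact (measurable_snd msq76).inter ((h1 hA).inter (mH76' (fun k => mnz76 ε K k) n))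
  exact (measurable_measure_prodMk_left (ν := (volume : Measure (ℝ × ℝ))) hs).ennreal_toReal

private lemma mbm76 (a b ε : ℝ) (K : ℕ) {B : Set T3} (hB : MeasurableSet B) (n m : ℕ) :
    Measurable (bm a b ε K B n m) := by
  have hs : MeasurableSet {q : UnitAddCircle × (ℝ × ℝ) | q.2 ∈ sq ∧
      ((K ^ (n+m)) • q.1, mk2 q.2) ∈ B ∧
      HypS b (W a (rev (nz ε K q.1) (n+m)) q.2.1 q.2.2) m} := by
    have h0 : Measurable (fun θ : UnitAddCircle => (K ^ (n+m)) • θ) :=
      (continuous_nsmul (K ^ (n+m))).measurable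
    have h1 : Measurable (fun q : UnitAddCircle × (ℝ × ℝ) => (((K ^ (n+m)) • q.1, mk2 q.2) : T3)) :=
      (h0.comp measurable_fst).prodMk (mmk76.comp measurable_snd)
    exact (measurable_snd msq76).inter ((h1 hB).inter
      (mH76 (c := fun θ => rev (nz ε K θ) (n+m)) (fun k => mnz76 ε K _) m))
  exact (measurable_measure_prodMk_left (ν := (volume : Measure (ℝ × ℝ))) hs).ennreal_toReal

theorem cross_ineq {a b ε : ℝ} (hb : 10000 ≤ b) (hab : |a| = b ^ 10) {K : ℕ} (hK : 2 ≤ K)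
    {n m : ℕ} (hn : 1 ≤ n) (hm : 1 ≤ m) {L : ℝ} (hL : 0 ≤ L) {A B : Set T3}
    (hA : MeasurableSet A) (hB : MeasurableSet B) {f1 f2 : T3 → ℝ}
    (h10 : ∀ q, 0 ≤ f1 q) (h11 : ∀ q, f1 q ≤ 1) (h1L : ∀ p q, |f1 p - f1 q| ≤ L * dist p q)
    (h20 : ∀ q, 0 ≤ f2 q) (h21 : ∀ q, f2 q ≤ 1) (h2L : ∀ p q, |f2 p - f2 q| ≤ L * dist p q) :
    (1 - 1 / b) * ((∫ θ : UnitAddCircle, an a b ε K A n θ * bm a b ε K B n m θ) -
      (∫ q, |f1 q - A.indicator 1 q|) - (∫ q, |f2 q - B.indicator 1 q|) -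
      L * (b ^ 2 / b ^ (7 * n)) - L * (b ^ 2 / b ^ (7 * m))) ≤
      ∫ q, f1 q * f2 ((dr a ε K)^[n+m] q) := by
  have mf1 : Measurable f1 := (contL76 hL h1L).measurable
  have mf2 : Measurable f2 := (contL76 hL h2L).measurable
  have b1 : ∀ q, |f1 q| ≤ 1 := fun q => by rw [abs_of_nonneg (h10 q)]; exact h11 q
  have b2 : ∀ q, |f2 q| ≤ 1 := fun q => by rw [abs_of_nonneg (h20 q)]; exact h21 q
  have hb0 : 0 < b := by linarith
  have hl1 : 0 ≤ L * (b ^ 2 / b ^ (7 * n)) := by positivity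
  have hl2 : 0 ≤ L * (b ^ 2 / b ^ (7 * m)) := by positivity
  have hk : 0 ≤ 1 - 1 / b := by
    have : 1 / b ≤ 1 := by rw [div_le_one hb0]; linarith
    linarith
  have hIb : ∀ (C : Set T3) (q : T3), |C.indicator (1 : T3 → ℝ) q| ≤ 1 := by
    intro C q
    by_cases hq : q ∈ C
    · rw [Set.indicator_of_mem hq]; simp
    · rw [Set.indicator_of_notMem hq]; simp
  set d1 : T3 → ℝ := fun q => |f1 q - A.indicator 1 q| with hd1
  set d2 : T3 → ℝ := fun q => |f2 q - B.indicator 1 q| with hd2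
  have md1 : Measurable d1 := (mf1.sub (measurable_one.indicator hA)).abs
  have md2 : Measurable d2 := (mf2.sub (measurable_one.indicator hB)).abs
  have bd1 : ∀ q, |d1 q| ≤ 2 := by
    intro q
    rw [hd1]
    simp only [abs_abs]
    exact (abs_sub _ _).trans (by linarith [b1 q, hIb A q])
  have bd2 : ∀ q, |d2 q| ≤ 2 := by
    intro q
    rw [hd2]
    simp only [abs_abs]
    exact (abs_sub _ _).trans (by linarith [b2 q, hIb B q])
  set e1 : UnitAddCircle → ℝ := fun θ => ∫ p in sq, d1 (θ, mk2 p) with he1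
  set e2 : UnitAddCircle → ℝ := fun θ => ∫ p in sq, d2 (θ, mk2 p) with he2
  have me1 : Measurable e1 := meas_slice76 md1
  have me2 : Measurable e2 := meas_slice76 md2
  have e10 : ∀ θ, 0 ≤ e1 θ := fun θ => integral_nonneg fun p => abs_nonneg _
  have e20 : ∀ θ, 0 ≤ e2 θ := fun θ => integral_nonneg fun p => abs_nonneg _
  have e1b : ∀ θ, |e1 θ| ≤ 2 := fun θ => slice_bd76 fun p => bd1 _
  have e2b : ∀ θ, |e2 θ| ≤ 2 := fun θ => slice_bd76 fun p => bd2 _
  have hmp := Pool.Agent.Helper18.SD.mp_pow hK (n+m)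
  have hE1 : ∫ θ, e1 θ = ∫ q, d1 q := (Pool.Agent.Helper18.SD.int_T3 md1 bd1).symm
  have hE2 : ∫ θ : UnitAddCircle, e2 ((K ^ (n+m)) • θ) = ∫ q, d2 q := by
    have h2 := integral_map (μ := (volume : Measure UnitAddCircle)) hmp.measurable.aemeasurable
      (f := e2) me2.aestronglyMeasurable
    rw [hmp.map_eq] at h2
    rw [← h2]
    exact (Pool.Agent.Helper18.SD.int_T3 md2 bd2).symm
  have hd : ∀ (θ : UnitAddCircle) (p p' : ℝ × ℝ), dist ((θ, mk2 p) : T3) (θ, mk2 p') ≤ dist p p' := by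
    intro θ p p'
    rw [Prod.dist_eq]
    simp only [dist_self]
    exact max_le dist_nonneg (dmk76 p p')
  -- pointwise inequality
  have hθ : ∀ θ : UnitAddCircle, (1 - 1 / b) * (an a b ε K A n θ * bm a b ε K B n m θ - e1 θ -
      e2 ((K ^ (n+m)) • θ) - L * (b ^ 2 / b ^ (7 * n)) - L * (b ^ 2 / b ^ (7 * m))) ≤
      ∫ p in sq, f1 (θ, mk2 p) * f2 ((dr a ε K)^[n+m] (θ, mk2 p)) := by
    intro θ
    have hp := prod_ineq hb hab (nz ε K θ) hn hm hL (g1 := fun p => f1 (θ, mk2 p))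
      (g2 := fun p => f2 ((K ^ (n+m)) • θ, mk2 p)) (fun p => h10 _) (fun p => h11 _)
      (fun p p' => (h1L _ _).trans (mul_le_mul_of_nonneg_left (hd θ p p') hL))
      (fun p => h20 _) (fun p => h21 _)
      (fun p p' => (h2L _ _).trans (mul_le_mul_of_nonneg_left (hd _ p p') hL))
      (fun p i j => by simp only [mk2s76])
    have er : ∀ p, f1 (θ, mk2 p) * f2 ((dr a ε K)^[n+m] (θ, mk2 p)) =
        f1 (θ, mk2 p) * f2 ((K ^ (n+m)) • θ, mk2 (st a (nz ε K θ) (n+m) p)) := by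
      intro p
      rw [Pool.Agent.Helper18.SD.dr_iter]
    simp_rw [er]
    refine le_trans ?_ hp
    apply mul_le_mul_of_nonneg_left _ hk
    have lo1 := low76 (H := {p : ℝ × ℝ | HypS b (W a (nz ε K θ) p.2 p.1) n}) hA mf1 h10 h11 θ
    have lo2 := low76 (H := {p : ℝ × ℝ | HypS b (W a (rev (nz ε K θ) (n+m)) p.1 p.2) m}) hB mf2
      h20 h21 ((K ^ (n+m)) • θ)
    have lo1' : an a b ε K A n θ - e1 θ ≤
        ∫ p in sq ∩ {p : ℝ × ℝ | HypS b (W a (nz ε K θ) p.2 p.1) n}, f1 (θ, mk2 p) := lo1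
    have lo2' : bm a b ε K B n m θ - e2 ((K ^ (n+m)) • θ) ≤
        ∫ p in sq ∩ {p : ℝ × ℝ | HypS b (W a (rev (nz ε K θ) (n+m)) p.1 p.2) m},
          f2 ((K ^ (n+m)) • θ, mk2 p) := lo2
    have ha0 : 0 ≤ an a b ε K A n θ := ENNReal.toReal_nonneg
    have ha1 : an a b ε K A n θ ≤ 1 := tr76 fun p hp => hp.1
    have hb0' : 0 ≤ bm a b ε K B n m θ := ENNReal.toReal_nonneg
    have hb1' : bm a b ε K B n m θ ≤ 1 := tr76 fun p hp => hp.1
    have := el76 (s := e1 θ + L * (b ^ 2 / b ^ (7 * n)))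
      (t := e2 ((K ^ (n+m)) • θ) + L * (b ^ 2 / b ^ (7 * m))) ha0 ha1 hb0' hb1'
      (add_nonneg (e10 θ) hl1) (add_nonneg (e20 _) hl2)
      (X := (∫ p in sq ∩ {p : ℝ × ℝ | HypS b (W a (nz ε K θ) p.2 p.1) n}, f1 (θ, mk2 p)) -
        L * (b ^ 2 / b ^ (7 * n)))
      (Y := (∫ p in sq ∩ {p : ℝ × ℝ | HypS b (W a (rev (nz ε K θ) (n+m)) p.1 p.2) m},
          f2 ((K ^ (n+m)) • θ, mk2 p)) - L * (b ^ 2 / b ^ (7 * m)))
      (by linarith) (by linarith)
    linarith
  -- integrate over the circle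
  have mab : Measurable (fun θ => an a b ε K A n θ * bm a b ε K B n m θ) :=
    (man76 a b ε K hA n).mul (mbm76 a b ε K hB n m)
  have iab : Integrable (fun θ => an a b ε K A n θ * bm a b ε K B n m θ) volume := by
    apply bdd76 mab (C := 1)
    intro θ
    have ha0 : 0 ≤ an a b ε K A n θ := ENNReal.toReal_nonneg
    have ha1 : an a b ε K A n θ ≤ 1 := tr76 fun p hp => hp.1
    have hb0' : 0 ≤ bm a b ε K B n m θ := ENNReal.toReal_nonneg
    have hb1' : bm a b ε K B n m θ ≤ 1 := tr76 fun p hp => hp.1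
    rw [abs_of_nonneg (mul_nonneg ha0 hb0')]
    nlinarith
  have ie1 : Integrable e1 volume := bdd76 me1 e1b
  have ie2 : Integrable (fun θ : UnitAddCircle => e2 ((K ^ (n+m)) • θ)) volume :=
    bdd76 (me2.comp hmp.measurable) (fun θ => e2b _)
  have mF : Measurable (fun q : T3 => f1 q * f2 ((dr a ε K)^[n+m] q)) :=
    mf1.mul (mf2.comp ((Pool.Agent.Helper18.SD.measurable_dr a ε K).iterate _))
  have bF : ∀ q : T3, |f1 q * f2 ((dr a ε K)^[n+m] q)| ≤ 1 := by
    intro q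
    rw [abs_mul]
    have := mul_le_mul (b1 q) (b2 ((dr a ε K)^[n+m] q)) (abs_nonneg _) (by norm_num)
    linarith
  have mR : Measurable (fun θ : UnitAddCircle => ∫ p in sq, f1 (θ, mk2 p) *
      f2 ((dr a ε K)^[n+m] (θ, mk2 p))) := meas_slice76 mF
  have iR : Integrable (fun θ : UnitAddCircle => ∫ p in sq, f1 (θ, mk2 p) *
      f2 ((dr a ε K)^[n+m] (θ, mk2 p))) volume := bdd76 mR (fun θ => slice_bd76 fun p => bF _)
  have j1 : Integrable (fun θ : UnitAddCircle => an a b ε K A n θ * bm a b ε K B n m θ - e1 θ) volume :=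
    iab.sub ie1
  have j2 : Integrable (fun θ : UnitAddCircle => an a b ε K A n θ * bm a b ε K B n m θ - e1 θ -
      e2 ((K ^ (n+m)) • θ)) volume := j1.sub ie2
  have j3 : Integrable (fun θ : UnitAddCircle => an a b ε K A n θ * bm a b ε K B n m θ - e1 θ -
      e2 ((K ^ (n+m)) • θ) - L * (b ^ 2 / b ^ (7 * n))) volume := j2.sub (integrable_const _)
  have j4 : Integrable (fun θ : UnitAddCircle => an a b ε K A n θ * bm a b ε K B n m θ - e1 θ -
      e2 ((K ^ (n+m)) • θ) - L * (b ^ 2 / b ^ (7 * n)) - L * (b ^ 2 / b ^ (7 * m))) volume :=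
    j3.sub (integrable_const _)
  have hmono := integral_mono (j4.const_mul (1 - 1 / b)) iR hθ
  rw [← Pool.Agent.Helper18.SD.int_T3 mF bF, integral_const_mul, integral_sub j3 (integrable_const _),
    integral_sub j2 (integrable_const _), integral_sub j1 ie2, integral_sub iab ie1, hE1, hE2,
    integral_const, integral_const] at hmono
  simpa using hmono

theorem exists_times {a b : ℝ} (hb : 1000 ≤ b) (hab : |a| = b ^ 10) {K : ℕ} (hK : 200 ≤ K) {ε : ℝ}
    (hε : 0 < ε) (hε4 : ε ≤ 1 / 4) (h : (K:ℝ) ^ 2 ≤ ε * b) {A : Set T3} (hA : MeasurableSet A)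
    (hinv : (dr a ε K) ⁻¹' A = A) (h0 : 0 < (volume A).toReal) (h1 : 0 < (volume Aᶜ).toReal)
    (n₁ : ℕ) :
    ∃ n m : ℕ, n₁ ≤ n ∧ n₁ ≤ m ∧
      (mu {q | (q.1, mk2 q.2) ∈ A ∧ ¬ HypS b (W a (nz ε K q.1) q.2.2 q.2.1) n}).toReal /
        (volume A).toReal +
      (mu {q | ((K ^ m) • q.1, mk2 q.2) ∈ Aᶜ ∧
        ¬ HypS b (W a (rev (nz ε K q.1) m) q.2.1 q.2.2) m}).toReal / (volume Aᶜ).toReal ≤ 9 / 10 := by
  have hK2 : 2 ≤ K := by omega
  set F : ℕ → ℝ := fun n => (mu {q | (q.1, mk2 q.2) ∈ A ∧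
    ¬ HypS b (W a (nz ε K q.1) q.2.2 q.2.1) n}).toReal / (volume A).toReal with hF
  set G : ℕ → ℝ := fun m => (mu {q | ((K ^ m) • q.1, mk2 q.2) ∈ Aᶜ ∧
    ¬ HypS b (W a (rev (nz ε K q.1) m) q.2.1 q.2.2) m}).toReal / (volume Aᶜ).toReal with hG
  have hF0 : ∀ n, 0 ≤ F n := fun n => div_nonneg ENNReal.toReal_nonneg h0.le
  have hG0 : ∀ n, 0 ≤ G n := fun n => div_nonneg ENNReal.toReal_nonneg h1.le
  have hFs : ∀ T : ℕ, ∑ n ∈ Finset.Icc 1 T, F n ≤ 16 + 107 * T / K := by
    intro T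
    have := sum_fwd hb hab hK2 hε hε4 h hA hinv T
    rw [hF, ← Finset.sum_div, div_le_iff₀ h0]
    exact this
  have hGs : ∀ T : ℕ, ∑ n ∈ Finset.Icc 1 T, G n ≤ 15 + 58 * T / K := by
    intro T
    have := sum_rev hb hab hK2 hε hε4 h hA.compl T
    rw [hG, ← Finset.sum_div, div_le_iff₀ h1]
    exact this
  by_contra hcon
  push Not at hcon
  have hcon' : ∀ n m : ℕ, n₁ ≤ n → n₁ ≤ m → 9 / 10 < F n + G m := hcon
  obtain ⟨s, hs⟩ : ∃ s : ℕ, s = n₁ + 1 := ⟨_, rfl⟩
  obtain ⟨N, hN⟩ : ∃ N : ℕ, N = 600 + 30 * s := ⟨_, rfl⟩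
  have hlow : (9 / 10 : ℝ) * (N - 2 * s + 1) ≤
      ∑ n ∈ Finset.Icc s (N - s), (F n + G (N - n)) := by
    have h2 : ∑ n ∈ Finset.Icc s (N - s), (9 / 10 : ℝ) ≤
        ∑ n ∈ Finset.Icc s (N - s), (F n + G (N - n)) := by
      apply Finset.sum_le_sum
      intro n hn
      rw [Finset.mem_Icc] at hn
      exact (hcon' n (N - n) (by omega) (by omega)).le
    rw [Finset.sum_const, Nat.card_Icc, nsmul_eq_mul] at h2
    have h3 : ((N - s + 1 - s : ℕ) : ℝ) = N - 2 * s + 1 := by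
      have h4 : N - s + 1 - s + 2 * s = N + 1 := by omega
      have h5 : ((N - s + 1 - s : ℕ) : ℝ) + 2 * s = N + 1 := by exact_mod_cast h4
      linarith
    rw [h3] at h2
    linarith
  have hsum : ∑ n ∈ Finset.Icc s (N - s), (F n + G (N - n)) ≤
      (∑ n ∈ Finset.Icc 1 N, F n) + (∑ n ∈ Finset.Icc 1 N, G n) := by
    rw [Finset.sum_add_distrib]
    apply add_le_add
    · apply Finset.sum_le_sum_of_subset_of_nonneg
      · intro n hn
        rw [Finset.mem_Icc] at hn ⊢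
        omega
      · intro n _ _
        exact hF0 n
    · have h2 : ∑ n ∈ Finset.Icc s (N - s), G (N - n) = ∑ n ∈ Finset.Icc s (N - s), G n := by
        apply Finset.sum_nbij' (fun n => N - n) (fun n => N - n)
        · intro n hn
          rw [Finset.mem_Icc] at hn ⊢
          omega
        · intro n hn
          rw [Finset.mem_Icc] at hn ⊢
          omega
        · intro n hn
          rw [Finset.mem_Icc] at hn
          omega
        · intro n hn
          rw [Finset.mem_Icc] at hn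
          omega
        · intro n hn
          rfl
      rw [h2]
      apply Finset.sum_le_sum_of_subset_of_nonneg
      · intro n hn
        rw [Finset.mem_Icc] at hn ⊢
        omega
      · intro n _ _
        exact hG0 n
  have hKr : (200:ℝ) ≤ K := by exact_mod_cast hK
  have hKN : 165 * (N:ℝ) / K ≤ 33 / 40 * N := by
    rw [div_le_iff₀ (by linarith)]
    have : (0:ℝ) ≤ N := Nat.cast_nonneg N
    nlinarith
  have hsumF := hFs N
  have hsumG := hGs N
  have e3 : 107 * (N:ℝ) / K + 58 * N / K = 165 * N / K := by ring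
  have hNr : (N:ℝ) = 600 + 30 * s := by rw [hN]; push_cast; ring
  have hs0 : (0:ℝ) ≤ s := Nat.cast_nonneg s
  clear hcon hcon'
  linarith

private noncomputable def fib67 (D : Set (UnitAddCircle × (ℝ × ℝ))) (θ : UnitAddCircle) : ℝ :=
  (volume {p : ℝ × ℝ | p ∈ sq ∧ (θ, p) ∈ D}).toReal

private lemma sqm67 : MeasurableSet sq := measurableSet_Ioc.prod measurableSet_Ioc

private lemma sqv67 : volume (sq : Set (ℝ × ℝ)) = 1 := by
  unfold Pool.Agent.Helper78.SM.sq
  rw [Measure.volume_eq_prod, Measure.prod_prod, Real.volume_Ioc]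
  norm_num

private lemma fin67 (s : Set (ℝ × ℝ)) (hs : s ⊆ sq) : volume s ≠ ⊤ :=
  ((measure_mono hs).trans_lt (by rw [sqv67]; exact ENNReal.one_lt_top)).ne

private lemma fib_nonneg67 (D : Set (UnitAddCircle × (ℝ × ℝ))) (θ : UnitAddCircle) :
    0 ≤ fib67 D θ := ENNReal.toReal_nonneg

private lemma fib_le67 (D : Set (UnitAddCircle × (ℝ × ℝ))) (θ : UnitAddCircle) :
    fib67 D θ ≤ 1 := by
  have h1 : volume {p : ℝ × ℝ | p ∈ sq ∧ (θ, p) ∈ D} ≤ 1 := by
    rw [← sqv67]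
    exact measure_mono fun p hp => hp.1
  have h2 := ENNReal.toReal_mono ENNReal.one_ne_top h1
  rw [ENNReal.toReal_one] at h2
  exact h2

private lemma fib_add67 (D : Set (UnitAddCircle × (ℝ × ℝ))) {H : Set (UnitAddCircle × (ℝ × ℝ))}
    (hH : MeasurableSet H) (θ : UnitAddCircle) :
    fib67 D θ = fib67 (D ∩ H) θ + fib67 (D \ H) θ := by
  have hHθ : MeasurableSet {p : ℝ × ℝ | (θ, p) ∈ H} := measurable_prodMk_left hH
  have h1 := measure_inter_add_sdiff (μ := (volume : Measure (ℝ × ℝ)))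
    {p : ℝ × ℝ | p ∈ sq ∧ (θ, p) ∈ D} hHθ
  unfold fib67
  rw [← ENNReal.toReal_add (fin67 _ fun p hp => hp.1) (fin67 _ fun p hp => hp.1), ← h1]
  congr 2
  · congr 1
    ext p
    exact and_assoc
  · congr 1
    ext p
    exact and_assoc

private lemma fib_meas67 {D : Set (UnitAddCircle × (ℝ × ℝ))} (hD : MeasurableSet D) :
    Measurable (fib67 D) := by
  have hs : MeasurableSet {q : UnitAddCircle × (ℝ × ℝ) | q.2 ∈ sq ∧ q ∈ D} :=
    (measurable_snd sqm67).inter hD
  exact (measurable_measure_prodMk_left (ν := (volume : Measure (ℝ × ℝ))) hs).ennreal_toReal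

private lemma fib_int67 {D : Set (UnitAddCircle × (ℝ × ℝ))} (hD : MeasurableSet D) :
    ∫ θ : UnitAddCircle, fib67 D θ = (mu D).toReal := by
  have hs : MeasurableSet {q : UnitAddCircle × (ℝ × ℝ) | q.2 ∈ sq ∧ q ∈ D} :=
    (measurable_snd sqm67).inter hD
  have hm := measurable_measure_prodMk_left (ν := (volume : Measure (ℝ × ℝ))) hs
  unfold mu
  rw [Measure.prod_apply hD]
  have h1 : ∫ θ : UnitAddCircle, fib67 D θ = (∫⁻ θ : UnitAddCircle,
      (volume : Measure (ℝ × ℝ)) (Prod.mk θ ⁻¹'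
        {q : UnitAddCircle × (ℝ × ℝ) | q.2 ∈ sq ∧ q ∈ D})).toReal := by
    refine integral_toReal hm.aemeasurable ?_
    refine Filter.Eventually.of_forall fun θ => ?_
    exact lt_top_iff_ne_top.2 (fin67 _ fun p hp => hp.1)
  rw [h1]
  congr 1
  refine lintegral_congr fun θ => ?_
  rw [Measure.restrict_apply (measurable_prodMk_left hD)]
  congr 1
  ext p
  constructor
  · intro h
    exact ⟨h.2, h.1⟩
  · intro h
    exact ⟨h.2, h.1⟩

private lemma fib_integrable67 {D : Set (UnitAddCircle × (ℝ × ℝ))} (hD : MeasurableSet D) :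
    Integrable (fib67 D) (volume : Measure UnitAddCircle) :=
  Integrable.of_bound (fib_meas67 hD).aestronglyMeasurable 1
    (Filter.Eventually.of_forall fun θ => by
      rw [Real.norm_eq_abs, abs_of_nonneg (fib_nonneg67 D θ)]
      exact fib_le67 D θ)

private lemma hyp_congr67 {a b : ℝ} {c c' : ℕ → ℝ} {n : ℕ} (h : ∀ i, i + 1 < n → c i = c' i)
    (y x : ℝ) : HypS b (W a c y x) n ↔ HypS b (W a c' y x) n := by
  have hW : ∀ j, j ≤ n → W a c y x j = W a c' y x j := by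
    intro j hj
    unfold Pool.Agent.Helper18.SG.W Pool.Agent.Helper18.SG.mx
    rw [Pool.Agent.Helper18.SG.v_congr (a := a) h y x (j+1) (by omega),
      Pool.Agent.Helper18.SG.v_congr (a := a) h y x j (by omega)]
  unfold Pool.Agent.Helper18.SG.HypS
  constructor
  · intro h1 j i hji hin
    rw [← hW j (hji.trans hin), ← hW i hin]
    exact h1 j i hji hin
  · intro h1 j i hji hin
    rw [hW j (hji.trans hin), hW i hin]
    exact h1 j i hji hin

private lemma hyp_meas67 {a b : ℝ} {c : UnitAddCircle → ℕ → ℝ}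
    (hc : ∀ k, Measurable (fun ξ => c ξ k)) (n : ℕ) :
    MeasurableSet {q : UnitAddCircle × (ℝ × ℝ) | HypS b (W a (c q.1) q.2.1 q.2.2) n} := by
  have hv : ∀ k, Measurable (fun q : UnitAddCircle × (ℝ × ℝ) => v a (c q.1) q.2.1 q.2.2 k) := by
    intro k
    have h1 : Measurable (fun q : UnitAddCircle × (ℝ × ℝ) =>
        ((c q.1, q.2) : (ℕ → ℝ) × (ℝ × ℝ))) := by
      refine Measurable.prodMk ?_ measurable_snd
      exact measurable_pi_iff.mpr fun i => (hc i).comp measurable_fst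
    exact (Pool.Agent.Helper18.SG.continuous_vc a k).measurable.comp h1
  have hW : ∀ k, Measurable (fun q : UnitAddCircle × (ℝ × ℝ) => W a (c q.1) q.2.1 q.2.2 k) := by
    intro k
    exact (hv (k+1)).abs.max (hv k).abs
  have he : {q : UnitAddCircle × (ℝ × ℝ) | HypS b (W a (c q.1) q.2.1 q.2.2) n} =
      ⋂ (j : ℕ) (i : ℕ), {q : UnitAddCircle × (ℝ × ℝ) | j ≤ i → i ≤ n →
        W a (c q.1) q.2.1 q.2.2 j * b ^ (9 * (i - j)) ≤
          b ^ (2 * (n - j)) * W a (c q.1) q.2.1 q.2.2 i} := by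
    ext p
    simp only [HypS, Set.mem_ofPred_eq, Set.mem_iInter]
  rw [he]
  refine MeasurableSet.iInter fun j => MeasurableSet.iInter fun i => ?_
  by_cases h1 : j ≤ i
  · by_cases h2 : i ≤ n
    · simp only [h1, h2, true_implies]
      exact measurableSet_le ((hW j).mul measurable_const) (measurable_const.mul (hW i))
    · simp only [h2, false_implies, implies_true, Set.ofPred_true, MeasurableSet.univ]
  · simp only [h1, false_implies, Set.ofPred_true, MeasurableSet.univ]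

private lemma hyp_meas_sw67 {a b : ℝ} {c : UnitAddCircle → ℕ → ℝ}
    (hc : ∀ k, Measurable (fun ξ => c ξ k)) (n : ℕ) :
    MeasurableSet {q : UnitAddCircle × (ℝ × ℝ) | HypS b (W a (c q.1) q.2.2 q.2.1) n} := by
  have h1 : Measurable (fun q : UnitAddCircle × (ℝ × ℝ) =>
      ((q.1, (q.2.2, q.2.1)) : UnitAddCircle × (ℝ × ℝ))) := by
    fun_prop
  exact h1 (hyp_meas67 (a := a) (b := b) hc n)

private lemma probT67 : IsProbabilityMeasure (volume : Measure T3) := by
  show IsProbabilityMeasure ((volume : Measure UnitAddCircle).prod (volume : Measure T2))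
  infer_instance

private lemma int67 {h : T3 → ℝ} (hm : Measurable h) {C : ℝ} (hC : ∀ q, |h q| ≤ C) :
    Integrable h (volume : Measure T3) := by
  have := probT67
  exact Integrable.of_bound hm.aestronglyMeasurable C
    (Filter.Eventually.of_forall fun q => by rw [Real.norm_eq_abs]; exact hC q)

private lemma ind67 (A : Set T3) (q : T3) : 0 ≤ A.indicator (1 : T3 → ℝ) q ∧ A.indicator (1 : T3 → ℝ) q ≤ 1 := by
  by_cases hq : q ∈ A
  · rw [Set.indicator_of_mem hq]; simp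
  · rw [Set.indicator_of_notMem hq]; simp

private lemma approx67 {A : Set T3} (hA : MeasurableSet A) {η : ℝ} (hη : 0 < η) :
    ∃ (f : T3 → ℝ) (L : ℝ), 0 ≤ L ∧ (∀ q, 0 ≤ f q) ∧ (∀ q, f q ≤ 1) ∧
      (∀ p q, |f p - f q| ≤ L * dist p q) ∧ ∫ q, |f q - A.indicator 1 q| ≤ η := by
  have hm1 : Measurable (A.indicator (1 : T3 → ℝ)) := measurable_one.indicator hA
  have hm : Measurable (fun q => 2 * A.indicator (1 : T3 → ℝ) q - 1) :=
    (hm1.const_mul 2).sub_const 1
  obtain ⟨f', L, hL, h1, h2, h3⟩ := Pool.Agent.Helper18.SD.lip_dense hm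
    (fun q => by
      have := ind67 A q
      rw [abs_le]
      constructor <;> linarith [this.1, this.2]) hη
  refine ⟨fun q => (f' q + 1) / 2, L, hL, fun q => ?_, fun q => ?_, fun p q => ?_, ?_⟩
  · have := (abs_le.1 (h1 q)).1
    show 0 ≤ (f' q + 1) / 2
    linarith
  · have := (abs_le.1 (h1 q)).2
    show (f' q + 1) / 2 ≤ 1
    linarith
  · have e : (f' p + 1) / 2 - (f' q + 1) / 2 = (f' p - f' q) / 2 := by ring
    show |(f' p + 1) / 2 - (f' q + 1) / 2| ≤ _
    rw [e, abs_div, abs_two]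
    have := h2 p q
    have := abs_nonneg (f' p - f' q)
    linarith
  · have e : ∀ q, |(f' q + 1) / 2 - A.indicator (1 : T3 → ℝ) q| =
        |(2 * A.indicator (1 : T3 → ℝ) q - 1) - f' q| / 2 := by
      intro q
      rw [← abs_neg, ← abs_two (α := ℝ), ← abs_div]
      congr 1
      rw [abs_two]
      ring
    show ∫ q, |(f' q + 1) / 2 - A.indicator (1 : T3 → ℝ) q| ≤ η
    simp_rw [e]
    rw [integral_div]
    linarith

private lemma iter_mem67 {a ε : ℝ} {K : ℕ} {A : Set T3} (hinv : (dr a ε K) ⁻¹' A = A) (N : ℕ)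
    (q : T3) : (dr a ε K)^[N] q ∈ A ↔ q ∈ A := by
  induction N with
  | zero => exact Iff.rfl
  | succ N ih =>
    rw [Function.iterate_succ_apply']
    have h1 : ∀ z, dr a ε K z ∈ A ↔ z ∈ A := fun z => by
      constructor
      · intro hz
        have : z ∈ (dr a ε K) ⁻¹' A := hz
        rwa [hinv] at this
      · intro hz
        rw [← hinv] at hz
        exact hz
    rw [h1, ih]

private lemma rhs67 {a ε : ℝ} {K : ℕ} (hK : 2 ≤ K) {A : Set T3} (hA : MeasurableSet A)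
    (hinv : (dr a ε K) ⁻¹' A = A) {f1 f2 : T3 → ℝ} (m1 : Measurable f1) (m2 : Measurable f2)
    (h10 : ∀ q, 0 ≤ f1 q) (h11 : ∀ q, f1 q ≤ 1) (h20 : ∀ q, 0 ≤ f2 q) (h21 : ∀ q, f2 q ≤ 1)
    (N : ℕ) :
    ∫ q, f1 q * f2 ((dr a ε K)^[N] q) ≤
      (∫ q, |f1 q - A.indicator 1 q|) + ∫ q, |f2 q - Aᶜ.indicator 1 q| := by
  have mT : Measurable ((dr a ε K)^[N]) := (Pool.Agent.Helper18.SD.measurable_dr a ε K).iterate _
  have mp : MeasurePreserving ((dr a ε K)^[N]) (volume : Measure T3) volume :=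
    (Pool.Agent.Helper18.SD.mp_dr a ε hK).iterate N
  have mA : Measurable (A.indicator (1 : T3 → ℝ)) := measurable_one.indicator hA
  have mB : Measurable (Aᶜ.indicator (1 : T3 → ℝ)) := measurable_one.indicator hA.compl
  have i1 : Integrable (fun q => |f1 q - A.indicator 1 q|) (volume : Measure T3) :=
    int67 (m1.sub mA).abs (C := 1) (fun q => by
      rw [abs_abs, abs_le]
      have := ind67 A q
      constructor <;> linarith [h10 q, h11 q, this.1, this.2])
  have m3 : Measurable (fun q => |f2 q - Aᶜ.indicator 1 q|) := (m2.sub mB).abs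
  have b3 : ∀ q, |(|f2 q - Aᶜ.indicator 1 q|)| ≤ (1:ℝ) := fun q => by
    rw [abs_abs, abs_le]
    have := ind67 Aᶜ q
    constructor <;> linarith [h20 q, h21 q, this.1, this.2]
  have i2 : Integrable (fun q => |f2 ((dr a ε K)^[N] q) - Aᶜ.indicator 1 ((dr a ε K)^[N] q)|)
      (volume : Measure T3) := int67 (m3.comp mT) (C := 1) (fun q => b3 _)
  have e2 : ∫ q, |f2 ((dr a ε K)^[N] q) - Aᶜ.indicator 1 ((dr a ε K)^[N] q)| =
      ∫ q, |f2 q - Aᶜ.indicator 1 q| := by
    have h1 := integral_map (μ := (volume : Measure T3)) mp.measurable.aemeasurable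
      (f := fun q => |f2 q - Aᶜ.indicator 1 q|) (by rw [mp.map_eq]; exact m3.aestronglyMeasurable)
    rw [mp.map_eq] at h1
    exact h1.symm
  rw [← e2, ← integral_add i1 i2]
  apply integral_mono_of_nonneg
  · exact Filter.Eventually.of_forall fun q => mul_nonneg (h10 q) (h20 _)
  · exact i1.add i2
  · refine Filter.Eventually.of_forall fun q => ?_
    show f1 q * f2 ((dr a ε K)^[N] q) ≤ |f1 q - A.indicator 1 q| +
      |f2 ((dr a ε K)^[N] q) - Aᶜ.indicator 1 ((dr a ε K)^[N] q)|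
    set x := f1 q
    set y := f2 ((dr a ε K)^[N] q)
    have hx0 : 0 ≤ x := h10 q
    have hx1 : x ≤ 1 := h11 q
    have hy0 : 0 ≤ y := h20 _
    have hy1 : y ≤ 1 := h21 _
    by_cases hq : q ∈ A
    · have hq2 : (dr a ε K)^[N] q ∉ Aᶜ := fun hn => hn ((iter_mem67 hinv N q).2 hq)
      rw [Set.indicator_of_notMem hq2, sub_zero]
      have h1 := abs_nonneg (x - A.indicator (1 : T3 → ℝ) q)
      have h2 := le_abs_self y
      nlinarith
    · rw [Set.indicator_of_notMem hq, sub_zero]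
      have h1 := abs_nonneg (y - Aᶜ.indicator (1 : T3 → ℝ) ((dr a ε K)^[N] q))
      have h2 := le_abs_self x
      nlinarith

private lemma times67 {b : ℝ} (hb : 10000 ≤ b) {L η : ℝ} (hL : 0 ≤ L) (hη : 0 < η) :
    ∃ n₁ : ℕ, 1 ≤ n₁ ∧ ∀ n, n₁ ≤ n → L * (b ^ 2 / b ^ (7 * n)) ≤ η := by
  have hb0 : 0 < b := by linarith
  have hb1 : 1 ≤ b := by linarith
  obtain ⟨k, hk⟩ := exists_pow_lt_of_lt_one (x := η / (L + 1)) (y := (1 / 2 : ℝ))
    (by positivity) (by norm_num)
  refine ⟨max 1 k, le_max_left _ _, fun n hn => ?_⟩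
  have hn1 : 1 ≤ n := (le_max_left _ _).trans hn
  have hnk : k ≤ n := (le_max_right _ _).trans hn
  have h1 : b ^ 2 / b ^ (7 * n) ≤ (1 / 2) ^ n := by
    have h2 : b ^ 2 * b ^ n ≤ b ^ (7 * n) := by
      rw [← pow_add]
      exact pow_le_pow_right₀ hb1 (by omega)
    have h3 : (2:ℝ) ^ n ≤ b ^ n := pow_le_pow_left₀ (by norm_num) (by linarith) n
    rw [div_le_iff₀ (by positivity), one_div, inv_pow, inv_mul_eq_div, le_div_iff₀ (by positivity)]
    calc b ^ 2 * 2 ^ n ≤ b ^ 2 * b ^ n := by gcongr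
      _ ≤ b ^ (7 * n) := h2
  have h4 : (1 / 2 : ℝ) ^ n ≤ (1 / 2) ^ k := pow_le_pow_of_le_one (by norm_num) (by norm_num) hnk
  have h5 : (1 / 2 : ℝ) ^ k * (L + 1) < η := (lt_div_iff₀ (by positivity)).1 hk
  have h6 : (0:ℝ) < (1 / 2) ^ k := by positivity
  calc L * (b ^ 2 / b ^ (7 * n)) ≤ L * (1 / 2) ^ k := by
        apply mul_le_mul_of_nonneg_left (h1.trans h4) hL
    _ ≤ η := by nlinarith

private lemma lip_meas67 {f : T3 → ℝ} {L : ℝ} (hL : 0 ≤ L)
    (h : ∀ p q, |f p - f q| ≤ L * dist p q) : Measurable f := by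
  have : LipschitzWith L.toNNReal f := by
    apply LipschitzWith.of_dist_le_mul
    intro x y
    rw [Real.coe_toNNReal L hL, Real.dist_eq]
    exact h x y
  exact this.continuous.measurable

private lemma smul_meas67 (k : ℕ) : Measurable (fun q : UnitAddCircle × (ℝ × ℝ) =>
    ((k • q.1, mk2 q.2) : T3)) := by
  have h1 : Measurable (fun θ : UnitAddCircle => k • θ) := (continuous_nsmul k).measurable
  exact (h1.comp measurable_fst).prodMk
    (Pool.Agent.Helper78.SM.mp_mk2.measurable.comp measurable_snd)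

private lemma low67 {a b : ℝ} {K : ℕ} (hK : 2 ≤ K) {ε : ℝ} {A : Set T3} (hA : MeasurableSet A)
    (hinv : (dr a ε K) ⁻¹' A = A) (n m : ℕ) :
    (volume A).toReal * (volume Aᶜ).toReal -
      (volume Aᶜ).toReal * (mu {q | (q.1, mk2 q.2) ∈ A ∧
        ¬ HypS b (W a (nz ε K q.1) q.2.2 q.2.1) n}).toReal -
      (volume A).toReal * (mu {q | ((K ^ m) • q.1, mk2 q.2) ∈ Aᶜ ∧
        ¬ HypS b (W a (rev (nz ε K q.1) m) q.2.1 q.2.2) m}).toReal ≤
      ∫ θ : UnitAddCircle, an a b ε K A n θ * bm a b ε K Aᶜ n m θ := by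
  have hinvB : (dr a ε K) ⁻¹' Aᶜ = Aᶜ := by rw [Set.preimage_compl, hinv]
  have hfA := fiber_const (a := a) (ε := ε) hK hA hinv
  have hfB := fiber_const (a := a) (ε := ε) hK hA.compl hinvB
  set α := (volume A).toReal with hα
  set β := (volume Aᶜ).toReal with hβ
  -- the sets
  set DA : Set (UnitAddCircle × (ℝ × ℝ)) := {q | (q.1, mk2 q.2) ∈ A} with hDA
  set HA : Set (UnitAddCircle × (ℝ × ℝ)) := {q | HypS b (W a (nz ε K q.1) q.2.2 q.2.1) n} with hHA
  set DB : Set (UnitAddCircle × (ℝ × ℝ)) := {q | ((K ^ (n+m)) • q.1, mk2 q.2) ∈ Aᶜ} with hDB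
  set HB : Set (UnitAddCircle × (ℝ × ℝ)) :=
    {q | HypS b (W a (rev (nz ε K q.1) (n+m)) q.2.1 q.2.2) m} with hHB
  set DR : Set (UnitAddCircle × (ℝ × ℝ)) := {q | ((K ^ m) • q.1, mk2 q.2) ∈ Aᶜ ∧
        ¬ HypS b (W a (rev (nz ε K q.1) m) q.2.1 q.2.2) m} with hDR
  have mDA : MeasurableSet DA := by
    have h1 : Measurable (fun q : UnitAddCircle × (ℝ × ℝ) => ((q.1, mk2 q.2) : T3)) :=
      measurable_fst.prodMk (Pool.Agent.Helper78.SM.mp_mk2.measurable.comp measurable_snd)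
    exact h1 hA
  have mDB : MeasurableSet DB := smul_meas67 (K ^ (n+m)) hA.compl
  have mHA : MeasurableSet HA :=
    hyp_meas_sw67 (c := fun θ => nz ε K θ) (fun k => Pool.Agent.Helper18.SD.measurable_nz ε K k) n
  have mrev : ∀ N k, Measurable (fun θ : UnitAddCircle => rev (nz ε K θ) N k) := fun N k =>
    Pool.Agent.Helper18.SD.measurable_nz ε K (N - 1 - k)
  have mHB : MeasurableSet HB := hyp_meas67 (c := fun θ => rev (nz ε K θ) (n+m)) (mrev (n+m)) m
  have mDR : MeasurableSet DR :=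
    (smul_meas67 (K ^ m) hA.compl).inter
      (hyp_meas67 (a := a) (b := b) (c := fun θ => rev (nz ε K θ) m) (mrev m) m).compl
  -- rewriting in terms of `fib67`
  have ean : ∀ θ, an a b ε K A n θ = fib67 (DA ∩ HA) θ := fun θ => rfl
  have ebm : ∀ θ, bm a b ε K Aᶜ n m θ = fib67 (DB ∩ HB) θ := fun θ => rfl
  have eS : (mu {q | (q.1, mk2 q.2) ∈ A ∧ ¬ HypS b (W a (nz ε K q.1) q.2.2 q.2.1) n}).toReal =
      ∫ θ : UnitAddCircle, fib67 (DA \ HA) θ := by
    rw [fib_int67 (mDA.diff mHA)]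
    rfl
  have eR : (mu DR).toReal = ∫ θ : UnitAddCircle, fib67 (DB \ HB) θ := by
    rw [← fib_int67 mDR]
    have hmp : MeasurePreserving (fun θ : UnitAddCircle => (K ^ n) • θ) volume volume :=
      Pool.Agent.Helper18.SD.mp_pow hK n
    have h1 := integral_map (μ := (volume : Measure UnitAddCircle)) hmp.measurable.aemeasurable
      (f := fib67 DR) (by rw [hmp.map_eq]; exact (fib_meas67 mDR).aestronglyMeasurable)
    rw [hmp.map_eq] at h1
    rw [h1]
    congr 1
    funext θ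
    unfold fib67
    congr 2
    ext p
    have e1 : (K ^ m) • ((K ^ n) • θ) = (K ^ (n+m)) • θ := by
      rw [smul_smul, ← pow_add, add_comm m n]
    have e2 : HypS b (W a (rev (nz ε K ((K ^ n) • θ)) m) p.1 p.2) m ↔
        HypS b (W a (rev (nz ε K θ) (n+m)) p.1 p.2) m := by
      apply hyp_congr67
      intro i hi
      unfold Pool.Agent.Helper18.SG.rev
      rw [Pool.Agent.Helper18.SD.nz_smul]
      congr 1
      omega
    show (p ∈ sq ∧ ((K ^ m) • ((K ^ n) • θ), mk2 p) ∈ Aᶜ ∧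
        ¬ HypS b (W a (rev (nz ε K ((K ^ n) • θ)) m) p.1 p.2) m) ↔
      (p ∈ sq ∧ ((K ^ (n+m)) • θ, mk2 p) ∈ Aᶜ ∧
        ¬ HypS b (W a (rev (nz ε K θ) (n+m)) p.1 p.2) m)
    rw [e1, e2]
  rw [eS, eR]
  simp_rw [ean, ebm]
  -- almost everywhere identities
  have hA1 : ∀ᵐ θ : UnitAddCircle, fib67 (DA ∩ HA) θ + fib67 (DA \ HA) θ = α := by
    filter_upwards [hfA] with θ hθ
    rw [← fib_add67 DA mHA θ]
    exact hθ
  have hB1 : ∀ᵐ θ : UnitAddCircle, fib67 (DB ∩ HB) θ + fib67 (DB \ HB) θ = β := by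
    have hmp : MeasurePreserving (fun θ : UnitAddCircle => (K ^ (n+m)) • θ) volume volume :=
      Pool.Agent.Helper18.SD.mp_pow hK (n+m)
    filter_upwards [hmp.quasiMeasurePreserving.ae hfB] with θ hθ
    rw [← fib_add67 DB mHB θ]
    exact hθ
  have iA1 := fib_integrable67 (mDA.inter mHA)
  have iA2 := fib_integrable67 (mDA.diff mHA)
  have iB1 := fib_integrable67 (mDB.inter mHB)
  have iB2 := fib_integrable67 (mDB.diff mHB)
  have IA : (∫ θ : UnitAddCircle, fib67 (DA ∩ HA) θ) = α - ∫ θ : UnitAddCircle, fib67 (DA \ HA) θ := by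
    have h1 := integral_congr_ae hA1
    rw [integral_add iA1 iA2] at h1
    simp at h1
    linarith
  have IB : (∫ θ : UnitAddCircle, fib67 (DB ∩ HB) θ) = β - ∫ θ : UnitAddCircle, fib67 (DB \ HB) θ := by
    have h1 := integral_congr_ae hB1
    rw [integral_add iB1 iB2] at h1
    simp at h1
    linarith
  have iprod : Integrable (fun θ => fib67 (DA ∩ HA) θ * fib67 (DB ∩ HB) θ)
      (volume : Measure UnitAddCircle) := by
    apply Integrable.of_bound
      ((fib_meas67 (mDA.inter mHA)).mul (fib_meas67 (mDB.inter mHB))).aestronglyMeasurable 1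
    refine Filter.Eventually.of_forall fun θ => ?_
    show ‖fib67 (DA ∩ HA) θ * fib67 (DB ∩ HB) θ‖ ≤ 1
    rw [Real.norm_eq_abs, abs_mul, abs_of_nonneg (fib_nonneg67 _ θ), abs_of_nonneg (fib_nonneg67 _ θ)]
    exact mul_le_one₀ (fib_le67 _ θ) (fib_nonneg67 _ θ) (fib_le67 _ θ)
  have ilin : Integrable (fun θ => α * fib67 (DB ∩ HB) θ + β * fib67 (DA ∩ HA) θ - α * β)
      (volume : Measure UnitAddCircle) :=
    ((iB1.const_mul α).add (iA1.const_mul β)).sub (integrable_const _)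
  have hmono := integral_mono_ae ilin iprod (by
    filter_upwards [hA1, hB1] with θ h1 h2
    have h3 := fib_nonneg67 (DA \ HA) θ
    have h4 := fib_nonneg67 (DB \ HB) θ
    have h5 : 0 ≤ (α - fib67 (DA ∩ HA) θ) * (β - fib67 (DB ∩ HB) θ) := by
      apply mul_nonneg <;> linarith
    nlinarith)
  have e3 : ∫ θ : UnitAddCircle, (α * fib67 (DB ∩ HB) θ + β * fib67 (DA ∩ HA) θ - α * β) =
      α * (∫ θ : UnitAddCircle, fib67 (DB ∩ HB) θ) + β * (∫ θ : UnitAddCircle, fib67 (DA ∩ HA) θ) -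
        α * β := by
    have g1 : ∫ θ : UnitAddCircle, (α * fib67 (DB ∩ HB) θ + β * fib67 (DA ∩ HA) θ - α * β) =
        (∫ θ : UnitAddCircle, (α * fib67 (DB ∩ HB) θ + β * fib67 (DA ∩ HA) θ)) -
          ∫ _ : UnitAddCircle, α * β :=
      integral_sub ((iB1.const_mul α).add (iA1.const_mul β)) (integrable_const _)
    have g2 : ∫ θ : UnitAddCircle, (α * fib67 (DB ∩ HB) θ + β * fib67 (DA ∩ HA) θ) =
        (∫ θ : UnitAddCircle, α * fib67 (DB ∩ HB) θ) + ∫ θ : UnitAddCircle, β * fib67 (DA ∩ HA) θ :=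
      integral_add (iB1.const_mul α) (iA1.const_mul β)
    rw [g1, g2, integral_const_mul, integral_const_mul]
    simp
  rw [e3, IA, IB] at hmono
  refine le_trans (le_of_eq ?_) hmono
  ring

theorem ergodic_dr {a b : ℝ} (hb : 10000 ≤ b) (hab : |a| = b ^ 10) {K : ℕ} (hK : 200 ≤ K) {ε : ℝ}
    (hε : 0 < ε) (hε4 : ε ≤ 1 / 4) (h : (K:ℝ) ^ 2 ≤ ε * b) {A : Set T3} (hA : MeasurableSet A)
    (hinv : (dr a ε K) ⁻¹' A = A) : volume A = 0 ∨ volume Aᶜ = 0 := by
  have hP := probT67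
  have hb0 : 0 < b := by linarith
  have hK2 : 2 ≤ K := by omega
  by_contra hcon
  rw [not_or] at hcon
  obtain ⟨hA0, hAc0⟩ := hcon
  have hα0 : 0 < (volume A).toReal := ENNReal.toReal_pos hA0 (measure_ne_top _ _)
  have hβ0 : 0 < (volume Aᶜ).toReal := ENNReal.toReal_pos hAc0 (measure_ne_top _ _)
  set α := (volume A).toReal with hα
  set β := (volume Aᶜ).toReal with hβ
  have hαβ : 0 < α * β := mul_pos hα0 hβ0
  obtain ⟨f1, L1, hL1, h10, h11, h1L, h1e⟩ := approx67 hA (η := α * β / 200) (by positivity)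
  obtain ⟨f2, L2, hL2, h20, h21, h2L, h2e⟩ := approx67 hA.compl (η := α * β / 200) (by positivity)
  set L := max L1 L2 with hLdef
  have hL : 0 ≤ L := le_max_of_le_left hL1
  obtain ⟨n₁, hn₁, hn₂⟩ := times67 hb hL (η := α * β / 200) (by positivity)
  obtain ⟨n, m, hn, hm, hSR⟩ := exists_times (by linarith) hab hK hε hε4 h hA hinv hα0 hβ0 n₁
  have hc := cross_ineq (ε := ε) hb hab hK2 (hn₁.trans hn) (hn₁.trans hm) hL hA hA.compl h10 h11
    (fun p q => (h1L p q).trans (mul_le_mul_of_nonneg_right (le_max_left _ _) dist_nonneg)) h20 h21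
    (fun p q => (h2L p q).trans (mul_le_mul_of_nonneg_right (le_max_right _ _) dist_nonneg))
  have hr := rhs67 (a := a) (ε := ε) hK2 hA hinv (lip_meas67 hL1 h1L) (lip_meas67 hL2 h2L) h10 h11 h20
    h21 (n + m)
  have hlow := low67 (a := a) (b := b) hK2 (ε := ε) hA hinv n m
  have t1 := hn₂ n hn
  have t2 := hn₂ m hm
  set I := ∫ θ : UnitAddCircle, an a b ε K A n θ * bm a b ε K Aᶜ n m θ with hI
  set S := (mu {q | (q.1, mk2 q.2) ∈ A ∧ ¬ HypS b (W a (nz ε K q.1) q.2.2 q.2.1) n}).toReal with hS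
  set R := (mu {q | ((K ^ m) • q.1, mk2 q.2) ∈ Aᶜ ∧
        ¬ HypS b (W a (rev (nz ε K q.1) m) q.2.1 q.2.2) m}).toReal with hR
  have hIlow : α * β / 10 ≤ I := by
    have h1 : α * β * (S / α + R / β) ≤ α * β * (9 / 10) :=
      mul_le_mul_of_nonneg_left hSR hαβ.le
    have h2 : α * β * (S / α + R / β) = β * S + α * R := by
      field_simp
    rw [h2] at h1
    linarith
  have hb1 : 1 / b ≤ 1 / 2 := one_div_le_one_div_of_le (by norm_num) (by linarith)
  have hX : α * β / 10 - α * β / 50 ≤ I - (∫ q, |f1 q - A.indicator 1 q|) -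
      (∫ q, |f2 q - Aᶜ.indicator 1 q|) - L * (b ^ 2 / b ^ (7 * n)) - L * (b ^ 2 / b ^ (7 * m)) := by
    linarith
  have hX0 : 0 ≤ α * β / 10 - α * β / 50 := by linarith
  have h1 : (1 / 2 : ℝ) * (α * β / 10 - α * β / 50) ≤ (1 - 1 / b) * (I -
      (∫ q, |f1 q - A.indicator 1 q|) -
      (∫ q, |f2 q - Aᶜ.indicator 1 q|) - L * (b ^ 2 / b ^ (7 * n)) - L * (b ^ 2 / b ^ (7 * m))) :=
    mul_le_mul (by linarith) hX hX0 (by linarith)
  have h2 := h1.trans (hc.trans hr)
  linarith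

end Pool.Agent.Helper18.SE
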