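import Mathlib
import Pool.Agent.Helper18.SE.Erg
import Pool.Agent.Helper18.SD.Fin

/-! Block SE-FIN: final form: ergodicity and hyperbolicity of the driven map.

* `exp_mean`: `SD.kingman_bdd` for `g n q = log ‖DT a ε K n q‖` (`SD.measurable_log_DT`, `SD.abs_log_DT_le`,
  `SD.log_DT_sub`, `SD.mp_dr`). `∫ Λ = lim (1/n) ∫ g n`. Upper bound: `SD.log_DT_le`, integrals of functions of
  `(dr^k q).2.1` are integrals over the circle, `Helper78.SM.mean_log` with `M = 5 log b`: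
  `<= log (π |a|) + 3 / b ^ 5`. Lower bound: `SD.choose_N'`, `SD.int_log_DT_ge`, `Helper78.SM.mean_gg` with
  `M = 5 log b`, `s = b ^ 5`: `>= log (π |a|) - 8 / b ^ 5 - 88 log b (N κ + 9 / b)`;
  `88 * 9 log b / b = 79.2 log |a| / b`, `88 log b N κ <= 240400 log |a| log (1/ε) / |a| ^ 2 + 1 / b ^ 5`
  (`κ = 163840 log b / b ^ 20`).
* `main2`: `b = |a| ^ (1/10)`; `(K^2 / ε)^10 <= |a|` gives `K^2 / ε <= b`, so `b >= 160000`, `K^2 <= ε b`,
  `1 / ε <= b`, `log (1/ε) <= log |a|`. `F = dr a ε K` (`SD.driven_unique`). `Ergodic`: `SD.mp_dr` and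
  `ergodic_dr`. `Λ` is a.e. constant, the constant is `∫ Λ`. The a.e. statement in the space: `SD.ae_space`,
  `SD.fderiv_gp`. -/

set_option autoImplicit false
open Real Set MeasureTheory Filter Topology
open scoped ENNReal

namespace Pool.Agent.Helper18.SE

open Pool.Agent.Helper53.SM (T2)
open Pool.Agent.Helper78.SM (psi phi dphi sq csn snn mk2 gg Phi)
open Pool.Agent.Helper18.SD (T3 dr nz DT)

attribute [local instance] Pool.Agent.Helper53.SM.instProbU Pool.Agent.Helper53.SM.instProbT2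

private lemma mpcE : MeasurePreserving (fun q : T3 => q.2.1) (volume : Measure T3)
    (volume : Measure UnitAddCircle) := by
  have h1 : MeasurePreserving (Prod.snd : UnitAddCircle × T2 → T2) volume volume :=
    measurePreserving_snd
  have h2 : MeasurePreserving (Prod.fst : UnitAddCircle × UnitAddCircle → UnitAddCircle)
      volume volume := measurePreserving_fst
  exact h2.comp h1

private lemma numexpE {a b ε : ℝ} (hb : 10000 ≤ b) (hab : |a| = b ^ 10) (hε : 0 < ε)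
    (hε4 : ε ≤ 1 / 4) {N : ℕ} (hN : (N:ℝ) ≤ Real.log (1 / ε) / (6 * Real.log b) + 13) :
    8 / b ^ 5 + 88 * Real.log b * (N * (4 * 4096 * Real.log |a| / |a| ^ 2) + 9 / b) ≤
      80 * Real.log |a| / b + 250000 * (Real.log |a| * Real.log (1 / ε) / |a| ^ 2) := by
  have hb0 : 0 < b := by linarith
  have hb1 : 1 < b := by linarith
  have hlb1 : 1 ≤ Real.log b := by
    rw [Real.le_log_iff_exp_le hb0]
    have := Real.exp_one_lt_d9
    linarith
  have hlbb : Real.log b ≤ b := (Real.log_le_sub_one_of_pos hb0).trans (by linarith)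
  have hla : Real.log |a| = 10 * Real.log b := by rw [hab, Real.log_pow]; norm_num
  have hle : 0 ≤ Real.log (1 / ε) := by
    apply Real.log_nonneg
    rw [le_div_iff₀ hε]; linarith
  set l := Real.log b with hl
  set e := Real.log (1 / ε) with he
  have hl0 : 0 < l := by linarith
  have ha2 : |a| ^ 2 = b ^ 20 := by rw [hab]; ring
  rw [hla, ha2]
  have h1 : 88 * l * (N * (4 * 4096 * (10 * l) / b ^ 20)) ≤
      88 * l * ((e / (6 * l) + 13) * (4 * 4096 * (10 * l) / b ^ 20)) := by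
    gcongr
  have h2 : 88 * l * ((e / (6 * l) + 13) * (4 * 4096 * (10 * l) / b ^ 20)) =
      (88 * 4 * 4096 * 10 / 6) * (l * (e / b ^ 20)) + (88 * 13 * 4 * 4096 * 10) * (l * (l / b ^ 20)) := by
    field_simp
  have h3 : l / b ^ 20 ≤ (1 / 10 ^ 9) * (1 / b) := by
    rw [div_mul_div_comm, div_le_div_iff₀ (by positivity) (by positivity)]
    have h4 : (10:ℝ) ^ 9 ≤ b ^ 18 := by
      calc (10:ℝ) ^ 9 ≤ 10000 ^ 18 := by norm_num
        _ ≤ b ^ 18 := by gcongr
    calc l * (10 ^ 9 * b) ≤ b * (b ^ 18 * b) := by gcongr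
      _ = 1 * 1 * b ^ 20 := by ring
  have h5 : l * (l / b ^ 20) ≤ l * ((1 / 10 ^ 9) * (1 / b)) := by gcongr
  have h6 : 0 ≤ l * (e / b ^ 20) := by positivity
  have h7 : 0 ≤ l * (1 / b) := by positivity
  have h8 : 8 / b ^ 5 ≤ l * (1 / b) := by
    have h81 : 8 / b ^ 5 = (8 / b ^ 4) * (1 / b) := by field_simp
    rw [h81]
    apply mul_le_mul_of_nonneg_right _ (by positivity)
    refine le_trans ?_ hlb1
    rw [div_le_one (by positivity)]
    calc (8:ℝ) ≤ 10000 ^ 4 := by norm_num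
      _ ≤ b ^ 4 := by gcongr
  have h9 : 88 * l * (N * (4 * 4096 * (10 * l) / b ^ 20) + 9 / b) =
      88 * l * (N * (4 * 4096 * (10 * l) / b ^ 20)) + 792 * (l * (1 / b)) := by ring
  rw [h9]
  have h10 : 80 * (10 * l) / b + 250000 * (10 * l * e / b ^ 20) =
      800 * (l * (1 / b)) + 2500000 * (l * (e / b ^ 20)) := by ring
  rw [h10]
  nlinarith

theorem exp_mean {a b ε : ℝ} (hb : 10000 ≤ b) (hab : |a| = b ^ 10) (hε : 0 < ε) (hε4 : ε ≤ 1 / 4)
    {K : ℕ} (hK : 2 ≤ K) :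
    ∃ Λ : T3 → ℝ, Measurable Λ ∧ Integrable Λ ∧ (∀ᵐ q, Λ (dr a ε K q) = Λ q) ∧
      (∀ᵐ q, Tendsto (fun n : ℕ => Real.log ‖DT a ε K n q‖ / n) atTop (𝓝 (Λ q))) ∧
      |(∫ q, Λ q) - Real.log (π * |a|)| ≤
        80 * Real.log |a| / b + 250000 * (Real.log |a| * Real.log (1 / ε) / |a| ^ 2) := by
  have hb0 : 0 < b := by linarith
  have hb1 : 1 ≤ b := by linarith
  have ha1 : 1 ≤ |a| := by rw [hab]; exact one_le_pow₀ hb1
  have ha0 : 0 < |a| := by linarith
  have hlb : 1 ≤ Real.log b := by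
    rw [Real.le_log_iff_exp_le hb0]
    have := Real.exp_one_lt_d9
    linarith
  obtain ⟨N, hN, hN2, hN3⟩ := Pool.Agent.Helper18.SD.choose_N' (b := b) (ε := ε) (by linarith) hε hε4
  have hmp := Pool.Agent.Helper18.SD.mp_dr a ε hK
  obtain ⟨Λ, hΛm, hΛb, hΛinv, hΛlim, hΛint⟩ := Pool.Agent.Helper18.SD.kingman_bdd
    (μ := (volume : Measure T3)) hmp
    (g := fun n q => Real.log ‖DT a ε K n q‖) (Pool.Agent.Helper18.SD.measurable_log_DT a ε K)
    (C := Real.log (10 * |a|)) (fun n q => Pool.Agent.Helper18.SD.abs_log_DT_le ha1 ε K n q)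
    (fun n m q => Pool.Agent.Helper18.SD.log_DT_sub a ε K n m q)
  have hum : Measurable (fun θ : UnitAddCircle => Real.log (|Phi a θ| + 1)) :=
    Real.measurable_log.comp ((continuous_abs.measurable.comp
      (Pool.Agent.Helper78.SM.measurable_Phi a)).add_const 1)
  have hUm : Measurable (fun q : T3 => Real.log (|Phi a q.2.1| + 1)) := hum.comp mpcE.measurable
  obtain ⟨G, hGm, hGb, hGinv, hGlim, hGint⟩ := Pool.Agent.Helper18.SD.birkhoff_bdd
    (μ := (volume : Measure T3)) hmp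
    (h := fun q : T3 => Real.log (|Phi a q.2.1| + 1)) hUm (C := Real.log (10 * |a|))
    (fun q => Pool.Agent.Helper78.SM.abs_log_le ha1 q.2.1)
  have hΛi : Integrable Λ (volume : Measure T3) :=
    Integrable.of_bound hΛm.aestronglyMeasurable (Real.log (10 * |a|))
      (Eventually.of_forall fun q => by rw [Real.norm_eq_abs]; exact hΛb q)
  have hGi : Integrable G (volume : Measure T3) :=
    Integrable.of_bound hGm.aestronglyMeasurable (Real.log (10 * |a|))
      (Eventually.of_forall fun q => by rw [Real.norm_eq_abs]; exact hGb q)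
  have hGint2 : ∫ q, G q = ∫ θ : UnitAddCircle, Real.log (|Phi a θ| + 1) := by
    rw [hGint, ← mpcE.map_eq, integral_map mpcE.measurable.aemeasurable
      hum.aestronglyMeasurable]
  have hΛge : (∫ θ : UnitAddCircle, gg (Phi a θ)) - 88 * Real.log b *
      (N * (4 * 4096 * Real.log |a| / |a| ^ 2) + 9 / b) ≤ ∫ q, Λ q := by
    refine ge_of_tendsto hΛint ?_
    filter_upwards [eventually_gt_atTop 0] with n hn
    have hn0 : (0:ℝ) < n := by exact_mod_cast hn
    rw [le_div_iff₀ hn0, mul_comm]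
    exact Pool.Agent.Helper18.SD.int_log_DT_ge (by linarith) hab hε hε4 hK hN hN2 n
  have hnum := numexpE hb hab hε hε4 hN3
  have hle : ∀ᵐ q : T3, Λ q ≤ G q := by
    filter_upwards [hΛlim, hGlim] with q h1 h2
    refine le_of_tendsto_of_tendsto' h1 h2 fun n => ?_
    exact div_le_div_of_nonneg_right (Pool.Agent.Helper18.SD.log_DT_le a ε K n q) (Nat.cast_nonneg n)
  have hmono : ∫ q, Λ q ≤ ∫ q, G q := integral_mono_ae hΛi hGi hle
  rw [hGint2] at hmono
  -- means
  have hM1 : 1 ≤ 5 * Real.log b := by linarith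
  have hexpM : Real.exp (5 * Real.log b) = b ^ 5 := by
    have : (5:ℝ) * Real.log b = Real.log (b ^ 5) := by rw [Real.log_pow]; norm_num
    rw [this, Real.exp_log (by positivity)]
  have hexpm : Real.exp (-(5 * Real.log b)) = 1 / b ^ 5 := by
    rw [Real.exp_neg, hexpM, one_div]
  have hquot : b ^ 5 / |a| = 1 / b ^ 5 := by
    rw [hab]; field_simp
  have hup := Pool.Agent.Helper78.SM.mean_log (a := a) (M := 5 * Real.log b) ha1 hM1
  rw [hexpM, hexpm, hquot] at hup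
  have hs2 : (2:ℝ) ≤ b ^ 5 := by
    calc (2:ℝ) ≤ 10000 ^ 5 := by norm_num
      _ ≤ b ^ 5 := by gcongr
  have hlo := Pool.Agent.Helper78.SM.mean_gg (a := a) (M := 5 * Real.log b) (s := b ^ 5) ha1 hM1 hs2
  rw [hexpM, hexpm, hquot] at hlo
  have hquot2 : b ^ 5 / (2 * |a|) = 1 / 2 * (1 / b ^ 5) := by
    rw [hab]; field_simp
  have hquot3 : 2 / b ^ 5 = 2 * (1 / b ^ 5) := by ring
  have hquot8 : 8 / b ^ 5 = 8 * (1 / b ^ 5) := by ring
  rw [hquot2, hquot3] at hlo
  rw [hquot8] at hnum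
  have hp : 0 < 1 / b ^ 5 := by positivity
  have hR : 0 ≤ 88 * Real.log b * (N * (4 * 4096 * Real.log |a| / |a| ^ 2) + 9 / b) := by
    have : 0 ≤ Real.log |a| := Real.log_nonneg ha1
    positivity
  refine ⟨Λ, hΛm, hΛi, hΛinv, hΛlim, ?_⟩
  rw [abs_le]
  constructor <;> linarith

private theorem main2_aux53 {a b ε : ℝ} (hb : 160000 ≤ b) (hab : |a| = b ^ 10) (hε : 0 < ε)
    (hε4 : ε ≤ 1 / 4) {K : ℕ} (hK : 200 ≤ K) (h : (K:ℝ) ^ 2 ≤ ε * b) (hεb : 1 / ε ≤ b) :
    Ergodic (dr a ε K) volume ∧ ∃ lam : ℝ, |lam - Real.log (π * |a|)| ≤ 100 * (1 / b) * Real.log |a| ∧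
      ∀ᵐ q : T3, Tendsto (fun n : ℕ => Real.log ‖DT a ε K n q‖ / n) atTop (𝓝 lam) := by
  have hK2 : 2 ≤ K := by omega
  have hb0 : 0 < b := by linarith
  have hmp := Pool.Agent.Helper18.SD.mp_dr a ε hK2
  have herg : Ergodic (dr a ε K) (volume : Measure T3) := by
    refine ⟨hmp, ⟨fun s hs hinv => ?_⟩⟩
    rw [eventuallyConst_set']
    rcases ergodic_dr (by linarith : (10000:ℝ) ≤ b) hab hK hε hε4 h hs hinv with h0 | h0
    · left
      exact ae_eq_empty.2 h0
    · right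
      exact ae_eq_univ.2 h0
  refine ⟨herg, ?_⟩
  obtain ⟨Λ, hΛm, hΛi, hΛinv, hΛt, hΛb⟩ := exp_mean (by linarith : (10000:ℝ) ≤ b) hab hε hε4 hK2
  obtain ⟨c, hc⟩ := herg.ae_eq_const_of_ae_eq_comp_ae hΛm.aestronglyMeasurable
    (by filter_upwards [hΛinv] with q hq using hq)
  have hint : ∫ q, Λ q = c := by
    rw [integral_congr_ae hc]
    simp
  refine ⟨c, ?_, ?_⟩
  · rw [hint] at hΛb
    refine hΛb.trans ?_
    have hlog0 : 0 ≤ Real.log |a| := by
      apply Real.log_nonneg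
      rw [hab]
      exact one_le_pow₀ (by linarith)
    have hl1 : Real.log (1 / ε) ≤ b := by
      have h1 : Real.log (1 / ε) ≤ 1 / ε - 1 := Real.log_le_sub_one_of_pos (by positivity)
      linarith
    have h2 : 250000 * (Real.log (1 / ε) / |a| ^ 2) ≤ 20 / b := by
      rw [hab, mul_div_assoc', div_le_div_iff₀ (by positivity) hb0]
      have h3 : 250000 * b ≤ b ^ 10 := by
        calc 250000 * b ≤ b ^ 9 * b := by
              gcongr
              calc (250000 : ℝ) ≤ 160000 ^ 9 := by norm_num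
                _ ≤ b ^ 9 := by gcongr
          _ = b ^ 10 := by ring
      have h4 : b ≤ b ^ 10 := by
        calc b = b ^ 1 := (pow_one b).symm
          _ ≤ b ^ 10 := by gcongr <;> linarith
      calc 250000 * Real.log (1 / ε) * b ≤ 250000 * b * b := by gcongr
        _ ≤ b ^ 10 * b ^ 10 := by gcongr
        _ ≤ 20 * (b ^ 10) ^ 2 := by nlinarith [pow_pos hb0 10]
    calc 80 * Real.log |a| / b + 250000 * (Real.log |a| * Real.log (1 / ε) / |a| ^ 2)
        = 80 * Real.log |a| / b + Real.log |a| * (250000 * (Real.log (1 / ε) / |a| ^ 2)) := by ring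
      _ ≤ 80 * Real.log |a| / b + Real.log |a| * (20 / b) := by gcongr
      _ = 100 * (1 / b) * Real.log |a| := by ring
  · filter_upwards [hΛt, hc] with q hq1 hq2
    rw [hq2] at hq1
    exact hq1

theorem main2 : ∀ K : ℕ, 200 ≤ K → ∀ ε : ℝ, 0 < ε → ε ≤ 1 / 4 →
    ∀ a : ℝ, ((K:ℝ) ^ 2 / ε) ^ 10 ≤ |a| →
    ∀ F : UnitAddCircle × (UnitAddCircle × UnitAddCircle) →
      UnitAddCircle × (UnitAddCircle × UnitAddCircle),
    (∀ θ x y : ℝ, F ((θ : UnitAddCircle), (x : UnitAddCircle), (y : UnitAddCircle)) =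
      (((K * θ : ℝ) : UnitAddCircle), ((2 * x - y + a * Real.sin (2 * π * x) +
        ε * Real.sin (2 * π * θ) : ℝ) : UnitAddCircle), (x : UnitAddCircle))) →
    Ergodic F volume ∧
      ∃ lam : ℝ, |lam - Real.log (π * |a|)| ≤ 100 * |a| ^ (-(1:ℝ) / 10) * Real.log |a| ∧
        ∀ᵐ z : ℝ × (ℝ × ℝ),
          Tendsto (fun n : ℕ => Real.log ‖fderiv ℝ (fun p : ℝ × ℝ =>
            ((fun q : ℝ × (ℝ × ℝ) => (K * q.1, (2 * q.2.1 - q.2.2 + a * Real.sin (2 * π * q.2.1) +
              ε * Real.sin (2 * π * q.1), q.2.1)))^[n] (z.1, p)).2) z.2‖ / n) atTop (𝓝 lam) := by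
  intro K hK ε hε hε4 a ha F hF
  have hKr : (200:ℝ) ≤ K := by exact_mod_cast hK
  set X : ℝ := (K:ℝ) ^ 2 / ε with hX
  have hX1 : 160000 ≤ X := by
    rw [hX, le_div_iff₀ hε]
    nlinarith
  have ha0 : 0 < |a| := lt_of_lt_of_le (by positivity) ha
  set b : ℝ := |a| ^ ((1:ℝ) / 10) with hbdef
  have hb0 : 0 ≤ b := by rw [hbdef]; positivity
  have hab : |a| = b ^ 10 := by
    rw [hbdef, ← Real.rpow_natCast, ← Real.rpow_mul ha0.le]
    norm_num
  have hXb : X ≤ b := by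
    rw [hab] at ha
    exact le_of_pow_le_pow_left₀ (by norm_num) hb0 ha
  have h1 : (K:ℝ) ^ 2 ≤ ε * b := by
    have := (div_le_iff₀ hε).1 hXb
    linarith
  have h2 : 1 / ε ≤ b := by
    refine le_trans ?_ hXb
    rw [hX]
    gcongr
    nlinarith
  have hinv : |a| ^ (-(1:ℝ) / 10) = 1 / b := by
    rw [hbdef, neg_div, Real.rpow_neg ha0.le, one_div, one_div]
  obtain ⟨herg, lam, hlam, hlim⟩ := main2_aux53 (hX1.trans hXb) hab hε hε4 hK h1 h2
  rw [Pool.Agent.Helper18.SD.driven_unique hF, hinv]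
  refine ⟨herg, lam, hlam, ?_⟩
  filter_upwards [Pool.Agent.Helper18.SD.ae_space hlim] with z hz
  refine hz.congr fun n => ?_
  rw [← Pool.Agent.Helper18.SD.fderiv_gp]
  rfl

end Pool.Agent.Helper18.SE
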