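import Mathlib

/-! Weak mixing from ergodicity and near mixing. -/

set_option autoImplicit false
open MeasureTheory Filter Topology

namespace Pool.Agent.Helper18.SE

private lemma mono_inv {X : Type*} [MeasurableSpace X] {μ : Measure X} [IsProbabilityMeasure μ]
    {T : X → X} (hT : MeasurePreserving T μ μ) {u : X → ℝ} (hu : Measurable u) (hu0 : ∀ x, 0 ≤ u x)
    (h : (∀ᵐ x ∂μ, u (T x) ≤ u x) ∨ (∀ᵐ x ∂μ, u x ≤ u (T x))) : ∀ᵐ x ∂μ, u (T x) = u x := by
  set w : X → ℝ := fun x => u x / (1 + u x) with hw
  have hwm : Measurable w := hu.div (hu.const_add 1)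
  have hwb : ∀ x, |w x| ≤ 1 := by
    intro x
    have := hu0 x
    rw [hw]
    simp only
    rw [abs_of_nonneg (by positivity), div_le_one (by positivity)]
    linarith
  have hmono : ∀ s t : ℝ, 0 ≤ s → s ≤ t → s / (1 + s) ≤ t / (1 + t) := by
    intro s t hs hst
    rw [div_le_div_iff₀ (by linarith) (by linarith)]
    nlinarith
  have hinj : ∀ s t : ℝ, 0 ≤ s → 0 ≤ t → s / (1 + s) = t / (1 + t) → s = t := by
    intro s t hs ht hst
    rw [div_eq_div_iff (by linarith) (by linarith)] at hst
    linarith
  have hi : Integrable w μ := Integrable.of_bound hwm.aestronglyMeasurable 1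
    (Filter.Eventually.of_forall (fun x => by rw [Real.norm_eq_abs]; exact hwb x))
  have hiT : Integrable (fun x => w (T x)) μ :=
    Integrable.of_bound (hwm.comp hT.measurable).aestronglyMeasurable 1
    (Filter.Eventually.of_forall (fun x => by rw [Real.norm_eq_abs]; exact hwb _))
  have heq : ∫ x, w (T x) ∂μ = ∫ x, w x ∂μ := by
    have := integral_map (μ := μ) hT.measurable.aemeasurable (f := w) hwm.aestronglyMeasurable
    rw [hT.map_eq] at this
    exact this.symm
  rcases h with h | h
  · have h0 : 0 ≤ᵐ[μ] fun x => w x - w (T x) := by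
      filter_upwards [h] with x hx
      have := hmono _ _ (hu0 (T x)) hx
      show (0:ℝ) ≤ w x - w (T x)
      rw [hw]; simp only; linarith
    have h1 : ∫ x, (w x - w (T x)) ∂μ = 0 := by
      rw [integral_sub hi hiT, heq, sub_self]
    have h2 := (integral_eq_zero_iff_of_nonneg_ae h0 (hi.sub hiT)).1 h1
    filter_upwards [h2] with x hx
    have h3 : w x - w (T x) = 0 := hx
    exact hinj _ _ (hu0 _) (hu0 _) (by rw [hw] at h3; simp only at h3; linarith)
  · have h0 : 0 ≤ᵐ[μ] fun x => w (T x) - w x := by
      filter_upwards [h] with x hx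
      have := hmono _ _ (hu0 x) hx
      show (0:ℝ) ≤ w (T x) - w x
      rw [hw]; simp only; linarith
    have h1 : ∫ x, (w (T x) - w x) ∂μ = 0 := by
      rw [integral_sub hiT hi, heq, sub_self]
    have h2 := (integral_eq_zero_iff_of_nonneg_ae h0 (hiT.sub hi)).1 h1
    filter_upwards [h2] with x hx
    have h3 : w (T x) - w x = 0 := hx
    exact hinj _ _ (hu0 _) (hu0 _) (by rw [hw] at h3; simp only at h3; linarith)

theorem weak_of_near {X : Type*} [MeasurableSpace X] {μ : Measure X} [IsProbabilityMeasure μ]
    {T : X → X} (hT : Ergodic T μ) {B : ℝ} (hB : B < 1 / 4)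
    (near : ∀ f g : X → ℝ, Measurable f → Measurable g → (∀ x, |f x| ≤ 1) → (∀ x, |g x| ≤ 1) →
      ∃ n₀ : ℕ, ∀ n, n₀ ≤ n → |(∫ x, f x * g (T^[n] x) ∂μ) - (∫ x, f x ∂μ) * (∫ x, g x ∂μ)| ≤ B)
    (ξ : ℂ) {h : X → ℂ} (hm : Measurable h) (he : ∀ᵐ x ∂μ, h (T x) = ξ * h x) :
    ∃ c : ℂ, ∀ᵐ x ∂μ, h x = c := by
  have hmp := hT.toMeasurePreserving
  by_cases hξ1 : ξ = 1
  · subst hξ1
    have h1 : h ∘ T =ᵐ[μ] h := by
      filter_upwards [he] with x hx
      show h (T x) = h x
      rw [hx, one_mul]
    obtain ⟨c, hc⟩ := hT.ae_eq_const_of_ae_eq_comp_ae hm.aestronglyMeasurable h1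
    exact ⟨c, hc⟩
  · have hum : Measurable (fun x => ‖h x‖) := hm.norm
    have hinv : ∀ᵐ x ∂μ, ‖h (T x)‖ = ‖h x‖ := by
      apply mono_inv hmp hum (fun x => norm_nonneg _)
      rcases le_total ‖ξ‖ 1 with h1 | h1
      · left
        filter_upwards [he] with x hx
        rw [hx, norm_mul]
        exact mul_le_of_le_one_left (norm_nonneg _) h1
      · right
        filter_upwards [he] with x hx
        rw [hx, norm_mul]
        exact le_mul_of_one_le_left (norm_nonneg _) h1
    obtain ⟨c0, hc0⟩ := hT.ae_eq_const_of_ae_eq_comp_ae hum.aestronglyMeasurable hinv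
    have hc0' : ∀ᵐ x ∂μ, ‖h x‖ = c0 := hc0
    by_cases hz : c0 = 0
    · refine ⟨0, ?_⟩
      filter_upwards [hc0'] with x hx
      rw [hz] at hx
      exact norm_eq_zero.1 hx
    · exfalso
      have hc0pos : 0 < c0 := by
        have : ∃ x, ‖h x‖ = c0 := hc0'.exists
        obtain ⟨x, hx⟩ := this
        have := norm_nonneg (h x)
        rw [hx] at this
        exact lt_of_le_of_ne this (Ne.symm hz)
      have hξn : ‖ξ‖ = 1 := by
        obtain ⟨x, hx1, hx2, hx3⟩ := (he.and (hinv.and hc0')).exists
        rw [hx1, norm_mul, hx3] at hx2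
        have := mul_right_cancel₀ hz (hx2.trans (one_mul c0).symm)
        exact this
      -- normalised function, everywhere in the unit disc
      set k : X → ℂ := fun x => if ‖h x‖ = c0 then h x / c0 else 0 with hk
      have hkm : Measurable k := by
        apply Measurable.ite (measurableSet_eq_fun hum measurable_const) (hm.div_const _)
          measurable_const
      have hkn : ∀ᵐ x ∂μ, ‖k x‖ = 1 := by
        filter_upwards [hc0'] with x hx
        rw [hk]; simp only [if_pos hx]
        rw [norm_div, hx, Complex.norm_real, Real.norm_of_nonneg hc0pos.le, div_self hz]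
      have hkb : ∀ x, ‖k x‖ ≤ 1 := by
        intro x
        rw [hk]; simp only
        split_ifs with hx
        · rw [norm_div, hx, Complex.norm_real, Real.norm_of_nonneg hc0pos.le, div_self hz]
        · simp
      have hke : ∀ᵐ x ∂μ, k (T x) = ξ * k x := by
        filter_upwards [he, hinv, hc0'] with x h1 h2 h3
        rw [hk]; simp only
        rw [if_pos (h2.trans h3), if_pos h3, h1, mul_div_assoc]
      have hkit : ∀ n : ℕ, ∀ᵐ x ∂μ, k (T^[n] x) = ξ ^ n * k x := by
        intro n
        induction n with
        | zero => simp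
        | succ n ih =>
          have h1 := (hmp.iterate n).quasiMeasurePreserving.ae hke
          filter_upwards [ih, h1] with x h2 h3
          rw [Function.iterate_succ_apply', h3, h2, pow_succ]
          ring
      set f : X → ℝ := fun x => (k x).re with hf
      set g : X → ℝ := fun x => (k x).im with hg
      have hfm : Measurable f := Complex.measurable_re.comp hkm
      have hgm : Measurable g := Complex.measurable_im.comp hkm
      have hfb : ∀ x, |f x| ≤ 1 := fun x => (Complex.abs_re_le_norm _).trans (hkb x)
      have hgb : ∀ x, |g x| ≤ 1 := fun x => (Complex.abs_im_le_norm _).trans (hkb x)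
      have hbi : ∀ {u : X → ℝ}, Measurable u → (∀ x, |u x| ≤ 1) → Integrable u μ := by
        intro u hu hu1
        exact Integrable.of_bound hu.aestronglyMeasurable 1
          (Filter.Eventually.of_forall (fun x => by rw [Real.norm_eq_abs]; exact hu1 x))
      have hki : Integrable k μ := Integrable.of_bound hkm.aestronglyMeasurable 1
        (Filter.Eventually.of_forall hkb)
      have hk0 : ∫ x, k x ∂μ = 0 := by
        have h1 : ∫ x, k (T x) ∂μ = ∫ x, k x ∂μ := by
          have := integral_map (μ := μ) hmp.measurable.aemeasurable (f := k) hkm.aestronglyMeasurable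
          rw [hmp.map_eq] at this
          exact this.symm
        have h2 : ∫ x, k (T x) ∂μ = ξ * ∫ x, k x ∂μ := by
          rw [integral_congr_ae hke, integral_const_mul]
        rw [h1] at h2
        have h3 : (1 - ξ) * ∫ x, k x ∂μ = 0 := by rw [sub_mul, one_mul, ← h2, sub_self]
        rcases mul_eq_zero.1 h3 with h4 | h4
        · exact absurd (sub_eq_zero.1 h4).symm hξ1
        · exact h4
      have hf0 : ∫ x, f x ∂μ = 0 := by
        have := integral_re hki
        have e : (∫ x, RCLike.re (k x) ∂μ) = ∫ x, f x ∂μ := rfl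
        rw [e, hk0] at this
        simpa using this
      have hg0 : ∫ x, g x ∂μ = 0 := by
        have := integral_im hki
        have e : (∫ x, RCLike.im (k x) ∂μ) = ∫ x, g x ∂μ := rfl
        rw [e, hk0] at this
        simpa using this
      obtain ⟨n1, h1⟩ := near f f hfm hfm hfb hfb
      obtain ⟨n2, h2⟩ := near g g hgm hgm hgb hgb
      obtain ⟨n3, h3⟩ := near f g hfm hgm hfb hgb
      obtain ⟨n4, h4⟩ := near g f hgm hfm hgb hfb
      set n := max (max n1 n2) (max n3 n4) with hn
      have g1 := h1 n (by omega)
      have g2 := h2 n (by omega)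
      have g3 := h3 n (by omega)
      have g4 := h4 n (by omega)
      rw [hf0, mul_zero, sub_zero] at g1 g4
      rw [hg0, mul_zero, sub_zero] at g2 g3
      have hTn := (hmp.iterate n).measurable
      have hpi : ∀ {u v : X → ℝ}, Measurable u → Measurable v → (∀ x, |u x| ≤ 1) →
          (∀ x, |v x| ≤ 1) → Integrable (fun x => u x * v (T^[n] x)) μ := by
        intro u v hu hv hu1 hv1
        apply hbi (hu.mul (hv.comp hTn))
        intro x
        show |u x * v (T^[n] x)| ≤ 1
        rw [abs_mul]
        calc |u x| * |v (T^[n] x)| ≤ 1 * 1 := mul_le_mul (hu1 _) (hv1 _) (abs_nonneg _) (by norm_num)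
          _ = 1 := by norm_num
      have hre : ∫ x, (f x * f (T^[n] x) + g x * g (T^[n] x)) ∂μ = (ξ ^ n).re := by
        have e : (fun x => f x * f (T^[n] x) + g x * g (T^[n] x)) =ᵐ[μ] fun _ => (ξ ^ n).re := by
          filter_upwards [hkit n, hkn] with x hx hx1
          have e1 : f (T^[n] x) = (ξ ^ n * k x).re := by rw [hf]; simp only; rw [hx]
          have e2 : g (T^[n] x) = (ξ ^ n * k x).im := by rw [hg]; simp only; rw [hx]
          rw [e1, e2, Complex.mul_re, Complex.mul_im]
          have e3 : f x * f x + g x * g x = 1 := by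
            have := Complex.sq_norm (k x)
            rw [hx1, Complex.normSq_apply] at this
            rw [hf, hg]; simp only; linarith
          have e4 : (k x).re = f x := rfl
          have e5 : (k x).im = g x := rfl
          rw [e4, e5]
          linear_combination ((ξ ^ n).re) * e3
        rw [integral_congr_ae e]
        simp
      have him : ∫ x, (f x * g (T^[n] x) - g x * f (T^[n] x)) ∂μ = (ξ ^ n).im := by
        have e : (fun x => f x * g (T^[n] x) - g x * f (T^[n] x)) =ᵐ[μ] fun _ => (ξ ^ n).im := by
          filter_upwards [hkit n, hkn] with x hx hx1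
          have e1 : f (T^[n] x) = (ξ ^ n * k x).re := by rw [hf]; simp only; rw [hx]
          have e2 : g (T^[n] x) = (ξ ^ n * k x).im := by rw [hg]; simp only; rw [hx]
          rw [e1, e2, Complex.mul_re, Complex.mul_im]
          have e3 : f x * f x + g x * g x = 1 := by
            have := Complex.sq_norm (k x)
            rw [hx1, Complex.normSq_apply] at this
            rw [hf, hg]; simp only; linarith
          have e4 : (k x).re = f x := rfl
          have e5 : (k x).im = g x := rfl
          rw [e4, e5]
          linear_combination ((ξ ^ n).im) * e3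
        rw [integral_congr_ae e]
        simp
      rw [integral_add (hpi hfm hfm hfb hfb) (hpi hgm hgm hgb hgb)] at hre
      rw [integral_sub (hpi hfm hgm hfb hgb) (hpi hgm hfm hgb hfb)] at him
      have hnorm : ‖ξ ^ n‖ = 1 := by rw [norm_pow, hξn, one_pow]
      have hle := Complex.norm_le_abs_re_add_abs_im (ξ ^ n)
      rw [hnorm, ← hre, ← him] at hle
      have a1 := abs_add_le (∫ x, f x * f (T^[n] x) ∂μ) (∫ x, g x * g (T^[n] x) ∂μ)
      have a2 := abs_sub (∫ x, f x * g (T^[n] x) ∂μ) (∫ x, g x * f (T^[n] x) ∂μ)
      linarith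

end Pool.Agent.Helper18.SE
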