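import Mathlib
import Pool.Agent.Helper18.SE.Fin
import Pool.Agent.Helper18.SE.Weak

/-! Final form with weak mixing. -/

set_option autoImplicit false
open Real Set MeasureTheory Filter Topology
open scoped ENNReal

namespace Pool.Agent.Helper18.SE

open Pool.Agent.Helper18.SD (T3 dr nz DT)

attribute [local instance] Pool.Agent.Helper53.SM.instProbU Pool.Agent.Helper53.SM.instProbT2

theorem main3 : ∀ K : ℕ, 200 ≤ K → ∀ ε : ℝ, 0 < ε → ε ≤ 1 / 4 →
    ∀ a : ℝ, ((K:ℝ) ^ 2 / ε) ^ 10 ≤ |a| →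
    ∀ F : UnitAddCircle × (UnitAddCircle × UnitAddCircle) →
      UnitAddCircle × (UnitAddCircle × UnitAddCircle),
    (∀ θ x y : ℝ, F ((θ : UnitAddCircle), (x : UnitAddCircle), (y : UnitAddCircle)) =
      (((K * θ : ℝ) : UnitAddCircle), ((2 * x - y + a * Real.sin (2 * π * x) +
        ε * Real.sin (2 * π * θ) : ℝ) : UnitAddCircle), (x : UnitAddCircle))) →
    Ergodic F volume ∧
    (∀ (ξ : ℂ) (h : UnitAddCircle × (UnitAddCircle × UnitAddCircle) → ℂ), Measurable h →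
      (∀ᵐ q, h (F q) = ξ * h q) → ∃ c : ℂ, ∀ᵐ q, h q = c) ∧
    ∃ lam : ℝ, |lam - Real.log (π * |a|)| ≤ 100 * |a| ^ (-(1:ℝ) / 10) * Real.log |a| ∧
      ∀ᵐ z : ℝ × (ℝ × ℝ),
        Tendsto (fun n : ℕ => Real.log ‖fderiv ℝ (fun p : ℝ × ℝ =>
          ((fun q : ℝ × (ℝ × ℝ) => (K * q.1, (2 * q.2.1 - q.2.2 + a * Real.sin (2 * π * q.2.1) +
            ε * Real.sin (2 * π * q.1), q.2.1)))^[n] (z.1, p)).2) z.2‖ / n) atTop (𝓝 lam) := by
  intro K hK ε hε hε4 a ha F hF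
  obtain ⟨herg, hlam⟩ := main2 K hK ε hε hε4 a ha F hF
  refine ⟨herg, ?_, hlam⟩
  have hFd := Pool.Agent.Helper18.SD.driven_unique hF
  have hK2 : 2 ≤ K := by omega
  have hKr : (200:ℝ) ≤ K := by exact_mod_cast hK
  set X : ℝ := (K:ℝ) ^ 2 / ε with hX
  have hX1 : 160000 ≤ X := by
    rw [hX, le_div_iff₀ hε]
    nlinarith
  have hεX : 1 / ε ≤ X := by
    rw [hX]
    gcongr
    nlinarith
  have hX0 : 0 < X := by linarith
  have ha0 : 0 < |a| := lt_of_lt_of_le (by positivity) ha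
  set b : ℝ := |a| ^ ((1:ℝ) / 10) with hbdef
  have hb0 : 0 ≤ b := by rw [hbdef]; positivity
  have hab : |a| = b ^ 10 := by
    rw [hbdef, ← Real.rpow_natCast, ← Real.rpow_mul ha0.le]
    norm_num
  have hXb : X ≤ b := by
    rw [hab] at ha
    exact (pow_le_pow_iff_left₀ hX0.le hb0 (by norm_num)).1 ha
  have hb : 160000 ≤ b := hX1.trans hXb
  have hbp : 0 < b := by linarith
  have hB : 20000 / b + 6 * 10 ^ 7 * (Real.log (1 / ε) / |a| ^ 2) < 1 / 4 := by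
    have h1 : 20000 / b ≤ 1 / 8 := by
      rw [div_le_div_iff₀ hbp (by norm_num)]
      linarith
    have hl1 : Real.log (1 / ε) ≤ b := by
      have h1 : Real.log (1 / ε) ≤ 1 / ε - 1 := Real.log_le_sub_one_of_pos (by positivity)
      linarith
    have h2 : 6 * 10 ^ 7 * (Real.log (1 / ε) / |a| ^ 2) ≤ 1 / 16 := by
      rw [hab, mul_div_assoc', div_le_div_iff₀ (by positivity) (by norm_num)]
      have h3 : b * (16 * (6 * 10 ^ 7)) ≤ b * b ^ 19 := by
        gcongr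
        calc (16 * (6 * 10 ^ 7) : ℝ) ≤ 160000 ^ 19 := by norm_num
          _ ≤ b ^ 19 := by gcongr
      calc 6 * 10 ^ 7 * Real.log (1 / ε) * 16 ≤ 6 * 10 ^ 7 * b * 16 := by gcongr
        _ = b * (16 * (6 * 10 ^ 7)) := by ring
        _ ≤ b * b ^ 19 := h3
        _ = 1 * (b ^ 10) ^ 2 := by ring
    linarith
  intro ξ h hm he
  refine weak_of_near herg hB ?_ ξ hm he
  intro f g hf hg hf1 hg1
  rw [hFd]
  exact Pool.Agent.Helper18.SD.near_mixing (by linarith) hab hε hε4 hK2 hf hg hf1 hg1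

end Pool.Agent.Helper18.SE
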